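import Mathlib

/-!
# Elementary facts about `SL(2, ℝ)`

The height `u g` is half of the squared Frobenius norm of `g`; in terms of the hyperbolic
displacement `d` of the base point it is `cosh d`.
-/

set_option autoImplicit false
open MeasureTheory Filter Topology
open scoped ENNReal

namespace Pool.Agent.Helper37.Ball

/-- The group `SL(2, ℝ)`. -/
abbrev G2 := Matrix.SpecialLinearGroup (Fin 2) ℝ

/-- Build an element of `SL(2, ℝ)` from its entries. -/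
def mk4 (a b c d : ℝ) (h : a * d - b * c = 1) : G2 :=
  ⟨!![a, b; c, d], by rw [Matrix.det_fin_two_of]; exact h⟩

@[simp] lemma mk4_00 (a b c d : ℝ) (h : a * d - b * c = 1) : (mk4 a b c d h) 0 0 = a := rfl
@[simp] lemma mk4_01 (a b c d : ℝ) (h : a * d - b * c = 1) : (mk4 a b c d h) 0 1 = b := rfl
@[simp] lemma mk4_10 (a b c d : ℝ) (h : a * d - b * c = 1) : (mk4 a b c d h) 1 0 = c := rfl
@[simp] lemma mk4_11 (a b c d : ℝ) (h : a * d - b * c = 1) : (mk4 a b c d h) 1 1 = d := rfl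

lemma det_eq (g : G2) : g 0 0 * g 1 1 - g 0 1 * g 1 0 = 1 := by
  have := g.det_coe
  rwa [Matrix.det_fin_two] at this

lemma ext4 {g h : G2} (h00 : g 0 0 = h 0 0) (h01 : g 0 1 = h 0 1) (h10 : g 1 0 = h 1 0)
    (h11 : g 1 1 = h 1 1) : g = h := by
  apply Matrix.SpecialLinearGroup.ext
  intro i j
  fin_cases i <;> fin_cases j <;> assumption

@[simp] lemma mul_00 (g h : G2) : (g * h) 0 0 = g 0 0 * h 0 0 + g 0 1 * h 1 0 := by
  simp [Matrix.SpecialLinearGroup.coe_mul, Matrix.mul_apply, Fin.sum_univ_two]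
@[simp] lemma mul_01 (g h : G2) : (g * h) 0 1 = g 0 0 * h 0 1 + g 0 1 * h 1 1 := by
  simp [Matrix.SpecialLinearGroup.coe_mul, Matrix.mul_apply, Fin.sum_univ_two]
@[simp] lemma mul_10 (g h : G2) : (g * h) 1 0 = g 1 0 * h 0 0 + g 1 1 * h 1 0 := by
  simp [Matrix.SpecialLinearGroup.coe_mul, Matrix.mul_apply, Fin.sum_univ_two]
@[simp] lemma mul_11 (g h : G2) : (g * h) 1 1 = g 1 0 * h 0 1 + g 1 1 * h 1 1 := by
  simp [Matrix.SpecialLinearGroup.coe_mul, Matrix.mul_apply, Fin.sum_univ_two]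

@[simp] lemma one_00 : (1 : G2) 0 0 = 1 := by simp
@[simp] lemma one_01 : (1 : G2) 0 1 = 0 := by simp
@[simp] lemma one_10 : (1 : G2) 1 0 = 0 := by simp
@[simp] lemma one_11 : (1 : G2) 1 1 = 1 := by simp

@[simp] lemma inv_00 (g : G2) : (g⁻¹) 0 0 = g 1 1 := by
  simp [Matrix.SpecialLinearGroup.coe_inv, Matrix.adjugate_fin_two]
@[simp] lemma inv_01 (g : G2) : (g⁻¹) 0 1 = - g 0 1 := by
  simp [Matrix.SpecialLinearGroup.coe_inv, Matrix.adjugate_fin_two]
@[simp] lemma inv_10 (g : G2) : (g⁻¹) 1 0 = - g 1 0 := by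
  simp [Matrix.SpecialLinearGroup.coe_inv, Matrix.adjugate_fin_two]
@[simp] lemma inv_11 (g : G2) : (g⁻¹) 1 1 = g 0 0 := by
  simp [Matrix.SpecialLinearGroup.coe_inv, Matrix.adjugate_fin_two]

/-- Half of the squared Frobenius norm. -/
noncomputable def u (g : G2) : ℝ :=
  ((g 0 0) ^ 2 + (g 0 1) ^ 2 + (g 1 0) ^ 2 + (g 1 1) ^ 2) / 2

lemma sum_sq_eq (g : G2) :
    ∑ i, ∑ j, ((g : Matrix (Fin 2) (Fin 2) ℝ) i j) ^ 2 = 2 * u g := by
  simp only [Fin.sum_univ_two, u]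
  ring

lemma one_le_u (g : G2) : 1 ≤ u g := by
  have h := det_eq g
  unfold u
  nlinarith [sq_nonneg (g 0 0 - g 1 1), sq_nonneg (g 0 1 + g 1 0)]

lemma u_pos (g : G2) : 0 < u g := lt_of_lt_of_le one_pos (one_le_u g)

@[simp] lemma u_one : u (1 : G2) = 1 := by
  simp [u]

@[simp] lemma u_inv (g : G2) : u g⁻¹ = u g := by
  simp only [u, inv_00, inv_01, inv_10, inv_11]
  ring

lemma u_mul_le (g h : G2) : u (g * h) ≤ 2 * u g * u h := by
  simp only [u, mul_00, mul_01, mul_10, mul_11]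
  nlinarith [sq_nonneg (g 0 0 * h 1 0 - g 0 1 * h 0 0), sq_nonneg (g 0 0 * h 1 1 - g 0 1 * h 0 1),
    sq_nonneg (g 1 0 * h 1 0 - g 1 1 * h 0 0), sq_nonneg (g 1 0 * h 1 1 - g 1 1 * h 0 1)]

/-- Rotations. -/
noncomputable def rot (z : Circle) : G2 :=
  mk4 (z : ℂ).re (-(z : ℂ).im) (z : ℂ).im (z : ℂ).re (by
    have := Circle.normSq_coe z
    rw [Complex.normSq_apply] at this
    linarith)

lemma circle_sq (z : Circle) : (z : ℂ).re ^ 2 + (z : ℂ).im ^ 2 = 1 := by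
  have := Circle.normSq_coe z
  rw [Complex.normSq_apply] at this
  nlinarith

@[simp] lemma rot_00 (z : Circle) : (rot z) 0 0 = (z : ℂ).re := rfl
@[simp] lemma rot_01 (z : Circle) : (rot z) 0 1 = -(z : ℂ).im := rfl
@[simp] lemma rot_10 (z : Circle) : (rot z) 1 0 = (z : ℂ).im := rfl
@[simp] lemma rot_11 (z : Circle) : (rot z) 1 1 = (z : ℂ).re := rfl

lemma rot_mul (z w : Circle) : rot (z * w) = rot z * rot w := by
  apply ext4 <;> simp <;> ring

lemma rot_one : rot 1 = 1 := by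
  apply ext4 <;> simp

lemma rot_inv (z : Circle) : rot z⁻¹ = (rot z)⁻¹ := by
  have : rot z⁻¹ * rot z = 1 := by rw [← rot_mul]; simp [rot_one]
  exact eq_inv_of_mul_eq_one_left this

lemma u_rot_mul (z : Circle) (g : G2) : u (rot z * g) = u g := by
  have h := circle_sq z
  simp only [u, mul_00, mul_01, mul_10, mul_11, rot_00, rot_01, rot_10, rot_11]
  have : ∀ a b : ℝ, ((z : ℂ).re * a + -(z : ℂ).im * b) ^ 2 + ((z : ℂ).im * a + (z : ℂ).re * b) ^ 2
      = a ^ 2 + b ^ 2 := by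
    intro a b
    have : ((z : ℂ).re * a + -(z : ℂ).im * b) ^ 2 + ((z : ℂ).im * a + (z : ℂ).re * b) ^ 2
      = ((z : ℂ).re ^ 2 + (z : ℂ).im ^ 2) * (a ^ 2 + b ^ 2) := by ring
    rw [this, h, one_mul]
  have h1 := this (g 0 0) (g 1 0)
  have h2 := this (g 0 1) (g 1 1)
  linarith

lemma u_mul_rot (z : Circle) (g : G2) : u (g * rot z) = u g := by
  rw [← u_inv (g * rot z), mul_inv_rev, ← rot_inv, u_rot_mul, u_inv]

/-- The diagonal one-parameter group. -/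
noncomputable def dg (t : ℝ) : G2 :=
  mk4 (Real.exp (t / 2)) 0 0 (Real.exp (-t / 2)) (by
    rw [← Real.exp_add]; simp [show t / 2 + -t / 2 = 0 by ring])

@[simp] lemma dg_00 (t : ℝ) : (dg t) 0 0 = Real.exp (t / 2) := rfl
@[simp] lemma dg_01 (t : ℝ) : (dg t) 0 1 = 0 := rfl
@[simp] lemma dg_10 (t : ℝ) : (dg t) 1 0 = 0 := rfl
@[simp] lemma dg_11 (t : ℝ) : (dg t) 1 1 = Real.exp (-t / 2) := rfl

lemma dg_add (s t : ℝ) : dg (s + t) = dg s * dg t := by
  apply ext4 <;> simp [← Real.exp_add] <;> ring_nf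

@[simp] lemma dg_zero : dg 0 = 1 := by
  apply ext4 <;> simp

lemma dg_neg (t : ℝ) : dg (-t) = (dg t)⁻¹ := by
  apply ext4 <;> simp

lemma exp_half_sq (t : ℝ) : Real.exp (t / 2) ^ 2 = Real.exp t := by
  rw [← Real.exp_nat_mul]; congr 1; push_cast; ring

lemma u_dg (t : ℝ) : u (dg t) = Real.cosh t := by
  simp only [u, dg_00, dg_01, dg_10, dg_11]
  rw [exp_half_sq, exp_half_sq, Real.cosh_eq]
  ring

/-- The upper unipotent one-parameter group. -/
noncomputable def nn (x : ℝ) : G2 := mk4 1 x 0 1 (by ring)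

@[simp] lemma nn_00 (x : ℝ) : (nn x) 0 0 = 1 := rfl
@[simp] lemma nn_01 (x : ℝ) : (nn x) 0 1 = x := rfl
@[simp] lemma nn_10 (x : ℝ) : (nn x) 1 0 = 0 := rfl
@[simp] lemma nn_11 (x : ℝ) : (nn x) 1 1 = 1 := rfl

lemma nn_add (x y : ℝ) : nn (x + y) = nn x * nn y := by
  apply ext4 <;> simp [add_comm]

@[simp] lemma nn_zero : nn 0 = 1 := by
  apply ext4 <;> simp

lemma nn_neg (x : ℝ) : nn (-x) = (nn x)⁻¹ := by
  apply ext4 <;> simp

lemma nn_mul_dg (t x : ℝ) : nn (Real.exp t * x) * dg t = dg t * nn x := by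
  have h1 : Real.exp (t / 2) * Real.exp (t / 2) = Real.exp t := by
    rw [← Real.exp_add]; ring_nf
  have h2 : Real.exp t * Real.exp (-t / 2) = Real.exp (t / 2) := by
    rw [← Real.exp_add]; ring_nf
  apply ext4
  · simp
  · simp only [mul_01, nn_00, nn_01, dg_00, dg_01, dg_11, nn_11, mul_zero, zero_mul, add_zero,
      zero_add, one_mul, mul_one]
    calc Real.exp t * x * Real.exp (-t / 2) = (Real.exp t * Real.exp (-t / 2)) * x := by ring
      _ = _ := by rw [h2]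
  · simp
  · simp

/-- The key formula for `u` of a product of the form `a_p k a_{-q}`. -/
lemma u_dg_rot_dg (p q : ℝ) (z : Circle) :
    u (dg p * rot z * dg (-q)) =
      Real.cosh (p - q) * (z : ℂ).re ^ 2 + Real.cosh (p + q) * (z : ℂ).im ^ 2 := by
  simp only [u, mul_00, mul_01, mul_10, mul_11, rot_00, rot_01, rot_10, rot_11, dg_00, dg_01,
    dg_10, dg_11, mul_zero, zero_mul, add_zero, zero_add]
  have e : ∀ a b c : ℝ, (Real.exp a * c * Real.exp b) ^ 2 = Real.exp (2 * (a + b)) * c ^ 2 := by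
    intro a b c
    have : Real.exp (2 * (a + b)) = (Real.exp a * Real.exp b) ^ 2 := by
      rw [← Real.exp_add, ← Real.exp_nat_mul]; push_cast; rfl
    rw [this]; ring
  rw [e, e, e, e, Real.cosh_eq, Real.cosh_eq]
  ring_nf

/-- Cartan decomposition. -/
lemma cartan (g : G2) : ∃ z w : Circle, ∃ t : ℝ, 0 ≤ t ∧ g = rot z * dg t * rot w := by
  have hdet := det_eq g
  set z₁ : ℂ := ⟨(g 0 0 + g 1 1) / 2, (g 1 0 - g 0 1) / 2⟩ with hz₁
  set z₂ : ℂ := ⟨(g 0 0 - g 1 1) / 2, (g 1 0 + g 0 1) / 2⟩ with hz₂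
  have n1 : ‖z₁‖ ^ 2 = ((g 0 0 + g 1 1) / 2) ^ 2 + ((g 1 0 - g 0 1) / 2) ^ 2 := by
    rw [← Complex.normSq_eq_norm_sq, Complex.normSq_apply]; simp [hz₁]; ring
  have n2 : ‖z₂‖ ^ 2 = ((g 0 0 - g 1 1) / 2) ^ 2 + ((g 1 0 + g 0 1) / 2) ^ 2 := by
    rw [← Complex.normSq_eq_norm_sq, Complex.normSq_apply]; simp [hz₂]; ring
  have hn : ‖z₁‖ ^ 2 - ‖z₂‖ ^ 2 = 1 := by
    rw [n1, n2]; nlinarith
  have hprod : (‖z₁‖ + ‖z₂‖) * (‖z₁‖ - ‖z₂‖) = 1 := by nlinarith
  have hpos : 1 ≤ ‖z₁‖ + ‖z₂‖ := by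
    have h1 : 1 ≤ ‖z₁‖ := by
      by_contra hlt
      push Not at hlt
      nlinarith [norm_nonneg z₁, norm_nonneg z₂, sq_nonneg ‖z₂‖]
    linarith [norm_nonneg z₂]
  obtain ⟨α, hα⟩ : ∃ α : ℝ, z₁ = ‖z₁‖ * Complex.exp (α * Complex.I) :=
    ⟨Complex.arg z₁, (Complex.norm_mul_exp_arg_mul_I z₁).symm⟩
  obtain ⟨β, hβ⟩ : ∃ β : ℝ, z₂ = ‖z₂‖ * Complex.exp (β * Complex.I) :=
    ⟨Complex.arg z₂, (Complex.norm_mul_exp_arg_mul_I z₂).symm⟩
  refine ⟨Circle.exp ((α + β) / 2), Circle.exp ((α - β) / 2), 2 * Real.log (‖z₁‖ + ‖z₂‖), ?_, ?_⟩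
  · have := Real.log_nonneg hpos
    linarith
  have e1 : Real.exp (2 * Real.log (‖z₁‖ + ‖z₂‖) / 2) = ‖z₁‖ + ‖z₂‖ := by
    rw [show 2 * Real.log (‖z₁‖ + ‖z₂‖) / 2 = Real.log (‖z₁‖ + ‖z₂‖) by ring,
      Real.exp_log (by linarith)]
  have e2 : Real.exp (-(2 * Real.log (‖z₁‖ + ‖z₂‖)) / 2) = ‖z₁‖ - ‖z₂‖ := by
    rw [show -(2 * Real.log (‖z₁‖ + ‖z₂‖)) / 2 = - Real.log (‖z₁‖ + ‖z₂‖) by ring,
      Real.exp_neg, Real.exp_log (by linarith)]
    exact inv_eq_of_mul_eq_one_right hprod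
  have r1 : (g 0 0 + g 1 1) / 2 = ‖z₁‖ * Real.cos α := by
    have := congrArg Complex.re hα
    simpa [hz₁, Complex.exp_ofReal_mul_I_re] using this
  have i1 : (g 1 0 - g 0 1) / 2 = ‖z₁‖ * Real.sin α := by
    have := congrArg Complex.im hα
    simpa [hz₁, Complex.exp_ofReal_mul_I_im] using this
  have r2 : (g 0 0 - g 1 1) / 2 = ‖z₂‖ * Real.cos β := by
    have := congrArg Complex.re hβ
    simpa [hz₂, Complex.exp_ofReal_mul_I_re] using this
  have i2 : (g 1 0 + g 0 1) / 2 = ‖z₂‖ * Real.sin β := by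
    have := congrArg Complex.im hβ
    simpa [hz₂, Complex.exp_ofReal_mul_I_im] using this
  have cre : ∀ x : ℝ, ((Circle.exp x : Circle) : ℂ).re = Real.cos x := by
    intro x; rw [Circle.coe_exp, Complex.exp_ofReal_mul_I_re]
  have cim : ∀ x : ℝ, ((Circle.exp x : Circle) : ℂ).im = Real.sin x := by
    intro x; rw [Circle.coe_exp, Complex.exp_ofReal_mul_I_im]
  have sα : α = (α + β) / 2 + (α - β) / 2 := by ring
  have sβ : β = (α + β) / 2 - (α - β) / 2 := by ring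
  have ca : Real.cos α = Real.cos ((α + β) / 2) * Real.cos ((α - β) / 2)
      - Real.sin ((α + β) / 2) * Real.sin ((α - β) / 2) := by
    conv_lhs => rw [sα]
    rw [Real.cos_add]
  have sa : Real.sin α = Real.sin ((α + β) / 2) * Real.cos ((α - β) / 2)
      + Real.cos ((α + β) / 2) * Real.sin ((α - β) / 2) := by
    conv_lhs => rw [sα]
    rw [Real.sin_add]
  have cb : Real.cos β = Real.cos ((α + β) / 2) * Real.cos ((α - β) / 2)
      + Real.sin ((α + β) / 2) * Real.sin ((α - β) / 2) := by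
    conv_lhs => rw [sβ]
    rw [Real.cos_sub]
  have sb : Real.sin β = Real.sin ((α + β) / 2) * Real.cos ((α - β) / 2)
      - Real.cos ((α + β) / 2) * Real.sin ((α - β) / 2) := by
    conv_lhs => rw [sβ]
    rw [Real.sin_sub]
  rw [ca] at r1
  rw [sa] at i1
  rw [cb] at r2
  rw [sb] at i2
  apply ext4
  · simp only [mul_00, mul_01, rot_00, rot_01, rot_10, dg_00, dg_10, dg_01, dg_11, cre, cim, e1, e2]
    linear_combination r1 + r2
  · simp only [mul_00, mul_01, rot_00, rot_01, rot_11, dg_00, dg_10, dg_01, dg_11, cre, cim, e1, e2]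
    linear_combination i2 - i1
  · simp only [mul_10, mul_11, rot_00, rot_10, rot_11, dg_00, dg_10, dg_01, dg_11, cre, cim, e1, e2]
    linear_combination i1 + i2
  · simp only [mul_10, mul_11, rot_01, rot_10, rot_11, dg_00, dg_10, dg_01, dg_11, cre, cim, e1, e2]
    linear_combination r1 - r2

lemma u_mul_dg_le (g : G2) (t : ℝ) (ht : 0 ≤ t) : u (g * dg t) ≤ Real.exp t * u g := by
  simp only [u, mul_00, mul_01, mul_10, mul_11, dg_00, dg_01, dg_10, dg_11, mul_zero, add_zero,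
    zero_add, mul_pow, exp_half_sq]
  have h1 : Real.exp (-t) ≤ Real.exp t := Real.exp_le_exp.mpr (by linarith)
  nlinarith [mul_le_mul_of_nonneg_left h1 (sq_nonneg (g 0 1)),
    mul_le_mul_of_nonneg_left h1 (sq_nonneg (g 1 1))]

/-- `om w = e^t` when `w = cosh t`, `t ≥ 0`. -/
noncomputable def om (w : ℝ) : ℝ := w + Real.sqrt (w ^ 2 - 1)

lemma om_cosh (t : ℝ) (ht : 0 ≤ t) : om (Real.cosh t) = Real.exp t := by
  unfold om
  rw [show Real.cosh t ^ 2 - 1 = Real.sinh t ^ 2 by rw [Real.cosh_sq]; ring,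
    Real.sqrt_sq (Real.sinh_nonneg_iff.mpr ht), Real.cosh_add_sinh]

lemma om_mono {v w : ℝ} (hv : 1 ≤ v) (h : v ≤ w) : om v ≤ om w := by
  unfold om
  have : Real.sqrt (v ^ 2 - 1) ≤ Real.sqrt (w ^ 2 - 1) := Real.sqrt_le_sqrt (by nlinarith)
  linarith

lemma one_le_om {v : ℝ} (hv : 1 ≤ v) : 1 ≤ om v := by
  unfold om
  have := Real.sqrt_nonneg (v ^ 2 - 1)
  linarith

lemma om_le {v : ℝ} (hv : 1 ≤ v) : om v ≤ 2 * v := by
  unfold om
  have : Real.sqrt (v ^ 2 - 1) ≤ v := by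
    rw [Real.sqrt_le_left (by linarith)]
    linarith
  linarith

/-- Sharp submultiplicativity. -/
lemma u_mul_le_om (g h : G2) : u (g * h) ≤ om (u h) * u g := by
  obtain ⟨z, w, t, ht, rfl⟩ := cartan h
  have hu : u (rot z * dg t * rot w) = Real.cosh t := by
    rw [u_mul_rot, u_rot_mul, u_dg]
  rw [hu, om_cosh t ht]
  rw [show g * (rot z * dg t * rot w) = ((g * rot z) * dg t) * rot w by group, u_mul_rot]
  calc u (g * rot z * dg t) ≤ Real.exp t * u (g * rot z) := u_mul_dg_le _ _ ht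
    _ = Real.exp t * u g := by rw [u_mul_rot]

lemma u_mul_le_om' (g h : G2) : u (h * g) ≤ om (u h) * u g := by
  have := u_mul_le_om g⁻¹ h⁻¹
  rw [← mul_inv_rev, u_inv, u_inv, u_inv] at this
  exact this

end Pool.Agent.Helper37.Ball
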