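import Mathlib
import Pool.Agent.Helper37.Ball.Group
set_option autoImplicit false
open MeasureTheory Filter Topology
open scoped ENNReal
namespace Pool.Agent.Helper37.Ball

/-- The entries of a matrix in `SL(2, ℝ)`. -/
def toV (g : G2) : Fin 2 → Fin 2 → ℝ := fun i j => g i j

lemma isClosedEmbedding_toV : IsClosedEmbedding toV := by
  have := Matrix.SpecialLinearGroup.isClosedEmbedding_val (n := Fin 2) (R := ℝ)
  exact this

instance : SecondCountableTopology G2 :=
  isClosedEmbedding_toV.isInducing.secondCountableTopology

instance : LocallyCompactSpace G2 :=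
  isClosedEmbedding_toV.locallyCompactSpace

instance : T2Space G2 :=
  isClosedEmbedding_toV.isEmbedding.t2Space

lemma continuous_entry (i j : Fin 2) : Continuous fun g : G2 => g i j := by
  have h : Continuous toV := isClosedEmbedding_toV.continuous
  exact (continuous_apply j).comp ((continuous_apply i).comp h)

lemma continuous_to {Ω : Type*} [TopologicalSpace Ω] {f : Ω → G2}
    (h : ∀ i j, Continuous fun ω => (f ω) i j) : Continuous f := by
  rw [isClosedEmbedding_toV.isInducing.continuous_iff]
  exact continuous_pi fun i => continuous_pi fun j => h i j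

lemma continuous_u : Continuous u := by
  unfold u
  have := continuous_entry
  fun_prop

lemma continuous_rot : Continuous rot := by
  apply continuous_to
  intro i j
  have h0 : Continuous fun z : Circle => (z : ℂ) := continuous_subtype_val
  have h1 : Continuous fun z : Circle => (z : ℂ).re := Complex.continuous_re.comp h0
  have h2 : Continuous fun z : Circle => (z : ℂ).im := Complex.continuous_im.comp h0
  fin_cases i <;> fin_cases j <;> simp
  · exact h1
  · exact h2.neg
  · exact h2
  · exact h1

lemma continuous_dg : Continuous dg := by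
  apply continuous_to
  intro i j
  fin_cases i <;> fin_cases j <;> simp <;> fun_prop

lemma continuous_nn : Continuous nn := by
  apply continuous_to
  intro i j
  fin_cases i <;> fin_cases j <;> simp <;> fun_prop

lemma isCompact_u_le (c : ℝ) : IsCompact {g : G2 | u g ≤ c} := by
  have hKc : IsCompact (Set.pi Set.univ (fun _ : Fin 2 => Set.pi Set.univ
      fun _ : Fin 2 => Set.Icc (-(2 * c + 1)) (2 * c + 1))) :=
    isCompact_univ_pi fun i => isCompact_univ_pi fun j => isCompact_Icc
  have h1 := isClosedEmbedding_toV.isCompact_preimage hKc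
  refine h1.of_isClosed_subset (isClosed_le continuous_u continuous_const) ?_
  intro g hg i _ j _
  have hg' : u g ≤ c := hg
  have h2 : (g i j) ^ 2 ≤ 2 * c := by
    unfold u at hg'
    fin_cases i <;> fin_cases j <;> simp <;>
      nlinarith [sq_nonneg (g 0 0), sq_nonneg (g 0 1), sq_nonneg (g 1 0), sq_nonneg (g 1 1)]
  have hc : 0 ≤ c := by nlinarith [sq_nonneg (g i j)]
  have := abs_le_of_sq_le_sq' (a := g i j) (b := 2 * c + 1) (by nlinarith) (by linarith)
  exact ⟨this.1, this.2⟩

lemma exists_u_bound {Q : Set G2} (hQ : IsCompact Q) : ∃ c : ℝ, ∀ g ∈ Q, u g ≤ c := by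
  obtain ⟨c, hc⟩ := (hQ.image continuous_u).bddAbove
  exact ⟨c, fun g hg => hc ⟨g, hg, rfl⟩⟩

section Meas
variable [MeasurableSpace G2] [BorelSpace G2]

lemma measurable_to {Ω : Type*} [MeasurableSpace Ω] {f : Ω → G2}
    (h : ∀ i j, Measurable fun ω => (f ω) i j) : Measurable f := by
  have hb : MeasurableEmbedding toV := isClosedEmbedding_toV.measurableEmbedding
  rw [← hb.measurable_comp_iff]
  exact measurable_pi_lambda _ fun i => measurable_pi_lambda _ fun j => h i j

lemma measurable_u : Measurable u := continuous_u.measurable

end Meas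

end Pool.Agent.Helper37.Ball
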