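import Mathlib
import Pool.Agent.Helper37.Ball.Top
set_option autoImplicit false
open MeasureTheory Filter Topology
open scoped ENNReal
namespace Pool.Agent.Helper37.Ball

/-- The space of real two by two matrices. -/
abbrev V4 := Fin 2 → Fin 2 → ℝ

/-- determinant -/
def dt (M : V4) : ℝ := M 0 0 * M 1 1 - M 0 1 * M 1 0

lemma continuous_dt : Continuous dt := by
  unfold dt; fun_prop

/-- the part of the cone -/
def cone : Set V4 := {M | 0 < dt M ∧ dt M ≤ 1}

lemma measurableSet_cone : MeasurableSet cone :=
  (isOpen_lt continuous_const continuous_dt).measurableSet.inter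
    (isClosed_le continuous_dt continuous_const).measurableSet

open Classical in
/-- projection to `SL(2, ℝ)` of the cone of matrices with positive determinant. -/
noncomputable def prj (M : V4) : G2 :=
  if h : 0 < dt M then mk4 (M 0 0 / √(dt M)) (M 0 1 / √(dt M)) (M 1 0 / √(dt M)) (M 1 1 / √(dt M))
    (by
      have h1 : √(dt M) * √(dt M) = dt M := Real.mul_self_sqrt h.le
      have h2 : √(dt M) ≠ 0 := (Real.sqrt_pos.mpr h).ne'
      field_simp
      rw [sq, h1, dt])
  else 1

lemma prj_apply {M : V4} (h : 0 < dt M) (i j : Fin 2) : (prj M) i j = M i j / √(dt M) := by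
  unfold prj
  rw [dif_pos h]
  fin_cases i <;> fin_cases j <;> simp

section Meas
variable [MeasurableSpace G2] [BorelSpace G2]

lemma measurable_prj : Measurable prj := by
  apply measurable_to
  intro i j
  have : (fun M : V4 => (prj M) i j) = fun M => if 0 < dt M then M i j / √(dt M)
      else (1 : G2) i j := by
    funext M
    split_ifs with h
    · exact prj_apply h i j
    · unfold prj; rw [dif_neg h]
  rw [this]
  refine Measurable.ite (isOpen_lt continuous_const continuous_dt).measurableSet ?_ measurable_const
  have h1 := continuous_dt.measurable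
  fun_prop

end Meas

/-- right multiplication -/
noncomputable def rmul (A : G2) (M : V4) : V4 := fun i => Matrix.toLin' ((A : Matrix (Fin 2) (Fin 2) ℝ).transpose) (M i)

lemma rmul_apply (A : G2) (M : V4) (i j : Fin 2) :
    rmul A M i j = M i 0 * A 0 j + M i 1 * A 1 j := by
  simp [rmul, Matrix.toLin'_apply, Matrix.mulVec, dotProduct, Fin.sum_univ_two]
  ring

lemma mp_rmul (A : G2) : MeasurePreserving (rmul A) (volume : Measure V4) volume := by
  refine volume_preserving_pi (f := fun _ => Matrix.toLin' ((A : Matrix (Fin 2) (Fin 2) ℝ).transpose)) ?_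
  intro i
  have hdet : ((A : Matrix (Fin 2) (Fin 2) ℝ).transpose).det = 1 := by
    rw [Matrix.det_transpose, A.det_coe]
  refine ⟨?_, ?_⟩
  · exact (LinearMap.continuous_of_finiteDimensional _).measurable
  · rw [Real.map_matrix_volume_pi_eq_smul_volume_pi (by rw [hdet]; exact one_ne_zero), hdet]
    simp

/-- the adjugate -/
def adj (M : V4) : V4 := ![![M 1 1, -M 0 1], ![-M 1 0, M 0 0]]

/-- the adjugate as a linear map -/
def adjL : V4 →ₗ[ℝ] V4 where
  toFun := adj
  map_add' M N := by
    ext i j; fin_cases i <;> fin_cases j <;> simp [adj] <;> ring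
  map_smul' c M := by
    ext i j; fin_cases i <;> fin_cases j <;> simp [adj]

lemma adj_adj (M : V4) : adj (adj M) = M := by
  ext i j; fin_cases i <;> fin_cases j <;> simp [adj]

lemma mp_adj : MeasurePreserving adj (volume : Measure V4) volume := by
  have h1 : adjL * adjL = 1 := by
    exact LinearMap.ext fun M => adj_adj M
  have h2 : LinearMap.det adjL * LinearMap.det adjL = 1 := by
    rw [← map_mul, h1, map_one]
  have h3 : LinearMap.det adjL ≠ 0 := by
    intro h; rw [h] at h2; simp at h2
  have h4 : |LinearMap.det adjL| = 1 := by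
    have : |LinearMap.det adjL| * |LinearMap.det adjL| = 1 := by rw [← abs_mul, h2, abs_one]
    nlinarith [abs_nonneg (LinearMap.det adjL)]
  refine ⟨(LinearMap.continuous_of_finiteDimensional adjL).measurable, ?_⟩
  have := Measure.map_linearMap_addHaar_eq_smul_addHaar (volume : Measure V4) h3
  rw [abs_inv, h4, inv_one, ENNReal.ofReal_one, one_smul] at this
  exact this

lemma dt_rmul (A : G2) (M : V4) : dt (rmul A M) = dt M := by
  have h := det_eq A
  simp only [dt, rmul_apply]
  linear_combination (M 0 0 * M 1 1 - M 0 1 * M 1 0) * h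

lemma dt_adj (M : V4) : dt (adj M) = dt M := by
  simp [dt, adj]; ring

lemma prj_rmul (A : G2) {M : V4} (h : 0 < dt M) : prj (rmul A M) = prj M * A := by
  have h' : 0 < dt (rmul A M) := by rw [dt_rmul]; exact h
  apply ext4 <;> simp only [prj_apply h', prj_apply h, mul_00, mul_01, mul_10, mul_11, dt_rmul,
    rmul_apply] <;> ring

lemma prj_adj {M : V4} (h : 0 < dt M) : prj (adj M) = (prj M)⁻¹ := by
  have h' : 0 < dt (adj M) := by rw [dt_adj]; exact h
  apply ext4 <;> simp only [prj_apply h', prj_apply h, inv_00, inv_01, inv_10, inv_11, dt_adj] <;>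
    simp [adj, neg_div]

section Meas
variable [MeasurableSpace G2] [BorelSpace G2]

/-- The model Haar measure. -/
noncomputable def m0 : Measure G2 := Measure.map prj (volume.restrict cone)

omit [MeasurableSpace G2] [BorelSpace G2] in
lemma mp_restrict {f : V4 → V4} (hf : MeasurePreserving f volume volume)
    (hdt : ∀ M, dt (f M) = dt M) :
    MeasurePreserving f (volume.restrict cone) (volume.restrict cone) := by
  have : f ⁻¹' cone = cone := by
    ext M; simp [cone, hdt]
  have h := hf.restrict_preimage measurableSet_cone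
  rwa [this] at h

lemma map_m0 {f : V4 → V4} (hf : MeasurePreserving f volume volume)
    (hdt : ∀ M, dt (f M) = dt M) {φ : G2 → G2} (hφ : Measurable φ)
    (h : ∀ M, 0 < dt M → prj (f M) = φ (prj M)) : Measure.map φ m0 = m0 := by
  unfold m0
  rw [Measure.map_map hφ measurable_prj]
  have h1 : Measure.map (φ ∘ prj) (volume.restrict cone)
      = Measure.map (prj ∘ f) (volume.restrict cone) := by
    apply Measure.map_congr
    filter_upwards [ae_restrict_mem measurableSet_cone] with M hM
    exact (h M hM.1).symm
  rw [h1, ← Measure.map_map measurable_prj hf.measurable, (mp_restrict hf hdt).map_eq]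

instance m0_right : (m0 : Measure G2).IsMulRightInvariant := ⟨fun A =>
  map_m0 (mp_rmul A) (dt_rmul A) (measurable_mul_const A) fun _ hM => prj_rmul A hM⟩

lemma m0_inv : Measure.map (fun g : G2 => g⁻¹) m0 = m0 :=
  map_m0 mp_adj dt_adj measurable_inv fun _ hM => prj_adj hM

instance m0_isInv : (m0 : Measure G2).IsInvInvariant := ⟨m0_inv⟩

instance m0_left : (m0 : Measure G2).IsMulLeftInvariant := by
  refine ⟨fun A => ?_⟩
  have h : (fun g : G2 => A * g) = (fun g => g⁻¹) ∘ (fun g => g * A⁻¹) ∘ (fun g => g⁻¹) := by
    funext g; simp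
  rw [h, ← Measure.map_map measurable_inv ((measurable_mul_const _).comp measurable_inv),
    ← Measure.map_map (measurable_mul_const _) measurable_inv, m0_inv,
    Measure.IsMulRightInvariant.map_mul_right_eq_self, m0_inv]

end Meas

end Pool.Agent.Helper37.Ball
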