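import Mathlib
import Pool.Agent.Helper37.Ball.Haar
set_option autoImplicit false
open MeasureTheory Filter Topology
open scoped ENNReal NNReal
namespace Pool.Agent.Helper37.Ball

/-- The ball of height `z`. -/
def B (z : ℝ) : Set G2 := {g | u g < z}

lemma isOpen_B (z : ℝ) : IsOpen (B z) := isOpen_lt continuous_u continuous_const

/-- complex coordinates on the space of matrices -/
noncomputable def WL : (ℂ × ℂ) ≃ₗ[ℝ] V4 where
  toFun p := ![![p.1.re + p.2.re, p.2.im - p.1.im], ![p.1.im + p.2.im, p.1.re - p.2.re]]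
  map_add' p q := by
    ext i j; fin_cases i <;> fin_cases j <;> simp <;> ring
  map_smul' c p := by
    ext i j; fin_cases i <;> fin_cases j <;> simp <;> ring
  invFun M := (⟨(M 0 0 + M 1 1) / 2, (M 1 0 - M 0 1) / 2⟩, ⟨(M 0 0 - M 1 1) / 2, (M 0 1 + M 1 0) / 2⟩)
  left_inv p := by
    apply Prod.ext
    · apply Complex.ext <;> simp <;> ring
    · apply Complex.ext <;> simp <;> ring
  right_inv M := by
    ext i j; fin_cases i <;> fin_cases j <;> simp <;> ring

lemma WL_dt (p : ℂ × ℂ) : dt (WL p) = ‖p.1‖ ^ 2 - ‖p.2‖ ^ 2 := by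
  rw [← Complex.normSq_eq_norm_sq, ← Complex.normSq_eq_norm_sq, Complex.normSq_apply,
    Complex.normSq_apply]
  simp [dt, WL]; ring

/-- sum of squares -/
def ssq (M : V4) : ℝ := (M 0 0) ^ 2 + (M 0 1) ^ 2 + (M 1 0) ^ 2 + (M 1 1) ^ 2

lemma WL_ssq (p : ℂ × ℂ) : ssq (WL p) = 2 * (‖p.1‖ ^ 2 + ‖p.2‖ ^ 2) := by
  rw [← Complex.normSq_eq_norm_sq, ← Complex.normSq_eq_norm_sq, Complex.normSq_apply,
    Complex.normSq_apply]
  simp [ssq, WL]; ring

lemma u_prj {M : V4} (h : 0 < dt M) : u (prj M) = ssq M / (2 * dt M) := by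
  simp only [u, prj_apply h, div_pow, Real.sq_sqrt h.le, ssq]
  field_simp

lemma exists_vol_eq : ∃ c : ℝ≥0∞, c ≠ 0 ∧ c ≠ ∞ ∧ ∀ E : Set V4, MeasurableSet E →
    (volume : Measure V4) E = c * (volume : Measure (ℂ × ℂ)) (WL ⁻¹' E) := by
  set W : (ℂ × ℂ) ≃L[ℝ] V4 := WL.toContinuousLinearEquiv with hW
  have h0 : (volume : Measure (ℂ × ℂ)).IsAddHaarMeasure :=
    inferInstanceAs (((volume : Measure ℂ).prod (volume : Measure ℂ)).IsAddHaarMeasure)
  have hV0 : (volume : Measure (Fin 2 → ℝ)).IsAddHaarMeasure := inferInstance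
  have hV : (volume : Measure V4).IsAddHaarMeasure :=
    Measure.pi.isAddHaarMeasure (fun _ : Fin 2 => (volume : Measure (Fin 2 → ℝ)))
  have h1 : (Measure.map W (volume : Measure (ℂ × ℂ))).IsAddHaarMeasure :=
    ContinuousLinearEquiv.isAddHaarMeasure_map W _
  have h2 := Measure.isAddLeftInvariant_eq_smul (volume : Measure V4)
    (Measure.map W (volume : Measure (ℂ × ℂ)))
  have h3 : 0 < Measure.addHaarScalarFactor (volume : Measure V4)
    (Measure.map W (volume : Measure (ℂ × ℂ))) :=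
    Measure.addHaarScalarFactor_pos_of_isAddHaarMeasure _ _
  refine ⟨(Measure.addHaarScalarFactor (volume : Measure V4)
    (Measure.map W (volume : Measure (ℂ × ℂ))) : ℝ≥0∞), ENNReal.coe_ne_zero.mpr h3.ne',
    ENNReal.coe_ne_top, fun E hE => ?_⟩
  conv_lhs => rw [h2]
  rw [Measure.smul_apply, Measure.map_apply W.continuous.measurable hE]
  rfl

/-- the truncated paraboloid profile -/
noncomputable def prof (w : ℂ) : ℝ≥0∞ := ENNReal.ofReal (Real.pi * (1 - ‖w‖ ^ 2))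

lemma measurable_prof : Measurable prof := by
  unfold prof; fun_prop

lemma prof_pos : (∫⁻ w, prof w) ≠ 0 := by
  intro h
  rw [lintegral_eq_zero_iff measurable_prof] at h
  have h1 : (volume : Measure ℂ) (Metric.ball 0 1) = 0 := by
    refine measure_mono_null ?_ h
    intro w hw
    have : ‖w‖ < 1 := by simpa using hw
    simp only [Set.mem_compl_iff, Set.mem_ofPred_eq, prof, Pi.zero_apply, ENNReal.ofReal_eq_zero, not_le]
    have : ‖w‖ ^ 2 < 1 := by nlinarith [norm_nonneg w]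
    have := Real.pi_pos
    nlinarith
  exact (Metric.measure_ball_pos volume (0 : ℂ) one_pos).ne' h1

lemma prof_lt_top : (∫⁻ w, prof w) ≠ ∞ := by
  have h1 : ∀ w, prof w ≤ (Metric.closedBall (0 : ℂ) 1).indicator (fun _ => ENNReal.ofReal Real.pi) w := by
    intro w
    by_cases hw : w ∈ Metric.closedBall (0 : ℂ) 1
    · rw [Set.indicator_of_mem hw]
      apply ENNReal.ofReal_le_ofReal
      have := Real.pi_pos
      nlinarith [sq_nonneg ‖w‖]
    · rw [Set.indicator_of_notMem hw]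
      have : 1 < ‖w‖ := by simpa using hw
      simp only [prof, nonpos_iff_eq_zero, ENNReal.ofReal_eq_zero]
      have h2 : 1 - ‖w‖ ^ 2 ≤ 0 := by nlinarith
      exact mul_nonpos_of_nonneg_of_nonpos Real.pi_pos.le h2
  refine ne_top_of_le_ne_top ?_ (lintegral_mono h1)
  rw [lintegral_indicator Metric.isClosed_closedBall.measurableSet, setLIntegral_const]
  exact ENNReal.mul_ne_top ENNReal.ofReal_ne_top measure_closedBall_lt_top.ne

lemma prof_scale {r : ℝ} (hr : 0 < r) : ∫⁻ w, prof ((r : ℝ) • w) = ENNReal.ofReal ((r ^ 2)⁻¹) * ∫⁻ w, prof w := by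
  have h := Measure.map_addHaar_smul (volume : Measure ℂ) hr.ne'
  rw [Complex.finrank_real_complex] at h
  have h2 : ∫⁻ w, prof w ∂(Measure.map (fun w : ℂ => r • w) volume) = ∫⁻ w, prof (r • w) :=
    lintegral_map measurable_prof (measurable_const_smul r)
  rw [← h2]
  erw [h]
  rw [lintegral_smul_measure, abs_of_nonneg (by positivity)]
  rfl

lemma vol_annulus (α β : ℝ) (hα : 0 ≤ α) (hβ : 0 ≤ β) :
    (volume : Measure ℂ) {z | α < ‖z‖ ^ 2 ∧ ‖z‖ ^ 2 ≤ β} = ENNReal.ofReal (Real.pi * (β - α)) := by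
  by_cases h : α ≤ β
  · have h1 : {z : ℂ | α < ‖z‖ ^ 2 ∧ ‖z‖ ^ 2 ≤ β} =
        Metric.closedBall 0 (√β) \ Metric.closedBall 0 (√α) := by
      ext z
      simp only [Set.mem_ofPred_eq, Set.mem_sdiff, Metric.mem_closedBall, dist_zero_right, not_le]
      rw [Real.le_sqrt (norm_nonneg _) hβ, Real.sqrt_lt hα (norm_nonneg _), and_comm]
    rw [h1, measure_sdiff (Metric.closedBall_subset_closedBall (Real.sqrt_le_sqrt h))
      Metric.isClosed_closedBall.measurableSet.nullMeasurableSet measure_closedBall_lt_top.ne,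
      Complex.volume_closedBall, Complex.volume_closedBall, ← ENNReal.ofReal_pow (Real.sqrt_nonneg _),
      ← ENNReal.ofReal_pow (Real.sqrt_nonneg _), Real.sq_sqrt hβ, Real.sq_sqrt hα]
    have hpi : (NNReal.pi : ℝ≥0∞) = ENNReal.ofReal Real.pi := by
      rw [ENNReal.ofReal, Real.toNNReal_of_nonneg Real.pi_pos.le]; rfl
    rw [hpi, ← ENNReal.ofReal_mul hβ, ← ENNReal.ofReal_mul hα,
      ← ENNReal.ofReal_sub _ (mul_nonneg hα Real.pi_pos.le)]
    congr 1; ring
  · have h1 : {z : ℂ | α < ‖z‖ ^ 2 ∧ ‖z‖ ^ 2 ≤ β} = ∅ := by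
      ext z
      simp only [Set.mem_ofPred_eq, Set.mem_empty_iff_false, iff_false, not_and, not_le]
      intro h2
      linarith
    rw [h1, measure_empty, eq_comm, ENNReal.ofReal_eq_zero]
    exact mul_nonpos_of_nonneg_of_nonpos Real.pi_pos.le (by linarith)

section Meas
variable [MeasurableSpace G2] [BorelSpace G2]

lemma measurableSet_B (z : ℝ) : MeasurableSet (B z) := (isOpen_B z).measurableSet

omit [MeasurableSpace G2] [BorelSpace G2] in
lemma B_eq_empty {z : ℝ} (hz : z ≤ 1) : B z = ∅ := by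
  ext g
  simp only [B, Set.mem_ofPred_eq, Set.mem_empty_iff_false, iff_false, not_lt]
  exact hz.trans (one_le_u g)

lemma exists_m0_B : ∃ c : ℝ≥0∞, c ≠ 0 ∧ c ≠ ∞ ∧ ∀ z : ℝ,
    (m0 : Measure G2) (B z) = c * ENNReal.ofReal (z - 1) := by
  obtain ⟨c, hc0, hct, hc⟩ := exists_vol_eq
  refine ⟨c * (∫⁻ w, prof w) * ENNReal.ofReal (1 / 2), ?_, ?_, fun z => ?_⟩
  · refine mul_ne_zero (mul_ne_zero hc0 prof_pos) ?_
    simp
  · exact ENNReal.mul_ne_top (ENNReal.mul_ne_top hct prof_lt_top) ENNReal.ofReal_ne_top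
  by_cases hz : z ≤ 1
  · rw [B_eq_empty hz, measure_empty, ENNReal.ofReal_of_nonpos (p := z - 1) (by linarith), mul_zero]
  push Not at hz
  have hz1 : 0 < z - 1 := by linarith
  have hz2 : 0 < z + 1 := by linarith
  have e1 : (m0 : Measure G2) (B z) = volume {M : V4 | M ∈ cone ∧ ssq M < z * (2 * dt M)} := by
    unfold m0
    rw [Measure.map_apply measurable_prj (measurableSet_B z),
      Measure.restrict_apply (measurable_prj (measurableSet_B z))]
    congr 1
    ext M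
    simp only [Set.mem_inter_iff, Set.mem_preimage, B, Set.mem_ofPred_eq]
    constructor
    · rintro ⟨h1, h2⟩
      refine ⟨h2, ?_⟩
      rw [u_prj h2.1, div_lt_iff₀ (by linarith [h2.1])] at h1
      exact h1
    · rintro ⟨h1, h2⟩
      refine ⟨?_, h1⟩
      rw [u_prj h1.1, div_lt_iff₀ (by linarith [h1.1])]
      exact h2
  have hms : MeasurableSet {M : V4 | M ∈ cone ∧ ssq M < z * (2 * dt M)} := by
    refine measurableSet_cone.inter ?_
    have := continuous_dt.measurable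
    refine measurableSet_lt ?_ (measurable_const.mul (measurable_const.mul this))
    unfold ssq; fun_prop
  rw [e1, hc _ hms]
  set E : Set (ℂ × ℂ) := {p | ‖p.2‖ ^ 2 * ((z + 1) / (z - 1)) < ‖p.1‖ ^ 2 ∧ ‖p.1‖ ^ 2 ≤ 1 + ‖p.2‖ ^ 2} with hE
  have e2 : WL ⁻¹' {M : V4 | M ∈ cone ∧ ssq M < z * (2 * dt M)} = E := by
    ext p
    simp only [Set.mem_preimage, cone, Set.mem_ofPred_eq, WL_dt, WL_ssq, hE]
    have key : ‖p.2‖ ^ 2 * ((z + 1) / (z - 1)) < ‖p.1‖ ^ 2 ↔
        2 * (‖p.1‖ ^ 2 + ‖p.2‖ ^ 2) < z * (2 * (‖p.1‖ ^ 2 - ‖p.2‖ ^ 2)) := by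
      rw [← mul_div_assoc, div_lt_iff₀ hz1]
      constructor <;> intro h <;> nlinarith
    rw [key]
    constructor
    · rintro ⟨⟨h1, h2⟩, h3⟩
      exact ⟨h3, by linarith⟩
    · rintro ⟨h3, h2⟩
      refine ⟨⟨?_, by linarith⟩, h3⟩
      by_contra hneg
      push Not at hneg
      nlinarith [sq_nonneg ‖p.1‖, sq_nonneg ‖p.2‖]
  rw [e2]
  have hEm : MeasurableSet E := by
    have a1 : MeasurableSet {p : ℂ × ℂ | ‖p.2‖ ^ 2 * ((z + 1) / (z - 1)) < ‖p.1‖ ^ 2} := by
      refine measurableSet_lt ?_ ?_ <;> fun_prop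
    have a2 : MeasurableSet {p : ℂ × ℂ | ‖p.1‖ ^ 2 ≤ 1 + ‖p.2‖ ^ 2} := by
      refine measurableSet_le ?_ ?_ <;> fun_prop
    exact a1.inter a2
  have e3 : (volume : Measure (ℂ × ℂ)) E = ∫⁻ w : ℂ, (volume : Measure ℂ) ((fun x => (x, w)) ⁻¹' E) :=
    Measure.prod_apply_symm hEm
  have e4 : ∀ w : ℂ, (volume : Measure ℂ) ((fun x => (x, w)) ⁻¹' E) = prof ((√(2 / (z - 1)) : ℝ) • w) := by
    intro w
    have : (fun x : ℂ => (x, w)) ⁻¹' E = {x : ℂ | ‖w‖ ^ 2 * ((z + 1) / (z - 1)) < ‖x‖ ^ 2 ∧ ‖x‖ ^ 2 ≤ 1 + ‖w‖ ^ 2} := rfl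
    rw [this, vol_annulus _ _ (by positivity) (by positivity), prof, norm_smul, mul_pow,
      Real.norm_of_nonneg (Real.sqrt_nonneg _), Real.sq_sqrt (by positivity)]
    congr 2
    field_simp
    ring
  rw [e3]
  simp_rw [e4]
  rw [prof_scale (Real.sqrt_pos.mpr (by positivity)), Real.sq_sqrt (by positivity)]
  rw [show ((2 : ℝ) / (z - 1))⁻¹ = 1 / 2 * (z - 1) by field_simp, ENNReal.ofReal_mul (by norm_num)]
  ring

end Meas

end Pool.Agent.Helper37.Ball
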