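import Mathlib
import Pool.Agent.Helper37.Ball.Volume
set_option autoImplicit false
open MeasureTheory Filter Topology
open scoped ENNReal NNReal
namespace Pool.Agent.Helper37.Ball

section Meas
variable [MeasurableSpace G2] [BorelSpace G2]

instance m0_fin : IsFiniteMeasureOnCompacts (m0 : Measure G2) := by
  refine ⟨fun K hK => ?_⟩
  obtain ⟨c, hc⟩ := exists_u_bound hK
  obtain ⟨b, hb0, hbt, hb⟩ := exists_m0_B
  refine lt_of_le_of_lt (measure_mono (t := B (c + 1)) ?_) ?_
  · intro g hg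
    have := hc g hg
    show u g < c + 1
    linarith
  · rw [hb]
    exact ENNReal.mul_lt_top hbt.lt_top ENNReal.ofReal_lt_top

/-- All the facts about Haar measure on `SL(2, ℝ)` which are used. -/
theorem haar_facts (m : Measure G2) (hm : m.IsHaarMeasure) :
    m.IsMulRightInvariant ∧ m.IsInvInvariant ∧
      ∃ c : ℝ≥0∞, c ≠ 0 ∧ c ≠ ∞ ∧ ∀ z : ℝ, m (B z) = c * ENNReal.ofReal (z - 1) := by
  obtain ⟨b, hb0, hbt, hb⟩ := exists_m0_B
  have h := Measure.isMulLeftInvariant_eq_smul (m0 : Measure G2) m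
  set s := Measure.haarScalarFactor (m0 : Measure G2) m with hs
  have hs0 : s ≠ 0 := by
    intro h0
    have h1 := hb 2
    rw [h, h0, zero_smul] at h1
    simp only [Measure.coe_zero, Pi.zero_apply] at h1
    have h2 : b * ENNReal.ofReal (2 - 1) ≠ 0 := mul_ne_zero hb0 (by norm_num)
    exact h2 h1.symm
  have h' : m = s⁻¹ • (m0 : Measure G2) := by
    rw [h, smul_smul, inv_mul_cancel₀ hs0, one_smul]
  have hr : m.IsMulRightInvariant := by
    rw [h']; infer_instance
  have hi : m.IsInvInvariant := by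
    rw [h']
    refine ⟨?_⟩
    rw [Measure.inv, Measure.map_smul]
    congr 1
    exact m0_inv
  refine ⟨hr, hi, ((s⁻¹ : ℝ≥0) : ℝ≥0∞) * b, ?_, ?_, fun z => ?_⟩
  · exact mul_ne_zero (ENNReal.coe_ne_zero.mpr (inv_ne_zero hs0)) hb0
  · exact ENNReal.mul_ne_top ENNReal.coe_ne_top hbt
  · rw [h', Measure.smul_apply, hb, mul_assoc]
    rfl

end Meas

end Pool.Agent.Helper37.Ball
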