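import Mathlib
import Pool.Agent.Helper37.Ball.HaarFacts
set_option autoImplicit false
open MeasureTheory Filter Topology
open scoped ENNReal NNReal
namespace Pool.Agent.Helper37.Ball

/-- rotation by `2πθ` -/
noncomputable def kr (θ : UnitAddCircle) : G2 := rot (AddCircle.toCircle θ)

lemma kr_add (θ φ : UnitAddCircle) : kr (θ + φ) = kr θ * kr φ := by
  rw [kr, AddCircle.toCircle_add, rot_mul]; rfl

lemma kr_zero : kr 0 = 1 := by
  rw [kr, AddCircle.toCircle_zero, rot_one]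

lemma kr_neg (θ : UnitAddCircle) : kr (-θ) = (kr θ)⁻¹ := by
  rw [kr, AddCircle.toCircle_neg, rot_inv]; rfl

lemma continuous_kr : Continuous kr := continuous_rot.comp AddCircle.continuous_toCircle

lemma exists_kr (z : Circle) : ∃ θ, kr θ = rot z := by
  refine ⟨(AddCircle.homeomorphCircle (T := 1) one_ne_zero).symm z, ?_⟩
  rw [kr, ← AddCircle.homeomorphCircle_apply one_ne_zero, Homeomorph.apply_symm_apply]

lemma cartan' (g : G2) : ∃ θ φ : UnitAddCircle, ∃ t : ℝ, 0 ≤ t ∧ g = kr θ * dg t * kr φ := by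
  obtain ⟨z, w, t, ht, h⟩ := cartan g
  obtain ⟨θ, hθ⟩ := exists_kr z
  obtain ⟨φ, hφ⟩ := exists_kr w
  exact ⟨θ, φ, t, ht, by rw [hθ, hφ]; exact h⟩

lemma kr_re (x : ℝ) : ((AddCircle.toCircle (x : UnitAddCircle) : Circle) : ℂ).re = Real.cos (2 * Real.pi * x) := by
  rw [AddCircle.toCircle_apply_mk, div_one, Circle.coe_exp, Complex.exp_ofReal_mul_I_re]

lemma kr_im (x : ℝ) : ((AddCircle.toCircle (x : UnitAddCircle) : Circle) : ℂ).im = Real.sin (2 * Real.pi * x) := by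
  rw [AddCircle.toCircle_apply_mk, div_one, Circle.coe_exp, Complex.exp_ofReal_mul_I_im]

lemma u_kr_mul (θ : UnitAddCircle) (g : G2) : u (kr θ * g) = u g := u_rot_mul _ _
lemma u_mul_kr (θ : UnitAddCircle) (g : G2) : u (g * kr θ) = u g := u_mul_rot _ _

/-- the group elements `a^s n_ξ` -/
noncomputable def al (s : ℕ) (ξ : ℝ) : G2 := dg (s * Real.log 2) * nn ξ

lemma exp_slog (s : ℕ) : Real.exp (s * Real.log 2) = 2 ^ s := by
  rw [Real.exp_nat_mul, Real.exp_log (by norm_num)]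

/-- the explicit formula for `u (g (a^s n_ξ)⁻¹)`. -/
lemma u_al_inv (s : ℕ) (ξ : ℝ) (g : G2) :
    2 * u (g * (al s ξ)⁻¹) = ((g 0 0) ^ 2 + (g 1 0) ^ 2) / 2 ^ s +
      2 ^ s * ((g 0 1 - g 0 0 * ξ) ^ 2 + (g 1 1 - g 1 0 * ξ) ^ 2) := by
  have e1 : Real.exp (-(s * Real.log 2) / 2) ^ 2 = 1 / 2 ^ s := by
    rw [exp_half_sq, Real.exp_neg, exp_slog, one_div]
  have e2 : Real.exp ((s * Real.log 2) / 2) ^ 2 = 2 ^ s := by
    rw [exp_half_sq, exp_slog]
  have h : g * (al s ξ)⁻¹ = g * nn (-ξ) * dg (-(s * Real.log 2)) := by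
    rw [al, mul_inv_rev, ← nn_neg, ← dg_neg]; group
  rw [h]
  simp only [u, mul_00, mul_01, mul_10, mul_11, nn_00, nn_01, nn_10, nn_11, dg_00, dg_01, dg_10,
    dg_11, mul_zero, add_zero, zero_add, mul_one, mul_pow, neg_neg, e1, e2]
  ring

lemma u_al_le (s : ℕ) {ξ : ℝ} (h0 : 0 ≤ ξ) (h2 : ξ ≤ 2) : u (al s ξ) ≤ 3 * 2 ^ s := by
  have h := u_al_inv s ξ 1
  rw [one_mul, u_inv] at h
  simp only [one_00, one_01, one_10, one_11] at h
  have hs : (1 : ℝ) ≤ 2 ^ s := one_le_pow₀ (by norm_num)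
  have h3 : ((1 : ℝ) ^ 2 + 0 ^ 2) / 2 ^ s ≤ 1 := by
    rw [div_le_one (by positivity)]; linarith
  have h4 : ξ ^ 2 ≤ 4 := by nlinarith
  have h5 : (2 : ℝ) ^ s * ((0 - 1 * ξ) ^ 2 + (1 - 0 * ξ) ^ 2) ≤ 2 ^ s * 5 :=
    mul_le_mul_of_nonneg_left (by nlinarith) (by positivity)
  linarith

/-- the section of the kernel is contained in a short interval -/
lemma sect_subset (s : ℕ) (g : G2) :
    {ξ : ℝ | u (g * (al s ξ)⁻¹) < 16} ⊆
      Set.Ioo ((g 0 0 * g 0 1 + g 1 0 * g 1 1) / ((g 0 0) ^ 2 + (g 1 0) ^ 2) - 32 / 2 ^ s)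
        ((g 0 0 * g 0 1 + g 1 0 * g 1 1) / ((g 0 0) ^ 2 + (g 1 0) ^ 2) + 32 / 2 ^ s) := by
  intro ξ hξ
  have hξ' : u (g * (al s ξ)⁻¹) < 16 := hξ
  have h := u_al_inv s ξ g
  have hdet := det_eq g
  set a := g 0 0
  set b := g 0 1
  set c := g 1 0
  set d := g 1 1
  set T : ℝ := 2 ^ s with hT
  have hTpos : 0 < T := by positivity
  set p := a ^ 2 + c ^ 2 with hp
  have hppos : 0 < p := by
    by_contra hneg
    have h1 : a = 0 := by nlinarith [sq_nonneg a, sq_nonneg c]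
    have h2 : c = 0 := by nlinarith [sq_nonneg a, sq_nonneg c]
    rw [h1, h2] at hdet
    norm_num at hdet
  set q := a * b + c * d with hq
  have key : p * ((b - a * ξ) ^ 2 + (d - c * ξ) ^ 2) = (p * ξ - q) ^ 2 + 1 := by
    have : (p * ξ - q) ^ 2 + (a * d - b * c) ^ 2 = p * ((b - a * ξ) ^ 2 + (d - c * ξ) ^ 2) := by
      rw [hp, hq]; ring
    rw [hdet] at this
    linarith
  have h3 : T * ((b - a * ξ) ^ 2 + (d - c * ξ) ^ 2) < 32 := by
    have : 0 ≤ p / T := by positivity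
    linarith
  have h4 : T * ((p * ξ - q) ^ 2 + 1) < 32 * p := by
    rw [← key]
    nlinarith
  have h5 : T < 32 * p := by nlinarith [mul_nonneg hTpos.le (sq_nonneg (p * ξ - q))]
  have h6 : T * (p * ξ - q) ^ 2 < 32 * p := by nlinarith
  have h7 : (T * (ξ - q / p)) ^ 2 < 32 ^ 2 := by
    have e : p * ξ - q = p * (ξ - q / p) := by field_simp
    rw [e] at h6
    have h8 : T * p * (ξ - q / p) ^ 2 < 32 := by
      have : p * (T * p * (ξ - q / p) ^ 2) < p * 32 := by nlinarith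
      exact lt_of_mul_lt_mul_left this hppos.le
    nlinarith [mul_nonneg hTpos.le (sq_nonneg (ξ - q / p))]
  have h8 := abs_lt_of_sq_lt_sq' h7 (by norm_num)
  constructor
  · rw [sub_lt_iff_lt_add, ← sub_lt_iff_lt_add', div_eq_mul_inv]
    have : -32 < T * (ξ - q / p) := h8.1
    rw [← div_eq_mul_inv, lt_div_iff₀ hTpos]
    linarith
  · rw [← sub_lt_iff_lt_add', lt_div_iff₀ hTpos]
    linarith [h8.2]

/-- kernel indicator -/
noncomputable def kin (s : ℕ) (g : G2) (ξ : ℝ) : ℝ≥0∞ := (B 16).indicator 1 (g * (al s ξ)⁻¹)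

lemma kin_eq (s : ℕ) (g : G2) (ξ : ℝ) : kin s g ξ = (B 16).indicator 1 (g * (al s ξ)⁻¹) := rfl

lemma kin_of_lt {s : ℕ} {g : G2} {ξ : ℝ} (h : u (g * (al s ξ)⁻¹) < 16) : kin s g ξ = 1 :=
  Set.indicator_of_mem (s := B 16) h 1

lemma kin_of_not_lt {s : ℕ} {g : G2} {ξ : ℝ} (h : ¬ u (g * (al s ξ)⁻¹) < 16) : kin s g ξ = 0 :=
  Set.indicator_of_notMem (s := B 16) h 1

/-- kernel density -/
noncomputable def rho (s : ℕ) (g : G2) : ℝ≥0∞ :=
  ∫⁻ ξ in Set.Ico (0 : ℝ) 2, kin s g ξ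

lemma rho_eq (s : ℕ) (g : G2) : rho s g = ∫⁻ ξ in Set.Ico (0 : ℝ) 2, kin s g ξ := rfl

lemma rho_le (s : ℕ) (g : G2) : rho s g ≤ (B (6 * 2 ^ (s + 4))).indicator (fun _ => ENNReal.ofReal (64 / 2 ^ s)) g := by
  by_cases hg : g ∈ B (6 * 2 ^ (s + 4))
  · rw [Set.indicator_of_mem hg]
    set S : Set ℝ := {ξ : ℝ | u (g * (al s ξ)⁻¹) < 16} with hS
    have h1 : rho s g ≤ ∫⁻ ξ : ℝ, S.indicator 1 ξ := by
      refine (setLIntegral_le_lintegral _ _).trans (lintegral_mono fun ξ => ?_)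
      by_cases h : u (g * (al s ξ)⁻¹) < 16
      · have h2 : ξ ∈ S := h
        rw [kin_of_lt h, Set.indicator_of_mem h2]
        exact le_rfl
      · rw [kin_of_not_lt h]
        exact bot_le
    refine h1.trans ?_
    have h2 : ∫⁻ ξ : ℝ, S.indicator 1 ξ ≤ ∫⁻ ξ : ℝ, (Set.Ioo ((g 0 0 * g 0 1 + g 1 0 * g 1 1) / ((g 0 0) ^ 2 + (g 1 0) ^ 2) - 32 / 2 ^ s)
        ((g 0 0 * g 0 1 + g 1 0 * g 1 1) / ((g 0 0) ^ 2 + (g 1 0) ^ 2) + 32 / 2 ^ s)).indicator 1 ξ :=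
      lintegral_mono (Set.indicator_le_indicator_of_subset (sect_subset s g) (fun _ => bot_le))
    refine h2.trans ?_
    rw [lintegral_indicator_one measurableSet_Ioo, Real.volume_Ioo]
    apply ENNReal.ofReal_le_ofReal
    apply le_of_eq
    ring
  · rw [Set.indicator_of_notMem hg]
    unfold rho
    rw [nonpos_iff_eq_zero]
    refine (setLIntegral_congr_fun measurableSet_Ico ?_).trans (lintegral_zero)
    intro ξ hξ
    apply kin_of_not_lt
    intro h1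
    apply hg
    have h2 := u_mul_le (g * (al s ξ)⁻¹) (al s ξ)
    rw [inv_mul_cancel_right] at h2
    have h3 := u_al_le s hξ.1 hξ.2.le
    have h4 := u_pos (al s ξ)
    have hs : (0 : ℝ) < 2 ^ s := by positivity
    show u g < 6 * 2 ^ (s + 4)
    rw [pow_add]
    calc u g ≤ 2 * u (g * (al s ξ)⁻¹) * u (al s ξ) := h2
      _ < 2 * 16 * u (al s ξ) := by nlinarith
      _ ≤ 2 * 16 * (3 * 2 ^ s) := by nlinarith
      _ = 6 * (2 ^ s * 2 ^ 4) := by ring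

lemma sect_aux {T E E' c s ξ τ : ℝ} (hT : 0 < T) (hE : E ≤ 12 * T) (hE' : E' * (3 * T) ≤ 1)
    (hEE : E' ≤ E) (hE0 : 0 ≤ E) (hE0' : 0 ≤ E') (hcs : s ^ 2 + c ^ 2 = 1) (hc : 0 ≤ c) (hc1 : c ≤ 1)
    (hs0 : s ≤ 0) (hs1 : -1 ≤ s) (hξ1 : 0 ≤ ξ - τ) (hξ2 : ξ - τ ≤ 1 / T) (hξ0 : 0 ≤ ξ) (hξ3 : ξ ≤ 2) :
    (E * c ^ 2 + E' * s ^ 2) / T + T * (E * (c * (ξ - τ)) ^ 2 + E' * (c - s * ξ) ^ 2) ≤ 27 := by
  have b1 : (E * c ^ 2 + E' * s ^ 2) / T ≤ 12 := by
    rw [div_le_iff₀ hT]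
    have : E' * s ^ 2 ≤ E * s ^ 2 := mul_le_mul_of_nonneg_right hEE (sq_nonneg s)
    calc E * c ^ 2 + E' * s ^ 2 ≤ E * (s ^ 2 + c ^ 2) := by linarith
      _ = E := by rw [hcs, mul_one]
      _ ≤ 12 * T := hE
  have b2 : T * (E * (c * (ξ - τ)) ^ 2) ≤ 12 := by
    have c1 : 0 ≤ c * (ξ - τ) := mul_nonneg hc hξ1
    have c2 : c * (ξ - τ) ≤ 1 / T := by
      calc c * (ξ - τ) ≤ 1 * (ξ - τ) := mul_le_mul_of_nonneg_right hc1 hξ1
        _ ≤ 1 / T := by linarith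
    have c3 : T * (c * (ξ - τ)) ≤ 1 := by
      calc T * (c * (ξ - τ)) ≤ T * (1 / T) := mul_le_mul_of_nonneg_left c2 hT.le
        _ = 1 := by field_simp
    have c4 : 0 ≤ T * (c * (ξ - τ)) := mul_nonneg hT.le c1
    have c5 : (T * (c * (ξ - τ))) ^ 2 ≤ 1 := by nlinarith
    have c6 : T * (E * (c * (ξ - τ)) ^ 2) = (E / T) * (T * (c * (ξ - τ))) ^ 2 := by field_simp
    rw [c6]
    have c7 : E / T ≤ 12 := by rw [div_le_iff₀ hT]; linarith
    have c8 : 0 ≤ E / T := div_nonneg hE0 hT.le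
    calc (E / T) * (T * (c * (ξ - τ))) ^ 2 ≤ 12 * 1 :=
          mul_le_mul c7 c5 (sq_nonneg _) (by norm_num)
      _ = 12 := by norm_num
  have b3 : T * (E' * (c - s * ξ) ^ 2) ≤ 3 := by
    have c0 : 0 ≤ -s * ξ := mul_nonneg (by linarith) hξ0
    have c0' : -s * ξ ≤ 1 * 2 := mul_le_mul (by linarith) hξ3 hξ0 (by norm_num)
    have c1 : 0 ≤ c - s * ξ := by linarith
    have c2 : c - s * ξ ≤ 3 := by linarith
    have c3 : (c - s * ξ) ^ 2 ≤ 9 := by nlinarith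
    have c4 : 0 ≤ E' * T := mul_nonneg hE0' hT.le
    calc T * (E' * (c - s * ξ) ^ 2) = (E' * T) * (c - s * ξ) ^ 2 := by ring
      _ ≤ (E' * T) * 9 := mul_le_mul_of_nonneg_left c3 c4
      _ ≤ 3 := by linarith
  rw [mul_add]
  linarith

/-- the explicit lower bound for the section -/
lemma sect_lower (r : ℕ) (t : ℝ) (h1 : 3 * 2 ^ r ≤ Real.cosh t) (h2 : Real.cosh t < 6 * 2 ^ r)
    (ht : 0 ≤ t) (x : ℝ) (hx : x ∈ Set.Ioc (-1 / 8 : ℝ) 0) :
    ENNReal.ofReal (1 / 2 ^ r) ≤ rho r (dg t * kr (x : UnitAddCircle)) := by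
  set θ := 2 * Real.pi * x with hθ
  have hpi := Real.pi_pos
  have hθ1 : -(Real.pi / 4) ≤ θ := by rw [hθ]; nlinarith [hx.1]
  have hθ0 : θ ≤ 0 := by rw [hθ]; nlinarith [hx.2]
  have hcos : 0 < Real.cos θ := Real.cos_pos_of_mem_Ioo ⟨by linarith, by linarith⟩
  have hcos1 : Real.cos θ ≤ 1 := Real.cos_le_one θ
  have hsin0 : Real.sin θ ≤ 0 := Real.sin_nonpos_of_nonpos_of_neg_pi_le hθ0 (by linarith)
  have hsc : -Real.sin θ ≤ Real.cos θ := by
    rw [← Real.sin_neg, ← Real.cos_neg, ← Real.sin_pi_div_two_sub]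
    exact Real.sin_le_sin_of_le_of_le_pi_div_two (by linarith) (by linarith) (by linarith)
  set T : ℝ := 2 ^ r with hT
  have hTone : 1 ≤ T := one_le_pow₀ (by norm_num)
  have hTpos : 0 < T := by linarith
  set τ := -Real.sin θ / Real.cos θ with hτ
  have hτ0 : 0 ≤ τ := div_nonneg (by linarith) hcos.le
  have hτ1 : τ ≤ 1 := by rw [hτ, div_le_one hcos]; exact hsc
  have hsinτ : Real.sin θ = -τ * Real.cos θ := by rw [hτ]; field_simp
  have hexp1 : Real.exp t < 12 * T := by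
    have : Real.exp t ≤ 2 * Real.cosh t := by
      rw [Real.cosh_eq]; linarith [Real.exp_pos (-t)]
    linarith
  have hexp2 : 3 * T ≤ Real.exp t := by
    have : Real.cosh t ≤ Real.exp t := by
      rw [← Real.cosh_add_sinh]; linarith [Real.sinh_nonneg_iff.mpr ht]
    linarith
  have hexp3 : Real.exp (-t) * (3 * T) ≤ 1 := by
    calc Real.exp (-t) * (3 * T) ≤ Real.exp (-t) * Real.exp t :=
          mul_le_mul_of_nonneg_left hexp2 (Real.exp_pos _).le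
      _ = 1 := by rw [← Real.exp_add]; simp
  have hsub : Set.Ico τ (τ + 1 / T) ⊆ {ξ : ℝ | ξ ∈ Set.Ico (0 : ℝ) 2 ∧ u (dg t * kr (x : UnitAddCircle) * (al r ξ)⁻¹) < 16} := by
    intro ξ hξ
    have hξ1 : 0 ≤ ξ - τ := by linarith [hξ.1]
    have hξ2 : ξ - τ < 1 / T := by linarith [hξ.2]
    have hT1 : 1 / T ≤ 1 := by rw [div_le_one hTpos]; exact hTone
    have hξ3 : ξ < 2 := by linarith
    have hξ0 : 0 ≤ ξ := by linarith
    refine ⟨⟨hξ0, hξ3⟩, ?_⟩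
    have h := u_al_inv r ξ (dg t * kr (x : UnitAddCircle))
    have e1 : (dg t * kr (x : UnitAddCircle)) 0 0 = Real.exp (t / 2) * Real.cos θ := by
      simp [kr, kr_re, hθ]
    have e2 : (dg t * kr (x : UnitAddCircle)) 0 1 = -(Real.exp (t / 2) * Real.sin θ) := by
      simp [kr, kr_im, hθ]
    have e3 : (dg t * kr (x : UnitAddCircle)) 1 0 = Real.exp (-t / 2) * Real.sin θ := by
      simp [kr, kr_im, hθ]
    have e4 : (dg t * kr (x : UnitAddCircle)) 1 1 = Real.exp (-t / 2) * Real.cos θ := by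
      simp [kr, kr_re, hθ]
    rw [e1, e2, e3, e4] at h
    have e5 : (Real.exp (t / 2) * Real.cos θ) ^ 2 + (Real.exp (-t / 2) * Real.sin θ) ^ 2
        = Real.exp t * Real.cos θ ^ 2 + Real.exp (-t) * Real.sin θ ^ 2 := by
      rw [mul_pow, mul_pow, exp_half_sq, exp_half_sq]
    have e6 : (-(Real.exp (t / 2) * Real.sin θ) - Real.exp (t / 2) * Real.cos θ * ξ) ^ 2
        = Real.exp t * (Real.cos θ * (ξ - τ)) ^ 2 := by
      have : (-(Real.exp (t / 2) * Real.sin θ) - Real.exp (t / 2) * Real.cos θ * ξ) ^ 2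
        = Real.exp (t / 2) ^ 2 * (Real.sin θ + Real.cos θ * ξ) ^ 2 := by ring
      rw [this, exp_half_sq, hsinτ]; ring
    have e7 : (Real.exp (-t / 2) * Real.cos θ - Real.exp (-t / 2) * Real.sin θ * ξ) ^ 2
        = Real.exp (-t) * (Real.cos θ - Real.sin θ * ξ) ^ 2 := by
      have : (Real.exp (-t / 2) * Real.cos θ - Real.exp (-t / 2) * Real.sin θ * ξ) ^ 2
        = Real.exp (-t / 2) ^ 2 * (Real.cos θ - Real.sin θ * ξ) ^ 2 := by ring
      rw [this, exp_half_sq]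
    rw [e5, e6, e7] at h
    have : 2 * u (dg t * kr (x : UnitAddCircle) * (al r ξ)⁻¹) ≤ 27 := by
      rw [h]
      exact sect_aux hTpos hexp1.le hexp3 (Real.exp_le_exp.mpr (by linarith)) (Real.exp_pos _).le
        (Real.exp_pos _).le (Real.sin_sq_add_cos_sq θ) hcos.le hcos1 hsin0 (Real.neg_one_le_sin θ)
        hξ1 hξ2.le hξ0 hξ3.le
    linarith
  have hm : (volume : Measure ℝ) (Set.Ico τ (τ + 1 / T)) = ENNReal.ofReal (1 / T) := by
    rw [Real.volume_Ico]; congr 1; ring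
  rw [← hm, ← lintegral_indicator_one measurableSet_Ico]
  unfold rho
  rw [← lintegral_indicator measurableSet_Ico]
  apply lintegral_mono
  intro ξ
  by_cases h : ξ ∈ Set.Ico τ (τ + 1 / T)
  · have h3 := hsub h
    rw [Set.indicator_of_mem h, Set.indicator_of_mem h3.1, kin_of_lt h3.2]
    exact le_rfl
  · rw [Set.indicator_of_notMem h]
    exact bot_le

lemma rho_kr_mul (r : ℕ) (θ : UnitAddCircle) (g : G2) : rho r (kr θ * g) = rho r g := by
  unfold rho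
  congr 1
  funext ξ
  have : u (kr θ * g * (al r ξ)⁻¹) < 16 ↔ u (g * (al r ξ)⁻¹) < 16 := by
    rw [mul_assoc, u_kr_mul]
  by_cases h : u (g * (al r ξ)⁻¹) < 16
  · rw [kin_of_lt h, kin_of_lt (this.mpr h)]
  · rw [kin_of_not_lt h, kin_of_not_lt (fun h' => h (this.mp h'))]

lemma rho_avg (r : ℕ) (g : G2) (h1 : 3 * 2 ^ r ≤ u g) (h2 : u g < 6 * 2 ^ r) :
    ENNReal.ofReal (1 / 2 ^ r) * ENNReal.ofReal (1 / 8) ≤ ∫⁻ θ : UnitAddCircle, rho r (g * kr θ) := by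
  obtain ⟨θ₀, φ, t, ht, rfl⟩ := cartan' g
  rw [u_mul_kr, u_kr_mul, u_dg] at h1 h2
  have e1 : ∀ θ : UnitAddCircle, rho r (kr θ₀ * dg t * kr φ * kr θ) = rho r (dg t * kr (φ + θ)) := by
    intro θ
    rw [show kr θ₀ * dg t * kr φ * kr θ = kr θ₀ * (dg t * (kr φ * kr θ)) by group, rho_kr_mul, kr_add]
  simp_rw [e1]
  rw [lintegral_add_left_eq_self (fun θ => rho r (dg t * kr θ)) φ,
    ← UnitAddCircle.lintegral_preimage (-1 / 8)]
  have hm : (volume : Measure ℝ) (Set.Ioc (-1 / 8 : ℝ) 0) = ENNReal.ofReal (1 / 8) := by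
    rw [Real.volume_Ioc]; norm_num
  rw [← hm, ← setLIntegral_const]
  refine (setLIntegral_mono' measurableSet_Ioc fun x hx => sect_lower r t h1 h2 ht x hx).trans ?_
  apply lintegral_mono_set
  intro x hx
  exact ⟨hx.1, by linarith [hx.2]⟩

attribute [irreducible] kin rho

end Pool.Agent.Helper37.Ball
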