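import Mathlib
import Pool.Agent.Helper37.Ball.Kernel
set_option autoImplicit false
set_option linter.unusedSectionVars false
open MeasureTheory Filter Topology
open scoped ENNReal NNReal
namespace Pool.Agent.Helper37.Ball

variable [MeasurableSpace G2] [BorelSpace G2] {X : Type} [MeasurableSpace X] [MulAction G2 X]
  [MeasurableSMul₂ G2 X]

/-- unnormalised ball averages of nonnegative functions -/
noncomputable def ML (m : Measure G2) (z : ℝ) (Ψ : X → ℝ≥0∞) (x : X) : ℝ≥0∞ :=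
  ∫⁻ g in B z, Ψ (g • x) ∂m

/-- the averages along the horocyclic direction -/
noncomputable def UL (m : Measure G2) (s : ℕ) (Ψ : X → ℝ≥0∞) (y : X) : ℝ≥0∞ :=
  ∫⁻ g in B 16, ∫⁻ ξ in Set.Ico (0 : ℝ) 2, Ψ ((g * al s ξ) • y) ∂volume ∂m

lemma measurable_smul_swap {Ψ : X → ℝ≥0∞} (hΨ : Measurable Ψ) :
    Measurable fun p : X × G2 => Ψ (p.2 • p.1) :=
  hΨ.comp (measurable_snd.smul measurable_fst)

lemma measurable_smul_left {Ψ : X → ℝ≥0∞} (hΨ : Measurable Ψ) (y : X) :
    Measurable fun g : G2 => Ψ (g • y) :=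
  hΨ.comp (measurable_id.smul measurable_const)

lemma measurable_ML (m : Measure G2) [SFinite m] (z : ℝ) {Ψ : X → ℝ≥0∞} (hΨ : Measurable Ψ) :
    Measurable (ML m z Ψ) :=
  Measurable.lintegral_prod_right' (measurable_smul_swap hΨ)

lemma ML_mono_z (m : Measure G2) {z w : ℝ} (h : z ≤ w) (Ψ : X → ℝ≥0∞) (x : X) :
    ML m z Ψ x ≤ ML m w Ψ x :=
  lintegral_mono_set fun _ hg => lt_of_lt_of_le hg h

lemma continuous_al (s : ℕ) : Continuous (al s) := continuous_const.mul continuous_nn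

section
variable (m : Measure G2) [SFinite m] [m.IsMulRightInvariant]

lemma measurable_kin (s : ℕ) : Measurable (Function.uncurry (kin s)) := by
  have h : Continuous fun p : G2 × ℝ => p.1 * (al s p.2)⁻¹ :=
    continuous_fst.mul ((continuous_al s).comp continuous_snd).inv
  have h2 := ((measurable_one (α := ℝ≥0∞)).indicator (measurableSet_B 16)).comp h.measurable
  have h3 : Function.uncurry (kin s) =
      (B 16).indicator (1 : G2 → ℝ≥0∞) ∘ fun p : G2 × ℝ => p.1 * (al s p.2)⁻¹ := by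
    funext p
    simp only [Function.uncurry, Function.comp, kin_eq]
  rw [h3]
  exact h2

lemma measurable_rho (s : ℕ) : Measurable (rho s) := by
  have h : rho s = fun g => ∫⁻ ξ in Set.Ico (0 : ℝ) 2, Function.uncurry (kin s) (g, ξ) := by
    funext g; exact rho_eq s g
  rw [h]
  exact Measurable.lintegral_prod_right' (measurable_kin s)

omit [m.IsMulRightInvariant] in
lemma UL_swap (s : ℕ) {Ψ : X → ℝ≥0∞} (hΨ : Measurable Ψ) (y : X) :
    UL m s Ψ y = ∫⁻ ξ in Set.Ico (0 : ℝ) 2, ∫⁻ g in B 16, Ψ ((g * al s ξ) • y) ∂m := by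
  have hcont : Continuous fun p : G2 × ℝ => p.1 * al s p.2 :=
    continuous_fst.mul ((continuous_al s).comp continuous_snd)
  exact lintegral_lintegral_swap (μ := m.restrict (B 16))
    (ν := (volume : Measure ℝ).restrict (Set.Ico (0 : ℝ) 2))
    (f := fun g ξ => Ψ ((g * al s ξ) • y))
    ((measurable_smul_left hΨ y).comp hcont.measurable).aemeasurable

omit [SFinite m] in
lemma UL_trans (s : ℕ) (Ψ : X → ℝ≥0∞) (y : X) (ξ : ℝ) :
    ∫⁻ g in B 16, Ψ ((g * al s ξ) • y) ∂m = ∫⁻ g, kin s g ξ * Ψ (g • y) ∂m := by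
  have h := lintegral_mul_right_eq_self (μ := m) (fun g => kin s g ξ * Ψ (g • y)) (al s ξ)
  rw [← lintegral_indicator (measurableSet_B 16), ← h]
  apply lintegral_congr
  intro g
  by_cases hg : g ∈ B 16
  · rw [Set.indicator_of_mem hg, kin_of_lt, one_mul]
    rw [mul_inv_cancel_right]; exact hg
  · rw [Set.indicator_of_notMem hg, kin_of_not_lt, zero_mul]
    rw [mul_inv_cancel_right]; exact hg

omit [SFinite m] [m.IsMulRightInvariant] in
lemma measurable_kin_swap (s : ℕ) : Measurable (fun p : ℝ × G2 => kin s p.2 p.1) :=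
  (measurable_kin s).comp measurable_swap

omit [m.IsMulRightInvariant] in
lemma UL_swap2 (s : ℕ) {Ψ : X → ℝ≥0∞} (hΨ : Measurable Ψ) (y : X) :
    ∫⁻ ξ in Set.Ico (0 : ℝ) 2, ∫⁻ g, kin s g ξ * Ψ (g • y) ∂m =
      ∫⁻ g, rho s g * Ψ (g • y) ∂m := by
  have hmeas : Measurable (fun p : ℝ × G2 => kin s p.2 p.1 * Ψ (p.2 • y)) :=
    (measurable_kin_swap s).mul ((measurable_smul_left hΨ y).comp measurable_snd)
  have h1 := lintegral_lintegral_swap (ν := m)
    (μ := (volume : Measure ℝ).restrict (Set.Ico (0 : ℝ) 2))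
    (f := fun ξ g => kin s g ξ * Ψ (g • y)) hmeas.aemeasurable
  rw [h1]
  apply lintegral_congr
  intro g
  have hg : Measurable (kin s g) := (measurable_kin s).of_uncurry_left
  rw [rho_eq]
  exact lintegral_mul_const _ hg

lemma UL_eq (s : ℕ) {Ψ : X → ℝ≥0∞} (hΨ : Measurable Ψ) (y : X) :
    UL m s Ψ y = ∫⁻ g, rho s g * Ψ (g • y) ∂m := by
  rw [UL_swap m s hΨ y, ← UL_swap2 m s hΨ y]
  exact lintegral_congr fun ξ => UL_trans m s Ψ y ξ

lemma measurable_UL (s : ℕ) {Ψ : X → ℝ≥0∞} (hΨ : Measurable Ψ) : Measurable (UL m s Ψ) := by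
  have h : UL m s Ψ = fun y => ∫⁻ g, rho s g * Ψ (g • y) ∂m := by
    funext y; exact UL_eq m s hΨ y
  rw [h]
  exact Measurable.lintegral_prod_right'
    (((measurable_rho s).comp measurable_snd).mul (measurable_smul_swap hΨ))

/-- normalised averages at scale `2^r` -/
noncomputable def Mn (m : Measure G2) (r : ℕ) (Ψ : X → ℝ≥0∞) (x : X) : ℝ≥0∞ :=
  ENNReal.ofReal (1 / 2 ^ r) * ML m (6 * 2 ^ r) Ψ x

omit [m.IsMulRightInvariant] in
lemma measurable_Mn (r : ℕ) {Ψ : X → ℝ≥0∞} (hΨ : Measurable Ψ) : Measurable (Mn m r Ψ) :=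
  (measurable_ML m _ hΨ).const_mul _

lemma UL_le (s : ℕ) {Ψ : X → ℝ≥0∞} (hΨ : Measurable Ψ) (y : X) :
    UL m s Ψ y ≤ 1024 * Mn m (s + 4) Ψ y := by
  rw [UL_eq m s hΨ]
  calc ∫⁻ g, rho s g * Ψ (g • y) ∂m
      ≤ ∫⁻ g, (B (6 * 2 ^ (s + 4))).indicator (fun g => ENNReal.ofReal (64 / 2 ^ s) * Ψ (g • y)) g ∂m := by
        apply lintegral_mono
        intro g
        refine (mul_le_mul_left (rho_le s g) _).trans ?_
        by_cases hg : g ∈ B (6 * 2 ^ (s + 4))
        · rw [Set.indicator_of_mem hg, Set.indicator_of_mem hg]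
        · rw [Set.indicator_of_notMem hg, Set.indicator_of_notMem hg, zero_mul]
    _ = ENNReal.ofReal (64 / 2 ^ s) * ML m (6 * 2 ^ (s + 4)) Ψ y := by
        rw [lintegral_indicator (measurableSet_B _), lintegral_const_mul _ (measurable_smul_left hΨ y)]
        rfl
    _ = 1024 * Mn m (s + 4) Ψ y := by
        unfold Mn
        rw [← mul_assoc]
        congr 1
        rw [show (1024 : ℝ≥0∞) = ENNReal.ofReal 1024 by norm_num, ← ENNReal.ofReal_mul (by norm_num)]
        congr 1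
        rw [pow_add]
        field_simp
        norm_num

/-- moving the base point -/
lemma ML_shift {z c : ℝ} (hz : 0 ≤ z) (h : G2) (hc : 2 * u h ≤ c) (Ψ : X → ℝ≥0∞) (y : X) :
    ML m z Ψ y ≤ ML m (c * z) Ψ (h • y) := by
  unfold ML
  rw [← lintegral_indicator (measurableSet_B _), ← lintegral_indicator (measurableSet_B _),
    ← lintegral_mul_right_eq_self (μ := m) _ h]
  apply lintegral_mono
  intro g
  change (B z).indicator (fun g => Ψ (g • y)) (g * h) ≤ _
  by_cases hg : g * h ∈ B z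
  · have h1 : g ∈ B (c * z) := by
      have h2 : u (g * h) < z := hg
      have h3 := u_mul_le (g * h) h⁻¹
      rw [mul_inv_cancel_right, u_inv] at h3
      show u g < c * z
      have h4 := u_pos h
      calc u g ≤ 2 * u (g * h) * u h := h3
        _ < 2 * z * u h := by nlinarith
        _ = (2 * u h) * z := by ring
        _ ≤ c * z := mul_le_mul_of_nonneg_right hc hz
    rw [Set.indicator_of_mem hg, Set.indicator_of_mem h1, mul_smul]
  · rw [Set.indicator_of_notMem hg]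
    exact bot_le

lemma Mn_shift (j : ℕ) (h : G2) (hc : u h ≤ 128) (Ψ : X → ℝ≥0∞) (y : X) :
    Mn m j Ψ y ≤ 256 * Mn m (j + 8) Ψ (h • y) := by
  unfold Mn
  have h1 := ML_shift m (z := 6 * 2 ^ j) (c := 256) (by positivity) h (by linarith) Ψ y
  have h2 : (256 : ℝ) * (6 * 2 ^ j) = 6 * 2 ^ (j + 8) := by rw [pow_add]; ring
  rw [h2] at h1
  have h3 : ENNReal.ofReal (1 / 2 ^ j) = 256 * ENNReal.ofReal (1 / 2 ^ (j + 8)) := by
    rw [show (256 : ℝ≥0∞) = ENNReal.ofReal 256 by norm_num, ← ENNReal.ofReal_mul (by norm_num)]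
    congr 1
    rw [pow_add]
    field_simp
    norm_num
  rw [h3, mul_assoc]
  gcongr

end

/-- the two-point Markov operator -/
noncomputable def Qop (Ψ : X → ℝ≥0∞) (y : X) : ℝ≥0∞ :=
  2⁻¹ * (Ψ (dg (Real.log 2) • y) + Ψ ((dg (Real.log 2) * nn 1) • y))

lemma al_mul_dg (s : ℕ) (ξ : ℝ) : al s ξ * dg (Real.log 2) = al (s + 1) (ξ / 2) := by
  have h := nn_mul_dg (Real.log 2) (ξ / 2)
  rw [Real.exp_log (by norm_num), mul_div_cancel₀ _ (by norm_num)] at h
  unfold al
  rw [mul_assoc, h, ← mul_assoc, ← dg_add]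
  congr 2
  push_cast
  ring

lemma al_mul_dg_nn (s : ℕ) (ξ : ℝ) : al s ξ * (dg (Real.log 2) * nn 1) = al (s + 1) (ξ / 2 + 1) := by
  rw [← mul_assoc, al_mul_dg]
  unfold al
  rw [nn_add, mul_assoc]

lemma lintegral_half (F : ℝ → ℝ≥0∞) (hF : Measurable F) : ∫⁻ x, F (x / 2) = 2 * ∫⁻ x, F x := by
  have h := Real.map_volume_mul_right (a := (1 / 2 : ℝ)) (by norm_num)
  have h2 : ∫⁻ x, F x ∂(Measure.map (fun x : ℝ => x * (1 / 2)) volume) = ∫⁻ x, F (x * (1 / 2)) :=
    lintegral_map hF (measurable_mul_const _)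
  have h3 : ∀ x : ℝ, F (x / 2) = F (x * (1 / 2)) := fun x => by rw [div_eq_mul_one_div]
  simp_rw [h3]
  rw [← h2, h, lintegral_smul_measure]
  norm_num

lemma lintegral_half1 (F : ℝ → ℝ≥0∞) (hF : Measurable F) :
    ∫⁻ x in Set.Ico (0 : ℝ) 2, F (x / 2) = 2 * ∫⁻ x in Set.Ico (0 : ℝ) 1, F x := by
  rw [← lintegral_indicator measurableSet_Ico, ← lintegral_indicator measurableSet_Ico,
    ← lintegral_half _ (hF.indicator measurableSet_Ico)]
  apply lintegral_congr
  intro x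
  by_cases h : x ∈ Set.Ico (0 : ℝ) 2
  · have h1 : x / 2 ∈ Set.Ico (0 : ℝ) 1 := ⟨by linarith [h.1], by linarith [h.2]⟩
    rw [Set.indicator_of_mem h, Set.indicator_of_mem h1]
  · have h1 : x / 2 ∉ Set.Ico (0 : ℝ) 1 := fun h' => h ⟨by linarith [h'.1], by linarith [h'.2]⟩
    rw [Set.indicator_of_notMem h, Set.indicator_of_notMem h1]

lemma lintegral_half2 (F : ℝ → ℝ≥0∞) (hF : Measurable F) :
    ∫⁻ x in Set.Ico (0 : ℝ) 2, F (x / 2 + 1) = 2 * ∫⁻ x in Set.Ico (1 : ℝ) 2, F x := by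
  rw [lintegral_half1 (fun x => F (x + 1)) (hF.comp (measurable_add_const _))]
  congr 1
  rw [← lintegral_indicator measurableSet_Ico, ← lintegral_indicator measurableSet_Ico]
  refine Eq.trans ?_ (lintegral_add_right_eq_self (μ := (volume : Measure ℝ))
    ((Set.Ico (1 : ℝ) 2).indicator F) (1 : ℝ))
  apply lintegral_congr
  intro x
  by_cases h : x ∈ Set.Ico (0 : ℝ) 1
  · have h1 : x + 1 ∈ Set.Ico (1 : ℝ) 2 := ⟨by linarith [h.1], by linarith [h.2]⟩
    rw [Set.indicator_of_mem h, Set.indicator_of_mem h1]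
  · have h1 : x + 1 ∉ Set.Ico (1 : ℝ) 2 := fun h' => h ⟨by linarith [h'.1], by linarith [h'.2]⟩
    rw [Set.indicator_of_notMem h, Set.indicator_of_notMem h1]

lemma Qop_UL (m : Measure G2) [SFinite m] (s : ℕ) {Ψ : X → ℝ≥0∞} (hΨ : Measurable Ψ) (y : X) :
    Qop (UL m s Ψ) y = UL m (s + 1) Ψ y := by
  have hm : ∀ g : G2, Measurable fun ξ : ℝ => Ψ ((g * al (s + 1) ξ) • y) := fun g =>
    (measurable_smul_left hΨ y).comp ((continuous_const.mul (continuous_al (s + 1))).measurable)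
  have h1 : UL m s Ψ (dg (Real.log 2) • y) =
      ∫⁻ g in B 16, 2 * ∫⁻ ξ in Set.Ico (0 : ℝ) 1, Ψ ((g * al (s + 1) ξ) • y) ∂volume ∂m := by
    unfold UL
    apply lintegral_congr
    intro g
    rw [← lintegral_half1 _ (hm g)]
    apply lintegral_congr
    intro ξ
    rw [smul_smul, mul_assoc, al_mul_dg]
  have h2 : UL m s Ψ ((dg (Real.log 2) * nn 1) • y) =
      ∫⁻ g in B 16, 2 * ∫⁻ ξ in Set.Ico (1 : ℝ) 2, Ψ ((g * al (s + 1) ξ) • y) ∂volume ∂m := by
    unfold UL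
    apply lintegral_congr
    intro g
    rw [← lintegral_half2 _ (hm g)]
    apply lintegral_congr
    intro ξ
    rw [smul_smul, mul_assoc, al_mul_dg_nn]
  unfold Qop
  rw [h1, h2]
  have hmm : Measurable fun p : G2 × ℝ => Ψ ((p.1 * al (s + 1) p.2) • y) :=
    (measurable_smul_left hΨ y).comp
      (continuous_fst.mul ((continuous_al (s + 1)).comp continuous_snd)).measurable
  have hmA : ∀ S : Set ℝ, Measurable fun g : G2 => 2 * ∫⁻ ξ in S, Ψ ((g * al (s + 1) ξ) • y) := fun S =>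
    (Measurable.lintegral_prod_right' hmm).const_mul _
  have hmB : Measurable fun g : G2 => (2 * ∫⁻ ξ in Set.Ico (0 : ℝ) 1, Ψ ((g * al (s + 1) ξ) • y))
      + 2 * ∫⁻ ξ in Set.Ico (1 : ℝ) 2, Ψ ((g * al (s + 1) ξ) • y) := (hmA _).add (hmA _)
  rw [← lintegral_add_left (hmA _), ← lintegral_const_mul _ hmB]
  unfold UL
  apply lintegral_congr
  intro g
  have hu : Set.Ico (0 : ℝ) 2 = Set.Ico (0 : ℝ) 1 ∪ Set.Ico (1 : ℝ) 2 := by
    rw [Set.Ico_union_Ico_eq_Ico] <;> norm_num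
  rw [hu, lintegral_union measurableSet_Ico, ← mul_add, ← mul_assoc, ENNReal.inv_mul_cancel (by norm_num) (by norm_num), one_mul]
  exact Set.Ico_disjoint_Ico_same

end Pool.Agent.Helper37.Ball
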