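import Mathlib
import Pool.Agent.Helper37.Ball.Ops
set_option autoImplicit false
set_option linter.unusedSectionVars false
open MeasureTheory Filter Topology
open scoped ENNReal NNReal
namespace Pool.Agent.Helper37.Ball

variable [MeasurableSpace G2] [BorelSpace G2] {X : Type} [MeasurableSpace X] [MulAction G2 X]
  [MeasurableSMul₂ G2 X]
variable (m : Measure G2) [SFinite m] [m.IsMulRightInvariant] [m.IsInvInvariant]
variable (μ : Measure X) [SFinite μ] [SMulInvariantMeasure G2 X μ]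

omit [MeasurableSpace G2] [BorelSpace G2] [MeasurableSpace X] [MulAction G2 X]
  [MeasurableSMul₂ G2 X] in
lemma mmul {α : Type*} [MeasurableSpace α] {f g : α → ℝ≥0∞} (hf : Measurable f)
    (hg : Measurable g) : Measurable fun a => f a * g a := hf.mul hg

omit [MeasurableSpace G2] [BorelSpace G2] [MeasurableSpace X] [MulAction G2 X]
  [MeasurableSMul₂ G2 X] in
lemma mcomp {α β γ : Type*} [MeasurableSpace α] [MeasurableSpace β] [MeasurableSpace γ]
    {f : β → γ} {g : α → β} (hf : Measurable f) (hg : Measurable g) :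
    Measurable fun a => f (g a) := hf.comp hg

/-- duality for the action of one element -/
lemma lintegral_smul_dual (g : G2) {f Ψ : X → ℝ≥0∞} (hf : Measurable f) (hΨ : Measurable Ψ) :
    ∫⁻ x, f x * Ψ (g • x) ∂μ = ∫⁻ x, f (g⁻¹ • x) * Ψ x ∂μ := by
  have hmp := measurePreserving_smul g μ
  have h2 : Measurable fun x => f (g⁻¹ • x) * Ψ x :=
    (hf.comp (measurable_const_smul g⁻¹)).mul hΨ
  rw [← hmp.lintegral_comp h2]
  apply lintegral_congr
  intro x
  rw [inv_smul_smul]

lemma lintegral_smul_eq (g : G2) {f : X → ℝ≥0∞} (hf : Measurable f) :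
    ∫⁻ x, f (g • x) ∂μ = ∫⁻ x, f x ∂μ :=
  (measurePreserving_smul g μ).lintegral_comp hf

/-- the duality for kernels invariant under inversion -/
lemma kernel_dual {k : G2 → ℝ≥0∞} (hk : Measurable k) (hki : ∀ g, k g⁻¹ = k g)
    {f Ψ : X → ℝ≥0∞} (hf : Measurable f) (hΨ : Measurable Ψ) :
    ∫⁻ x, f x * ∫⁻ g, k g * Ψ (g • x) ∂m ∂μ = ∫⁻ x, (∫⁻ g, k g * f (g • x) ∂m) * Ψ x ∂μ := by
  have e1 : ∀ x, f x * ∫⁻ g, k g * Ψ (g • x) ∂m = ∫⁻ g, k g * (f x * Ψ (g • x)) ∂m := by
    intro x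
    rw [← lintegral_const_mul _ (mmul hk (measurable_smul_left hΨ x))]
    apply lintegral_congr
    intro g; ring
  have e2 : ∀ x, (∫⁻ g, k g * f (g • x) ∂m) * Ψ x = ∫⁻ g, k g * (f (g⁻¹ • x) * Ψ x) ∂m := by
    intro x
    rw [← lintegral_mul_const _ (mmul hk (measurable_smul_left hf x)), ← lintegral_inv_eq_self]
    apply lintegral_congr
    intro g
    rw [hki]; ring
  simp_rw [e1, e2]
  have hm1 : Measurable fun p : X × G2 => k p.2 * (f p.1 * Ψ (p.2 • p.1)) :=
    (hk.comp measurable_snd).mul ((hf.comp measurable_fst).mul (measurable_smul_swap hΨ))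
  have hm2 : Measurable fun p : X × G2 => k p.2 * (f (p.2⁻¹ • p.1) * Ψ p.1) :=
    (hk.comp measurable_snd).mul ((hf.comp (measurable_snd.inv.smul measurable_fst)).mul
      (hΨ.comp measurable_fst))
  rw [lintegral_lintegral_swap (f := fun x g => k g * (f x * Ψ (g • x))) hm1.aemeasurable,
    lintegral_lintegral_swap (f := fun x g => k g * (f (g⁻¹ • x) * Ψ x)) hm2.aemeasurable]
  apply lintegral_congr
  intro g
  rw [lintegral_const_mul _ (mmul hf (mcomp hΨ (measurable_const_smul g))),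
    lintegral_const_mul _ (mmul (mcomp hf (measurable_const_smul g⁻¹)) hΨ),
    lintegral_smul_dual μ g hf hΨ]

lemma ML_eq (z : ℝ) (Ψ : X → ℝ≥0∞) (x : X) :
    ML m z Ψ x = ∫⁻ g, (B z).indicator 1 g * Ψ (g • x) ∂m := by
  unfold ML
  rw [← lintegral_indicator (measurableSet_B z)]
  apply lintegral_congr
  intro g
  by_cases hg : g ∈ B z
  · rw [Set.indicator_of_mem hg, Set.indicator_of_mem hg, Pi.one_apply, one_mul]
  · rw [Set.indicator_of_notMem hg, Set.indicator_of_notMem hg, zero_mul]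

lemma B_ind_inv (z : ℝ) (g : G2) : (B z).indicator (1 : G2 → ℝ≥0∞) g⁻¹ = (B z).indicator 1 g := by
  by_cases hg : g ∈ B z
  · have : g⁻¹ ∈ B z := by show u g⁻¹ < z; rw [u_inv]; exact hg
    rw [Set.indicator_of_mem hg, Set.indicator_of_mem this]; rfl
  · have : g⁻¹ ∉ B z := by show ¬ u g⁻¹ < z; rw [u_inv]; exact hg
    rw [Set.indicator_of_notMem hg, Set.indicator_of_notMem this]

lemma ML_symm (z : ℝ) {f Ψ : X → ℝ≥0∞} (hf : Measurable f) (hΨ : Measurable Ψ) :
    ∫⁻ x, f x * ML m z Ψ x ∂μ = ∫⁻ x, ML m z f x * Ψ x ∂μ := by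
  simp_rw [ML_eq]
  exact kernel_dual m μ (measurable_one.indicator (measurableSet_B z)) (B_ind_inv z) hf hΨ

lemma Mn_symm (r : ℕ) {f Ψ : X → ℝ≥0∞} (hf : Measurable f) (hΨ : Measurable Ψ) :
    ∫⁻ x, f x * Mn m r Ψ x ∂μ = ∫⁻ x, Mn m r f x * Ψ x ∂μ := by
  unfold Mn
  have e1 : ∀ x, f x * (ENNReal.ofReal (1 / 2 ^ r) * ML m (6 * 2 ^ r) Ψ x) =
    ENNReal.ofReal (1 / 2 ^ r) * (f x * ML m (6 * 2 ^ r) Ψ x) := fun x => by ring
  have e2 : ∀ x, ENNReal.ofReal (1 / 2 ^ r) * ML m (6 * 2 ^ r) f x * Ψ x =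
    ENNReal.ofReal (1 / 2 ^ r) * (ML m (6 * 2 ^ r) f x * Ψ x) := fun x => by ring
  simp_rw [e1, e2]
  rw [lintegral_const_mul _ (mmul hf (measurable_ML m _ hΨ)),
    lintegral_const_mul _ (mmul (measurable_ML m _ hf) hΨ), ML_symm m μ _ hf hΨ]

lemma lintegral_ML (z : ℝ) {f : X → ℝ≥0∞} (hf : Measurable f) :
    ∫⁻ x, ML m z f x ∂μ = m (B z) * ∫⁻ x, f x ∂μ := by
  unfold ML
  rw [lintegral_lintegral_swap (measurable_smul_swap hf).aemeasurable]
  simp_rw [lintegral_smul_eq μ _ hf]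
  rw [setLIntegral_const, mul_comm]

/-- the annulus at scale `2^r` -/
def Ann (r : ℕ) : Set G2 := {g | 3 * 2 ^ r ≤ u g ∧ u g < 6 * 2 ^ r}

lemma measurableSet_Ann (r : ℕ) : MeasurableSet (Ann r) :=
  (isClosed_le continuous_const continuous_u).measurableSet.inter
    (isOpen_lt continuous_u continuous_const).measurableSet

omit [m.IsInvInvariant] in
/-- the horocyclic averages dominate the annular averages after averaging over rotations -/
lemma UL_lower (r : ℕ) {Ψ : X → ℝ≥0∞} (hΨ : Measurable Ψ) (x : X) :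
    ENNReal.ofReal (1 / 2 ^ r) * ENNReal.ofReal (1 / 8) * ∫⁻ g, (Ann r).indicator 1 g * Ψ (g • x) ∂m
      ≤ ∫⁻ θ : UnitAddCircle, UL m r Ψ (kr θ • x) := by
  have e1 : ∀ θ : UnitAddCircle, UL m r Ψ (kr θ • x) = ∫⁻ g, rho r (g * kr (-θ)) * Ψ (g • x) ∂m := by
    intro θ
    rw [UL_eq m r hΨ]
    refine Eq.trans ?_ (lintegral_mul_right_eq_self (μ := m)
      (fun g => rho r (g * kr (-θ)) * Ψ (g • x)) (kr θ))
    apply lintegral_congr
    intro g
    rw [kr_neg, mul_inv_cancel_right, mul_smul]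
  have hmr : Measurable fun p : G2 × UnitAddCircle => rho r (p.1 * kr (-p.2)) := by
    have : Continuous fun p : G2 × UnitAddCircle => p.1 * kr (-p.2) :=
      continuous_fst.mul (continuous_kr.comp continuous_snd.neg)
    exact (measurable_rho r).comp this.measurable
  have hmr' : Measurable fun p : UnitAddCircle × G2 => rho r (p.2 * kr (-p.1)) * Ψ (p.2 • x) :=
    (hmr.comp measurable_swap).mul ((measurable_smul_left hΨ x).comp measurable_snd)
  simp_rw [e1]
  rw [lintegral_lintegral_swap (f := fun θ g => rho r (g * kr (-θ)) * Ψ (g • x)) hmr'.aemeasurable]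
  rw [← lintegral_const_mul _ (mmul (measurable_one.indicator (measurableSet_Ann r))
    (measurable_smul_left hΨ x))]
  apply lintegral_mono
  intro g
  have hg : Measurable fun θ : UnitAddCircle => rho r (g * kr (-θ)) := by
    have : Continuous fun θ : UnitAddCircle => g * kr (-θ) :=
      continuous_const.mul (continuous_kr.comp continuous_neg)
    exact (measurable_rho r).comp this.measurable
  dsimp only
  rw [lintegral_mul_const _ hg, ← mul_assoc]
  refine mul_le_mul_left ?_ _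
  by_cases h : g ∈ Ann r
  · rw [Set.indicator_of_mem h, Pi.one_apply, mul_one]
    refine (rho_avg r g h.1 h.2).trans ?_
    rw [← lintegral_neg_eq_self]
  · rw [Set.indicator_of_notMem h, mul_zero]
    exact bot_le

end Pool.Agent.Helper37.Ball
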