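import Mathlib
import Pool.Agent.Helper37.Ball.Ops2
set_option autoImplicit false
set_option linter.unusedSectionVars false
open MeasureTheory Filter Topology
open scoped ENNReal NNReal
namespace Pool.Agent.Helper37.Ball

/-! ### elementary inequalities in `ℝ≥0∞` -/

lemma sq_add_le (a b : ℝ≥0∞) : (a + b) ^ 2 ≤ 2 * (a ^ 2 + b ^ 2) := by
  rcases le_total a b with h | h
  · obtain ⟨c, rfl⟩ := exists_add_of_le h
    calc (a + (a + c)) ^ 2 = 4 * a ^ 2 + 4 * (a * c) + c ^ 2 := by ring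
      _ ≤ 4 * a ^ 2 + 4 * (a * c) + c ^ 2 + c ^ 2 := le_self_add
      _ = 2 * (a ^ 2 + (a + c) ^ 2) := by ring
  · obtain ⟨c, rfl⟩ := exists_add_of_le h
    calc (b + c + b) ^ 2 = 4 * b ^ 2 + 4 * (b * c) + c ^ 2 := by ring
      _ ≤ 4 * b ^ 2 + 4 * (b * c) + c ^ 2 + c ^ 2 := le_self_add
      _ = 2 * ((b + c) ^ 2 + b ^ 2) := by ring

lemma half_sq_le (a b : ℝ≥0∞) : (2⁻¹ * (a + b)) ^ 2 ≤ 2⁻¹ * (a ^ 2 + b ^ 2) := by
  calc (2⁻¹ * (a + b)) ^ 2 = 2⁻¹ * (2⁻¹ * (a + b) ^ 2) := by ring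
    _ ≤ 2⁻¹ * (2⁻¹ * (2 * (a ^ 2 + b ^ 2))) := by gcongr; exact sq_add_le a b
    _ = 2⁻¹ * ((2⁻¹ * 2) * (a ^ 2 + b ^ 2)) := by ring
    _ = 2⁻¹ * (a ^ 2 + b ^ 2) := by rw [ENNReal.inv_mul_cancel (by norm_num) (by norm_num), one_mul]

/-- Cauchy–Schwarz -/
lemma lintegral_sq_le {α : Type*} [MeasurableSpace α] (ν : Measure α) {T : α → ℝ≥0∞}
    (hT : AEMeasurable T ν) : (∫⁻ x, T x ∂ν) ^ 2 ≤ ν Set.univ * ∫⁻ x, T x ^ 2 ∂ν := by
  have h := ENNReal.lintegral_mul_le_Lp_mul_Lq ν (p := 2) (q := 2) Real.HolderConjugate.two_two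
    (f := fun _ => 1) (g := T) aemeasurable_const hT
  simp only [Pi.mul_apply, one_mul, ENNReal.one_rpow, lintegral_const] at h
  have h2 := pow_le_pow_left' h 2
  refine h2.trans (le_of_eq ?_)
  rw [mul_pow, ← ENNReal.rpow_natCast, ← ENNReal.rpow_natCast, ← ENNReal.rpow_mul, ← ENNReal.rpow_mul]
  norm_num

/-- weighted Cauchy–Schwarz -/
lemma lintegral_mul_sq_le {α : Type*} [MeasurableSpace α] (μ : Measure α) {f T : α → ℝ≥0∞}
    (hf : Measurable f) (hT : Measurable T) :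
    (∫⁻ x, f x * T x ∂μ) ^ 2 ≤ (∫⁻ x, f x ∂μ) * ∫⁻ x, f x * T x ^ 2 ∂μ := by
  have h := lintegral_sq_le (μ.withDensity f) hT.aemeasurable
  rw [lintegral_withDensity_eq_lintegral_mul _ hf hT,
    lintegral_withDensity_eq_lintegral_mul _ hf (hT.pow_const 2),
    withDensity_apply _ MeasurableSet.univ, Measure.restrict_univ] at h
  exact h

variable [MeasurableSpace G2] [BorelSpace G2] {X : Type} [MeasurableSpace X] [MulAction G2 X]
  [MeasurableSMul₂ G2 X]
variable (m : Measure G2) [SFinite m] [m.IsMulRightInvariant] [m.IsInvInvariant]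
variable (μ : Measure X) [SFinite μ] [SMulInvariantMeasure G2 X μ]

/-- annular averages -/
noncomputable def an (r : ℕ) (f : X → ℝ≥0∞) (x : X) : ℝ≥0∞ :=
  ENNReal.ofReal (1 / 2 ^ r) * ∫⁻ g, (Ann r).indicator 1 g * f (g • x) ∂m

lemma Ann_ind_inv (r : ℕ) (g : G2) : (Ann r).indicator (1 : G2 → ℝ≥0∞) g⁻¹ = (Ann r).indicator 1 g := by
  have h : g⁻¹ ∈ Ann r ↔ g ∈ Ann r := by
    show (3 * 2 ^ r ≤ u g⁻¹ ∧ u g⁻¹ < 6 * 2 ^ r) ↔ (3 * 2 ^ r ≤ u g ∧ u g < 6 * 2 ^ r)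
    rw [u_inv]
  by_cases hg : g ∈ Ann r
  · rw [Set.indicator_of_mem hg, Set.indicator_of_mem (h.mpr hg)]; rfl
  · rw [Set.indicator_of_notMem hg, Set.indicator_of_notMem (fun h' => hg (h.mp h'))]

lemma Mn_succ (r : ℕ) (f : X → ℝ≥0∞) (x : X) :
    Mn m (r + 1) f x = an m (r + 1) f x + 2⁻¹ * Mn m r f x := by
  have hB : (B (6 * 2 ^ (r + 1))) = Ann (r + 1) ∪ B (6 * 2 ^ r) := by
    ext g
    show u g < 6 * 2 ^ (r + 1) ↔ (3 * 2 ^ (r + 1) ≤ u g ∧ u g < 6 * 2 ^ (r + 1)) ∨ u g < 6 * 2 ^ r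
    have e : (3 : ℝ) * 2 ^ (r + 1) = 6 * 2 ^ r := by rw [pow_succ]; ring
    have e2 : (6 : ℝ) * 2 ^ r ≤ 6 * 2 ^ (r + 1) := by
      rw [pow_succ]; nlinarith [pow_pos (show (0 : ℝ) < 2 by norm_num) r]
    rw [e]
    constructor
    · intro h
      rcases le_or_gt (6 * 2 ^ r) (u g) with h1 | h1
      · exact Or.inl ⟨h1, h⟩
      · exact Or.inr h1
    · rintro (h | h)
      · exact h.2
      · linarith
  have hd : Disjoint (Ann (r + 1)) (B (6 * 2 ^ r)) := by
    rw [Set.disjoint_left]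
    rintro g ⟨h1, -⟩ h2
    have h2' : u g < 6 * 2 ^ r := h2
    have e : (3 : ℝ) * 2 ^ (r + 1) = 6 * 2 ^ r := by rw [pow_succ]; ring
    linarith
  have e1 : ML m (6 * 2 ^ (r + 1)) f x =
      (∫⁻ g, (Ann (r + 1)).indicator 1 g * f (g • x) ∂m) + ML m (6 * 2 ^ r) f x := by
    have e2 : ∫⁻ g, (Ann (r + 1)).indicator 1 g * f (g • x) ∂m = ∫⁻ g in Ann (r + 1), f (g • x) ∂m := by
      rw [← lintegral_indicator (measurableSet_Ann _)]
      apply lintegral_congr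
      intro g
      by_cases hg : g ∈ Ann (r + 1)
      · rw [Set.indicator_of_mem hg, Set.indicator_of_mem hg, Pi.one_apply, one_mul]
      · rw [Set.indicator_of_notMem hg, Set.indicator_of_notMem hg, zero_mul]
    rw [e2]
    unfold ML
    rw [hB, lintegral_union (measurableSet_B _) hd]
  unfold Mn an
  rw [e1, mul_add]
  congr 1
  rw [← mul_assoc]
  congr 1
  rw [show (2 : ℝ≥0∞)⁻¹ = ENNReal.ofReal (1 / 2) by
    rw [one_div, ENNReal.ofReal_inv_of_pos (by norm_num)]; norm_num, ← ENNReal.ofReal_mul (by norm_num)]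
  congr 1
  rw [pow_succ]
  field_simp

/-- lower bound for the pairing with horocyclic averages -/
lemma pair_lower (r : ℕ) {f Ψ : X → ℝ≥0∞} (hf : Measurable f) (hΨ : Measurable Ψ)
    (hK : ∀ (θ : UnitAddCircle) (x : X), f (kr θ • x) = f x) :
    ENNReal.ofReal (1 / 8) * ∫⁻ x, an m r f x * Ψ x ∂μ ≤ ∫⁻ x, f x * UL m r Ψ x ∂μ := by
  have hU := measurable_UL m r hΨ
  have e1 : ∀ θ : UnitAddCircle, ∫⁻ x, f x * UL m r Ψ (kr θ • x) ∂μ = ∫⁻ x, f x * UL m r Ψ x ∂μ := by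
    intro θ
    rw [← lintegral_smul_eq μ (kr θ) (mmul hf hU)]
    apply lintegral_congr
    intro x
    rw [hK]
  have hjm : Measurable fun p : UnitAddCircle × X => f p.2 * UL m r Ψ (kr p.1 • p.2) :=
    mmul (mcomp hf measurable_snd)
      (mcomp hU ((continuous_kr.measurable.comp measurable_fst).smul measurable_snd))
  have e2 : ∫⁻ x, f x * UL m r Ψ x ∂μ = ∫⁻ x, f x * ∫⁻ θ : UnitAddCircle, UL m r Ψ (kr θ • x) ∂volume ∂μ := by
    have : ∫⁻ x, f x * UL m r Ψ x ∂μ =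
        ∫⁻ θ : UnitAddCircle, ∫⁻ x, f x * UL m r Ψ (kr θ • x) ∂μ := by
      simp_rw [e1]
      simp
    rw [this, lintegral_lintegral_swap (f := fun (θ : UnitAddCircle) x => f x * UL m r Ψ (kr θ • x))
      hjm.aemeasurable]
    apply lintegral_congr
    intro x
    have hx : Measurable fun θ : UnitAddCircle => UL m r Ψ (kr θ • x) :=
      mcomp hU (continuous_kr.measurable.smul measurable_const)
    exact lintegral_const_mul _ hx
  rw [e2]
  have e3 : ∫⁻ x, an m r f x * Ψ x ∂μ =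
      ∫⁻ x, f x * (ENNReal.ofReal (1 / 2 ^ r) * ∫⁻ g, (Ann r).indicator 1 g * Ψ (g • x) ∂m) ∂μ := by
    have h1 := kernel_dual m μ (measurable_one.indicator (measurableSet_Ann r)) (Ann_ind_inv r) hf hΨ
    have hA : ∀ {h : X → ℝ≥0∞}, Measurable h →
        Measurable fun x => ∫⁻ g, (Ann r).indicator 1 g * h (g • x) ∂m := by
      intro h hh
      have : Measurable fun p : X × G2 => (Ann r).indicator (1 : G2 → ℝ≥0∞) p.2 * h (p.2 • p.1) :=
        mmul (mcomp (measurable_one.indicator (measurableSet_Ann r)) measurable_snd)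
          (measurable_smul_swap hh)
      exact Measurable.lintegral_prod_right' this
    have a1 : ∀ x, an m r f x * Ψ x = ENNReal.ofReal (1 / 2 ^ r) *
      ((∫⁻ g, (Ann r).indicator 1 g * f (g • x) ∂m) * Ψ x) := fun x => by
      unfold an; ring
    have a2 : ∀ x, f x * (ENNReal.ofReal (1 / 2 ^ r) * ∫⁻ g, (Ann r).indicator 1 g * Ψ (g • x) ∂m) =
      ENNReal.ofReal (1 / 2 ^ r) * (f x * ∫⁻ g, (Ann r).indicator 1 g * Ψ (g • x) ∂m) :=
      fun x => by ring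
    simp_rw [a1, a2]
    rw [lintegral_const_mul _ (mmul (hA hf) hΨ), lintegral_const_mul _ (mmul hf (hA hΨ)), h1]
  rw [e3, ← lintegral_const_mul']
  · apply lintegral_mono
    intro x
    calc ENNReal.ofReal (1 / 8) *
          (f x * (ENNReal.ofReal (1 / 2 ^ r) * ∫⁻ g, (Ann r).indicator 1 g * Ψ (g • x) ∂m))
        = f x * (ENNReal.ofReal (1 / 2 ^ r) * ENNReal.ofReal (1 / 8) *
            ∫⁻ g, (Ann r).indicator 1 g * Ψ (g • x) ∂m) := by ring
      _ ≤ f x * ∫⁻ θ : UnitAddCircle, UL m r Ψ (kr θ • x) := by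
        gcongr
        exact UL_lower m r hΨ x
  · exact ENNReal.ofReal_ne_top

/-- upper bound for the pairing with horocyclic averages -/
lemma pair_upper (r : ℕ) {f Ψ : X → ℝ≥0∞} (hf : Measurable f) (hΨ : Measurable Ψ) :
    ∫⁻ x, f x * UL m r Ψ x ∂μ ≤ 1024 * ∫⁻ x, Mn m (r + 4) f x * Ψ x ∂μ := by
  rw [← Mn_symm m μ (r + 4) hf hΨ, ← lintegral_const_mul' _ _ (by norm_num)]
  apply lintegral_mono
  intro x
  calc f x * UL m r Ψ x ≤ f x * (1024 * Mn m (r + 4) Ψ x) := by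
        gcongr
        exact UL_le m r hΨ x
    _ = 1024 * (f x * Mn m (r + 4) Ψ x) := by ring

/-- the decoupling inequality -/
lemma cross (s : ℕ) {Φ Ψ : X → ℝ≥0∞} (hΦ : Measurable Φ) (hΨ : Measurable Ψ) (y : X) :
    UL m 0 Φ y * UL m s Ψ y ≤ 262144 * UL m 0 (fun w => Φ w * Mn m (s + 12) Ψ w) y := by
  have key : ∀ g ∈ B 16, ∀ ξ ∈ Set.Ico (0 : ℝ) 2,
      UL m s Ψ y ≤ 262144 * Mn m (s + 12) Ψ ((g * al 0 ξ) • y) := by
    intro g hg ξ hξ
    have hu : u (g * al 0 ξ) ≤ 128 := by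
      have h1 := u_mul_le g (al 0 ξ)
      have h2 := u_al_le 0 hξ.1 hξ.2.le
      have h3 : u g < 16 := hg
      have h4 := u_pos g
      have h5 := u_pos (al 0 ξ)
      rw [pow_zero] at h2
      nlinarith
    calc UL m s Ψ y ≤ 1024 * Mn m (s + 4) Ψ y := UL_le m s hΨ y
      _ ≤ 1024 * (256 * Mn m (s + 4 + 8) Ψ ((g * al 0 ξ) • y)) := by
        gcongr
        exact Mn_shift m (s + 4) _ hu Ψ y
      _ = 262144 * Mn m (s + 12) Ψ ((g * al 0 ξ) • y) := by
        rw [← mul_assoc]; norm_num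
  have hne : (262144 : ℝ≥0∞) ≠ ∞ := by norm_num
  have e1 : (262144 : ℝ≥0∞) * UL m 0 (fun w => Φ w * Mn m (s + 12) Ψ w) y =
      ∫⁻ g in B 16, ∫⁻ ξ in Set.Ico (0 : ℝ) 2,
        262144 * (Φ ((g * al 0 ξ) • y) * Mn m (s + 12) Ψ ((g * al 0 ξ) • y)) ∂volume ∂m := by
    unfold UL
    rw [← lintegral_const_mul' _ _ hne]
    apply lintegral_congr
    intro g
    rw [← lintegral_const_mul' _ _ hne]
  rw [e1]
  have hmm : Measurable fun p : G2 × ℝ => Φ ((p.1 * al 0 p.2) • y) :=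
    (measurable_smul_left hΦ y).comp
      (continuous_fst.mul ((continuous_al 0).comp continuous_snd)).measurable
  have e2 : UL m 0 Φ y * UL m s Ψ y = ∫⁻ g in B 16, ∫⁻ ξ in Set.Ico (0 : ℝ) 2,
      Φ ((g * al 0 ξ) • y) * UL m s Ψ y ∂volume ∂m := by
    have h0 : Measurable fun g : G2 => ∫⁻ ξ in Set.Ico (0 : ℝ) 2, Φ ((g * al 0 ξ) • y) :=
      Measurable.lintegral_prod_right' hmm
    conv_lhs => rw [UL]
    rw [← lintegral_mul_const _ h0]
    apply lintegral_congr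
    intro g
    have h1 : Measurable fun ξ : ℝ => Φ ((g * al 0 ξ) • y) :=
      (measurable_smul_left hΦ y).comp (continuous_const.mul (continuous_al 0)).measurable
    rw [← lintegral_mul_const _ h1]
  rw [e2]
  refine setLIntegral_mono' (measurableSet_B 16) fun g hg => ?_
  refine setLIntegral_mono' measurableSet_Ico fun ξ hξ => ?_
  calc Φ ((g * al 0 ξ) • y) * UL m s Ψ y
      ≤ Φ ((g * al 0 ξ) • y) * (262144 * Mn m (s + 12) Ψ ((g * al 0 ξ) • y)) := by
        gcongr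
        exact key g hg ξ hξ
    _ = _ := by ring

/-- finite sums of the expected occupation times -/
noncomputable def TT (Z : ℕ → Set X) (r n : ℕ) (y : X) : ℝ≥0∞ :=
  ∑ s ∈ Finset.range n, UL m s ((Z (r + s)).indicator 1) y

/-- the local terms of the second moment -/
noncomputable def GG (Z : ℕ → Set X) (r n : ℕ) (y : X) : ℝ≥0∞ :=
  ∑ s ∈ Finset.range n, (Z r).indicator 1 y * Mn m (s + 12) ((Z (r + s)).indicator 1) y

lemma measurable_ind1 {Z : Set X} (hZ : MeasurableSet Z) : Measurable (Z.indicator (1 : X → ℝ≥0∞)) :=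
  measurable_one.indicator hZ

lemma measurable_TT {Z : ℕ → Set X} (hZ : ∀ n, MeasurableSet (Z n)) (r n : ℕ) :
    Measurable (TT m Z r n) :=
  Finset.measurable_fun_sum _ fun s _ => measurable_UL m s (measurable_ind1 (hZ _))

lemma measurable_GG {Z : ℕ → Set X} (hZ : ∀ n, MeasurableSet (Z n)) (r n : ℕ) :
    Measurable (GG m Z r n) :=
  Finset.measurable_fun_sum _ fun s _ =>
    mmul (measurable_ind1 (hZ _)) (measurable_Mn m _ (measurable_ind1 (hZ _)))

lemma Qop_add (f g : X → ℝ≥0∞) (y : X) : Qop (fun x => f x + g x) y = Qop f y + Qop g y := by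
  unfold Qop; ring

lemma Qop_const_mul (c : ℝ≥0∞) (f : X → ℝ≥0∞) (y : X) : Qop (fun x => c * f x) y = c * Qop f y := by
  unfold Qop; ring

lemma Qop_sum {ι : Type*} (S : Finset ι) (f : ι → X → ℝ≥0∞) (y : X) :
    Qop (fun x => ∑ i ∈ S, f i x) y = ∑ i ∈ S, Qop (f i) y := by
  unfold Qop
  rw [← Finset.mul_sum, Finset.sum_add_distrib]

lemma Qop_mono {f g : X → ℝ≥0∞} (h : ∀ x, f x ≤ g x) (y : X) : Qop f y ≤ Qop g y := by
  unfold Qop
  gcongr
  · exact h _
  · exact h _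

lemma Qop_sq (f : X → ℝ≥0∞) (y : X) : (Qop f y) ^ 2 ≤ Qop (fun x => f x ^ 2) y :=
  half_sq_le _ _

lemma TT_succ {Z : ℕ → Set X} (hZ : ∀ n, MeasurableSet (Z n)) (r n : ℕ) (y : X) :
    TT m Z r (n + 1) y = UL m 0 ((Z r).indicator 1) y + Qop (TT m Z (r + 1) n) y := by
  have h : Qop (TT m Z (r + 1) n) y =
      ∑ s ∈ Finset.range n, UL m (s + 1) ((Z (r + 1 + s)).indicator 1) y := by
    unfold TT
    rw [Qop_sum]
    apply Finset.sum_congr rfl
    intro s _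
    exact Qop_UL m s (measurable_ind1 (hZ _)) y
  rw [h]
  unfold TT
  rw [Finset.sum_range_succ', add_comm, add_zero]
  congr 1
  apply Finset.sum_congr rfl
  intro s _
  rw [show r + (s + 1) = r + 1 + s by ring]

lemma UL_sum (s : ℕ) {ι : Type*} (S : Finset ι) {f : ι → X → ℝ≥0∞} (hf : ∀ i ∈ S, Measurable (f i)) (y : X) :
    UL m s (fun x => ∑ i ∈ S, f i x) y = ∑ i ∈ S, UL m s (f i) y := by
  have hm : Measurable fun x => ∑ i ∈ S, f i x := Finset.measurable_fun_sum _ hf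
  rw [UL_eq m s hm]
  have e : ∀ g : G2, rho s g * ∑ i ∈ S, f i (g • y) = ∑ i ∈ S, rho s g * f i (g • y) := fun g =>
    Finset.mul_sum _ _ _
  simp_rw [e]
  rw [lintegral_finsetSum _ fun i hi => mmul (measurable_rho s) (measurable_smul_left (hf i hi) y)]
  apply Finset.sum_congr rfl
  intro i hi
  rw [UL_eq m s (hf i hi)]

/-- the second moment bound -/
lemma TT_sq {Z : ℕ → Set X} (hZ : ∀ n, MeasurableSet (Z n)) (n : ℕ) : ∀ (r : ℕ) (y : X),
    (TT m Z r n y) ^ 2 ≤ 524288 * ∑ j ∈ Finset.range n, UL m j (GG m Z (r + j) (n - j)) y := by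
  induction n with
  | zero => intro r y; simp [TT]
  | succ n ih =>
    intro r y
    have h1 : (TT m Z r (n + 1) y) ^ 2 ≤ 2 * (UL m 0 ((Z r).indicator 1) y * TT m Z r (n + 1) y)
        + (Qop (TT m Z (r + 1) n) y) ^ 2 := by
      rw [TT_succ m hZ]
      set a := UL m 0 ((Z r).indicator 1) y
      set b := Qop (TT m Z (r + 1) n) y
      calc (a + b) ^ 2 = a ^ 2 + 2 * (a * b) + b ^ 2 := by ring
        _ ≤ a ^ 2 + (a ^ 2 + 2 * (a * b) + b ^ 2) := le_add_self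
        _ = 2 * (a * (a + b)) + b ^ 2 := by ring
    have h2 : UL m 0 ((Z r).indicator 1) y * TT m Z r (n + 1) y ≤
        262144 * UL m 0 (GG m Z r (n + 1)) y := by
      unfold TT
      rw [Finset.mul_sum]
      have e : UL m 0 (GG m Z r (n + 1)) y = ∑ s ∈ Finset.range (n + 1),
          UL m 0 (fun w => (Z r).indicator 1 w * Mn m (s + 12) ((Z (r + s)).indicator 1) w) y :=
        UL_sum m 0 _ (fun _ _ => mmul (measurable_ind1 (hZ _)) (measurable_Mn m _ (measurable_ind1 (hZ _)))) y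
      rw [e, Finset.mul_sum]
      apply Finset.sum_le_sum
      intro s _
      exact cross m s (measurable_ind1 (hZ _)) (measurable_ind1 (hZ _)) y
    have h3 : (Qop (TT m Z (r + 1) n) y) ^ 2 ≤
        524288 * ∑ j ∈ Finset.range n, UL m (j + 1) (GG m Z (r + 1 + j) (n - j)) y := by
      refine (Qop_sq _ _).trans ((Qop_mono (fun x => ih (r + 1) x) y).trans ?_)
      rw [Qop_const_mul, Qop_sum]
      gcongr with j hj
      rw [Qop_UL m j (measurable_GG m hZ _ _)]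
    rw [Finset.sum_range_succ', Nat.sub_zero, add_zero]
    have e3 : ∀ j ∈ Finset.range n, UL m (j + 1) (GG m Z (r + 1 + j) (n - j)) y =
        UL m (j + 1) (GG m Z (r + (j + 1)) (n + 1 - (j + 1))) y := by
      intro j _
      rw [show r + 1 + j = r + (j + 1) by ring, show n + 1 - (j + 1) = n - j by omega]
    rw [Finset.sum_congr rfl e3] at h3
    calc (TT m Z r (n + 1) y) ^ 2
        ≤ 2 * (UL m 0 ((Z r).indicator 1) y * TT m Z r (n + 1) y)
            + (Qop (TT m Z (r + 1) n) y) ^ 2 := h1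
      _ ≤ 2 * (262144 * UL m 0 (GG m Z r (n + 1)) y) + 524288 *
            ∑ j ∈ Finset.range n, UL m (j + 1) (GG m Z (r + (j + 1)) (n + 1 - (j + 1))) y := by
          gcongr
      _ = _ := by
          rw [mul_add, ← mul_assoc, add_comm]
          norm_num

end Pool.Agent.Helper37.Ball
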