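import Mathlib
import Pool.Agent.Helper37.Ball.Max1
set_option autoImplicit false
set_option linter.unusedSectionVars false
open MeasureTheory Filter Topology
open scoped ENNReal NNReal
namespace Pool.Agent.Helper37.Ball

/-! ### sums -/

lemma sum_shift_le (n s : ℕ) (w : ℕ → ℝ≥0∞) :
    ∑ j ∈ Finset.range n, (if j + s < n then w (j + s) else 0) ≤ ∑ k ∈ Finset.range n, w k := by
  have h1 : ∑ k ∈ Finset.range n, w k = ∑' k, (if k < n then w k else 0) := by
    rw [tsum_eq_sum (s := Finset.range n)]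
    · apply Finset.sum_congr rfl
      intro k hk
      rw [if_pos (Finset.mem_range.mp hk)]
    · intro k hk
      rw [if_neg (fun h => hk (Finset.mem_range.mpr h))]
  rw [h1]
  refine (ENNReal.sum_le_tsum _).trans ?_
  exact ENNReal.tsum_comp_le_tsum_of_injective (f := fun j : ℕ => j + s)
    (fun a b h => Nat.add_right_cancel h) (fun k => if k < n then w k else 0)

lemma geom_le (q : ℝ≥0∞) (n k : ℕ) (hq : q ≤ 1) : ∑ s ∈ Finset.range n, q ^ (s + k) ≤ (1 - q)⁻¹ := by
  calc ∑ s ∈ Finset.range n, q ^ (s + k) ≤ ∑ s ∈ Finset.range n, q ^ s := by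
        apply Finset.sum_le_sum
        intro s _
        exact pow_le_pow_right_of_le_one' hq (Nat.le_add_right s k)
    _ ≤ ∑' s, q ^ s := ENNReal.sum_le_tsum _
    _ = (1 - q)⁻¹ := ENNReal.tsum_geometric q

/-- the combinatorial estimate for the double sum -/
lemma double_sum_le (n : ℕ) (w : ℕ → ℝ≥0∞) (q : ℝ≥0∞) (hq : q ≤ 1)
    (hW : ∑ k ∈ Finset.range n, w k ≤ 1) :
    ∑ j ∈ Finset.range n, ∑ s ∈ Finset.range (n - j),
      (w j * w (j + s) + q ^ (s + 12) * (w j + w (j + s))) ≤
      (1 + 2 * (1 - q)⁻¹) * ∑ k ∈ Finset.range n, w k := by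
  set W := ∑ k ∈ Finset.range n, w k with hWdef
  set D := (1 - q)⁻¹ with hD
  have hsub : ∀ j ∈ Finset.range n, Finset.range (n - j) ⊆ Finset.range n := by
    intro j _
    exact Finset.range_subset_range.mpr (Nat.sub_le n j)
  have hstep : ∀ (j : ℕ) (F : ℕ → ℝ≥0∞), j ∈ Finset.range n →
      ∑ s ∈ Finset.range (n - j), F s * w (j + s) ≤
        ∑ s ∈ Finset.range n, F s * (if j + s < n then w (j + s) else 0) := by
    intro j F hj
    calc ∑ s ∈ Finset.range (n - j), F s * w (j + s)
        = ∑ s ∈ Finset.range (n - j), F s * (if j + s < n then w (j + s) else 0) := by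
          apply Finset.sum_congr rfl
          intro s hs
          have := Finset.mem_range.mp hs
          rw [if_pos (by omega)]
      _ ≤ _ := Finset.sum_le_sum_of_subset (hsub j hj)
  have h1 : ∑ j ∈ Finset.range n, ∑ s ∈ Finset.range (n - j), w j * w (j + s) ≤ W := by
    calc ∑ j ∈ Finset.range n, ∑ s ∈ Finset.range (n - j), w j * w (j + s)
        ≤ ∑ j ∈ Finset.range n, w j * W := by
          apply Finset.sum_le_sum
          intro j hj
          rw [← Finset.mul_sum]
          gcongr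
          have h := hstep j (fun _ => 1) hj
          simp only [one_mul] at h
          refine h.trans ?_
          have := sum_shift_le n j w
          simpa [add_comm] using this
      _ = W * W := by rw [← Finset.sum_mul]
      _ ≤ W * 1 := by gcongr
      _ = W := mul_one W
  have h2 : ∑ j ∈ Finset.range n, ∑ s ∈ Finset.range (n - j), q ^ (s + 12) * w j ≤ D * W := by
    calc ∑ j ∈ Finset.range n, ∑ s ∈ Finset.range (n - j), q ^ (s + 12) * w j
        ≤ ∑ j ∈ Finset.range n, D * w j := by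
          apply Finset.sum_le_sum
          intro j _
          rw [← Finset.sum_mul]
          gcongr
          exact geom_le q _ _ hq
      _ = D * W := by rw [← Finset.mul_sum]
  have h3 : ∑ j ∈ Finset.range n, ∑ s ∈ Finset.range (n - j), q ^ (s + 12) * w (j + s) ≤ D * W := by
    calc ∑ j ∈ Finset.range n, ∑ s ∈ Finset.range (n - j), q ^ (s + 12) * w (j + s)
        ≤ ∑ j ∈ Finset.range n, ∑ s ∈ Finset.range n,
            q ^ (s + 12) * (if j + s < n then w (j + s) else 0) :=
          Finset.sum_le_sum fun j hj => hstep j (fun s => q ^ (s + 12)) hj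
      _ = ∑ s ∈ Finset.range n, q ^ (s + 12) *
            ∑ j ∈ Finset.range n, (if j + s < n then w (j + s) else 0) := by
          rw [Finset.sum_comm]
          apply Finset.sum_congr rfl
          intro s _
          rw [Finset.mul_sum]
      _ ≤ ∑ s ∈ Finset.range n, q ^ (s + 12) * W := by
          apply Finset.sum_le_sum
          intro s _
          gcongr
          exact sum_shift_le n s w
      _ = (∑ s ∈ Finset.range n, q ^ (s + 12)) * W := by rw [← Finset.sum_mul]
      _ ≤ D * W := by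
          gcongr
          exact geom_le q _ _ hq
  calc ∑ j ∈ Finset.range n, ∑ s ∈ Finset.range (n - j),
      (w j * w (j + s) + q ^ (s + 12) * (w j + w (j + s)))
      = (∑ j ∈ Finset.range n, ∑ s ∈ Finset.range (n - j), w j * w (j + s)) +
        ((∑ j ∈ Finset.range n, ∑ s ∈ Finset.range (n - j), q ^ (s + 12) * w j) +
        (∑ j ∈ Finset.range n, ∑ s ∈ Finset.range (n - j), q ^ (s + 12) * w (j + s))) := by
        simp only [mul_add, Finset.sum_add_distrib]
    _ ≤ W + (D * W + D * W) := by gcongr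
    _ = (1 + 2 * D) * W := by ring

variable [MeasurableSpace G2] [BorelSpace G2] {X : Type} [MeasurableSpace X] [MulAction G2 X]
  [MeasurableSMul₂ G2 X]
variable (m : Measure G2) [SFinite m] [m.IsMulRightInvariant] [m.IsInvInvariant]
variable (μ : Measure X) [IsProbabilityMeasure μ] [SMulInvariantMeasure G2 X μ]

/-- level sets of the maximal function with their first time -/
def ZZ (f : X → ℝ≥0∞) (l : ℝ≥0∞) (r : ℕ) : Set X :=
  {x | 1 ≤ r ∧ l ≤ Mn m r f x ∧ (∀ j < r, Mn m j f x < l) ∧ ∀ j, Mn m j f x ≤ 2 * l}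

lemma measurableSet_ZZ {f : X → ℝ≥0∞} (hf : Measurable f) (l : ℝ≥0∞) (r : ℕ) :
    MeasurableSet (ZZ m f l r) := by
  have hM := fun j => measurable_Mn m j hf
  unfold ZZ
  refine MeasurableSet.inter (s₁ := {x | 1 ≤ r}) (MeasurableSet.const _) ?_
  refine MeasurableSet.inter (s₁ := {x | l ≤ Mn m r f x}) (measurableSet_le measurable_const (hM r)) ?_
  refine MeasurableSet.inter (s₁ := {x | ∀ j < r, Mn m j f x < l}) ?_ ?_
  · have : {x | ∀ j < r, Mn m j f x < l} = ⋂ j, ⋂ (_ : j < r), {x | Mn m j f x < l} := by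
      ext x; simp
    rw [this]
    exact MeasurableSet.iInter fun j => MeasurableSet.iInter fun _ =>
      measurableSet_lt (hM j) measurable_const
  · have : {x | ∀ j, Mn m j f x ≤ 2 * l} = ⋂ j, {x | Mn m j f x ≤ 2 * l} := by
      ext x; simp
    change MeasurableSet {x | ∀ j, Mn m j f x ≤ 2 * l}
    rw [this]
    exact MeasurableSet.iInter fun j => measurableSet_le (hM j) measurable_const

lemma ZZ_disjoint (f : X → ℝ≥0∞) (l : ℝ≥0∞) : Pairwise (Function.onFun Disjoint (ZZ m f l)) := by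
  intro i j hij
  rw [Function.onFun, Set.disjoint_left]
  rintro x ⟨-, h1, h2, -⟩ ⟨-, h3, h4, -⟩
  rcases lt_or_gt_of_ne hij with h | h
  · exact absurd (h4 i h) (not_lt.mpr h1)
  · exact absurd (h2 j h) (not_lt.mpr h3)

lemma sum_ZZ_le {f : X → ℝ≥0∞} (hf : Measurable f) (l : ℝ≥0∞) (n : ℕ) :
    ∑ j ∈ Finset.range n, μ (ZZ m f l j) ≤ 1 := by
  rw [← measure_biUnion_finset (fun i _ j _ hij => ZZ_disjoint m f l hij)
    (fun j _ => measurableSet_ZZ m hf l j)]
  exact prob_le_one

lemma UL_ind_le (s : ℕ) (Z : Set X) (y : X) : UL m s (Z.indicator 1) y ≤ 2 * m (B 16) := by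
  unfold UL
  calc ∫⁻ g in B 16, ∫⁻ ξ in Set.Ico (0 : ℝ) 2, Z.indicator 1 ((g * al s ξ) • y) ∂volume ∂m
      ≤ ∫⁻ _g in B 16, ∫⁻ _ξ in Set.Ico (0 : ℝ) 2, 1 ∂volume ∂m := by
        apply lintegral_mono; intro g
        apply lintegral_mono; intro ξ
        exact Set.indicator_le_self' (fun _ _ => zero_le_one) _
    _ = 2 * m (B 16) := by
        simp

/-- the weighted lower bound -/
lemma S_lower {f : X → ℝ≥0∞} (hf : Measurable f)
    (hK : ∀ (θ : UnitAddCircle) (x : X), f (kr θ • x) = f x) {l : ℝ≥0∞} (hl : l ≠ ∞) (s : ℕ) :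
    l * μ (ZZ m f l s) ≤ 16 * ∫⁻ x, f x * UL m s ((ZZ m f l s).indicator 1) x ∂μ := by
  set Z := ZZ m f l s with hZ
  have hZm : MeasurableSet Z := measurableSet_ZZ m hf l s
  have h1 := pair_lower m μ s hf (measurable_ind1 hZm) hK
  have h2 : l * μ Z ≤ 2 * ∫⁻ x, an m s f x * Z.indicator 1 x ∂μ := by
    rw [← lintegral_const_mul' _ _ (by norm_num)]
    have h3 : l * μ Z = ∫⁻ x, Z.indicator (fun _ => l) x ∂μ := by
      rw [lintegral_indicator hZm, setLIntegral_const]
    rw [h3]
    apply lintegral_mono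
    intro x
    by_cases hx : x ∈ Z
    · simp only [Set.indicator_of_mem hx, Pi.one_apply, mul_one]
      obtain ⟨hs, hx1, hx2, -⟩ := hx
      obtain ⟨r, rfl⟩ : ∃ r, s = r + 1 := ⟨s - 1, by omega⟩
      have h4 := Mn_succ m r f x
      have h5 := hx2 r (Nat.lt_succ_self r)
      have h6 : l ≤ an m (r + 1) f x + 2⁻¹ * l := by
        calc l ≤ Mn m (r + 1) f x := hx1
          _ = an m (r + 1) f x + 2⁻¹ * Mn m r f x := h4
          _ ≤ an m (r + 1) f x + 2⁻¹ * l := by gcongr
      have h7 : l = 2⁻¹ * l + 2⁻¹ * l := by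
        rw [← add_mul, ENNReal.inv_two_add_inv_two, one_mul]
      have h8 : 2⁻¹ * l ≤ an m (r + 1) f x := by
        have h9 : 2⁻¹ * l ≠ ∞ := ENNReal.mul_ne_top (by norm_num) hl
        have h10 : 2⁻¹ * l + 2⁻¹ * l ≤ an m (r + 1) f x + 2⁻¹ * l := by rw [← h7]; exact h6
        exact (ENNReal.add_le_add_iff_right h9).mp h10
      calc l = 2 * (2⁻¹ * l) := by
            rw [← mul_assoc, ENNReal.mul_inv_cancel (by norm_num) (by norm_num), one_mul]
        _ ≤ 2 * an m (r + 1) f x := by gcongr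
    · simp only [Set.indicator_of_notMem hx]
      exact bot_le
  have h8 : (2 : ℝ≥0∞) = 16 * ENNReal.ofReal (1 / 8) := by
    rw [show (16 : ℝ≥0∞) = ENNReal.ofReal 16 by norm_num, ← ENNReal.ofReal_mul (by norm_num)]
    norm_num
  calc l * μ Z ≤ 2 * ∫⁻ x, an m s f x * Z.indicator 1 x ∂μ := h2
    _ = 16 * (ENNReal.ofReal (1 / 8) * ∫⁻ x, an m s f x * Z.indicator 1 x ∂μ) := by
        rw [h8]; ring
    _ ≤ 16 * ∫⁻ x, f x * UL m s (Z.indicator 1) x ∂μ := by gcongr

end Pool.Agent.Helper37.Ball
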