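import Mathlib
import Pool.Agent.Helper37.Ball.Max2
set_option autoImplicit false
set_option linter.unusedSectionVars false
open MeasureTheory Filter Topology
open scoped ENNReal NNReal
namespace Pool.Agent.Helper37.Ball

variable [MeasurableSpace G2] [BorelSpace G2] {X : Type} [MeasurableSpace X] [MulAction G2 X]
  [MeasurableSMul₂ G2 X]
variable (m : Measure G2) [SFinite m] [m.IsMulRightInvariant] [m.IsInvInvariant]
variable (μ : Measure X) [IsProbabilityMeasure μ] [SMulInvariantMeasure G2 X μ]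

/-- the decay of correlations which is needed for the maximal inequality -/
def Decay (C q : ℝ≥0∞) : Prop :=
  ∀ (s : ℕ) (Z Z' : Set X), MeasurableSet Z → MeasurableSet Z' →
    ∫⁻ x, Z.indicator 1 x * Mn m s (Z'.indicator 1) x ∂μ ≤
      C * (μ Z * μ Z' + q ^ s * (μ Z + μ Z'))

lemma GG_integral {C q : ℝ≥0∞} (hdec : Decay m μ C q) {Z : ℕ → Set X}
    (hZ : ∀ n, MeasurableSet (Z n)) (r n : ℕ) :
    ∫⁻ x, GG m Z r n x ∂μ ≤ C * ∑ s ∈ Finset.range n,
      (μ (Z r) * μ (Z (r + s)) + q ^ (s + 12) * (μ (Z r) + μ (Z (r + s)))) := by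
  unfold GG
  rw [lintegral_finsetSum _ fun s _ =>
    mmul (measurable_ind1 (hZ _)) (measurable_Mn m _ (measurable_ind1 (hZ _))), Finset.mul_sum]
  exact Finset.sum_le_sum fun s _ => hdec (s + 12) _ _ (hZ _) (hZ _)

/-- the second moment estimate, integrated -/
lemma second_moment {C q : ℝ≥0∞} (hdec : Decay m μ C q) (hq : q ≤ 1) {f : X → ℝ≥0∞}
    (hf : Measurable f) (l : ℝ≥0∞) (n : ℕ) :
    ∫⁻ x, f x * (TT m (ZZ m f l) 0 n x) ^ 2 ∂μ ≤
      1073741824 * C * (1 + 2 * (1 - q)⁻¹) * (l * ∑ j ∈ Finset.range n, μ (ZZ m f l j)) := by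
  set Z := ZZ m f l with hZdef
  have hZ : ∀ n, MeasurableSet (Z n) := fun n => measurableSet_ZZ m hf l n
  have h1 : ∀ x, f x * (TT m Z 0 n x) ^ 2 ≤
      524288 * ∑ j ∈ Finset.range n, f x * UL m j (GG m Z j (n - j)) x := by
    intro x
    have h := TT_sq m hZ n 0 x
    simp only [zero_add] at h
    calc f x * (TT m Z 0 n x) ^ 2
        ≤ f x * (524288 * ∑ j ∈ Finset.range n, UL m j (GG m Z j (n - j)) x) := by gcongr
      _ = _ := by rw [← Finset.mul_sum]; ring
  have h2 : ∀ j, ∫⁻ x, f x * UL m j (GG m Z j (n - j)) x ∂μ ≤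
      1024 * (2 * l * ∫⁻ x, GG m Z j (n - j) x ∂μ) := by
    intro j
    refine (pair_upper m μ j hf (measurable_GG m hZ j (n - j))).trans ?_
    gcongr
    rw [← lintegral_const_mul _ (measurable_GG m hZ j (n - j))]
    apply lintegral_mono
    intro x
    by_cases hx : x ∈ Z j
    · have := hx.2.2.2 (j + 4)
      dsimp only
      gcongr
    · have : GG m Z j (n - j) x = 0 := by
        unfold GG
        apply Finset.sum_eq_zero
        intro s _
        rw [Set.indicator_of_notMem hx, zero_mul]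
      simp only [this, mul_zero]
      exact le_rfl
  have h3 := double_sum_le n (fun j => μ (Z j)) q hq (sum_ZZ_le m μ hf l n)
  calc ∫⁻ x, f x * (TT m Z 0 n x) ^ 2 ∂μ
      ≤ ∫⁻ x, 524288 * ∑ j ∈ Finset.range n, f x * UL m j (GG m Z j (n - j)) x ∂μ :=
        lintegral_mono h1
    _ = 524288 * ∑ j ∈ Finset.range n, ∫⁻ x, f x * UL m j (GG m Z j (n - j)) x ∂μ := by
        rw [lintegral_const_mul', lintegral_finsetSum]
        · intro j _
          exact mmul hf (measurable_UL m j (measurable_GG m hZ j (n - j)))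
        · norm_num
    _ ≤ 524288 * ∑ j ∈ Finset.range n, 1024 * (2 * l * ∫⁻ x, GG m Z j (n - j) x ∂μ) := by
        gcongr with j hj
        exact h2 j
    _ ≤ 524288 * ∑ j ∈ Finset.range n, 1024 * (2 * l * (C * ∑ s ∈ Finset.range (n - j),
          (μ (Z j) * μ (Z (j + s)) + q ^ (s + 12) * (μ (Z j) + μ (Z (j + s)))))) := by
        gcongr with j hj
        exact GG_integral m μ hdec hZ j (n - j)
    _ = 1073741824 * C * l * ∑ j ∈ Finset.range n, ∑ s ∈ Finset.range (n - j),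
          (μ (Z j) * μ (Z (j + s)) + q ^ (s + 12) * (μ (Z j) + μ (Z (j + s)))) := by
        rw [Finset.mul_sum, Finset.mul_sum]
        apply Finset.sum_congr rfl
        intro j _
        ring
    _ ≤ 1073741824 * C * l * ((1 + 2 * (1 - q)⁻¹) * ∑ k ∈ Finset.range n, μ (Z k)) := by
        gcongr
    _ = _ := by ring

/-- the core of the maximal inequality -/
theorem core {C q : ℝ≥0∞} (hdec : Decay m μ C q) (hq : q ≤ 1) {f : X → ℝ≥0∞}
    (hf : Measurable f) (hfin : ∫⁻ x, f x ∂μ ≠ ∞) (hm16 : m (B 16) ≠ ∞)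
    (hK : ∀ (θ : UnitAddCircle) (x : X), f (kr θ • x) = f x) {l : ℝ≥0∞} (hl : l ≠ ∞) (n : ℕ) :
    l * ∑ j ∈ Finset.range n, μ (ZZ m f l j) ≤
      256 * (1073741824 * C * (1 + 2 * (1 - q)⁻¹)) * ∫⁻ x, f x ∂μ := by
  set Z := ZZ m f l with hZdef
  have hZ : ∀ n, MeasurableSet (Z n) := fun n => measurableSet_ZZ m hf l n
  set K := 1073741824 * C * (1 + 2 * (1 - q)⁻¹) with hK1
  set S := ∫⁻ x, f x * TT m Z 0 n x ∂μ with hS
  have hSsum : S = ∑ s ∈ Finset.range n, ∫⁻ x, f x * UL m s ((Z s).indicator 1) x ∂μ := by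
    have : ∀ x, f x * TT m Z 0 n x = ∑ s ∈ Finset.range n, f x * UL m s ((Z s).indicator 1) x := by
      intro x
      unfold TT
      rw [Finset.mul_sum]
      simp only [zero_add]
    rw [hS]
    simp_rw [this]
    rw [lintegral_finsetSum]
    intro s _
    exact mmul hf (measurable_UL m s (measurable_ind1 (hZ _)))
  have hlow : l * ∑ j ∈ Finset.range n, μ (Z j) ≤ 16 * S := by
    rw [hSsum, Finset.mul_sum, Finset.mul_sum]
    exact Finset.sum_le_sum fun s _ => S_lower m μ hf hK hl s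
  have hSfin : S ≠ ∞ := by
    have h1 : ∀ x, f x * TT m Z 0 n x ≤ (n * (2 * m (B 16))) * f x := by
      intro x
      rw [mul_comm]
      gcongr
      unfold TT
      calc ∑ s ∈ Finset.range n, UL m s ((Z (0 + s)).indicator 1) x
          ≤ ∑ s ∈ Finset.range n, 2 * m (B 16) := Finset.sum_le_sum fun s _ => UL_ind_le m s _ x
        _ = n * (2 * m (B 16)) := by rw [Finset.sum_const, Finset.card_range, nsmul_eq_mul]
    refine ne_top_of_le_ne_top ?_ (lintegral_mono h1)
    rw [lintegral_const_mul _ hf]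
    exact ENNReal.mul_ne_top (ENNReal.mul_ne_top (by simp) (ENNReal.mul_ne_top (by norm_num) hm16)) hfin
  have hup : S ^ 2 ≤ (∫⁻ x, f x ∂μ) * (K * (16 * S)) := by
    calc S ^ 2 ≤ (∫⁻ x, f x ∂μ) * ∫⁻ x, f x * (TT m Z 0 n x) ^ 2 ∂μ :=
          lintegral_mul_sq_le μ hf (measurable_TT m hZ 0 n)
      _ ≤ (∫⁻ x, f x ∂μ) * (K * (l * ∑ j ∈ Finset.range n, μ (Z j))) := by
          gcongr
          exact second_moment m μ hdec hq hf l n
      _ ≤ _ := by gcongr
  have hS2 : S ≤ 16 * K * ∫⁻ x, f x ∂μ := by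
    by_cases h0 : S = 0
    · rw [h0]; exact bot_le
    · have h3 : S * S ≤ S * (16 * K * ∫⁻ x, f x ∂μ) := by
        calc S * S = S ^ 2 := by ring
          _ ≤ (∫⁻ x, f x ∂μ) * (K * (16 * S)) := hup
          _ = _ := by ring
      exact (ENNReal.mul_le_mul_iff_right h0 hSfin).mp h3
  calc l * ∑ j ∈ Finset.range n, μ (Z j) ≤ 16 * S := hlow
    _ ≤ 16 * (16 * K * ∫⁻ x, f x ∂μ) := by gcongr
    _ = 256 * K * ∫⁻ x, f x ∂μ := by ring

end Pool.Agent.Helper37.Ball
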