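import Mathlib
import Pool.Agent.Helper37.Ball.Max3
set_option autoImplicit false
set_option linter.unusedSectionVars false
open MeasureTheory Filter Topology
open scoped ENNReal NNReal
namespace Pool.Agent.Helper37.Ball

variable [MeasurableSpace G2] [BorelSpace G2] {X : Type} [MeasurableSpace X] [MulAction G2 X]
  [MeasurableSMul₂ G2 X]
variable (m : Measure G2) [SFinite m] [m.IsMulRightInvariant] [m.IsInvInvariant]
variable (μ : Measure X) [IsProbabilityMeasure μ] [SMulInvariantMeasure G2 X μ]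

/-- volume growth -/
def Vol (c : ℝ≥0∞) : Prop := ∀ z : ℝ, m (B z) = c * ENNReal.ofReal (z - 1)

lemma Mn_le_of_bdd {c b : ℝ≥0∞} (hV : Vol m c) {f : X → ℝ≥0∞} (hb : ∀ x, f x ≤ b) (r : ℕ) (x : X) :
    Mn m r f x ≤ 6 * c * b := by
  unfold Mn ML
  calc ENNReal.ofReal (1 / 2 ^ r) * ∫⁻ g in B (6 * 2 ^ r), f (g • x) ∂m
      ≤ ENNReal.ofReal (1 / 2 ^ r) * ∫⁻ _g in B (6 * 2 ^ r), b ∂m := by
        gcongr
        exact hb _
    _ = ENNReal.ofReal (1 / 2 ^ r) * (b * (c * ENNReal.ofReal (6 * 2 ^ r - 1))) := by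
        rw [setLIntegral_const, hV]
    _ = (ENNReal.ofReal (1 / 2 ^ r) * ENNReal.ofReal (6 * 2 ^ r - 1)) * c * b := by ring
    _ ≤ 6 * c * b := by
        gcongr
        rw [← ENNReal.ofReal_mul (by positivity), show (6 : ℝ≥0∞) = ENNReal.ofReal 6 by norm_num]
        apply ENNReal.ofReal_le_ofReal
        have h2 : (0 : ℝ) < 2 ^ r := by positivity
        rw [div_mul_eq_mul_div, one_mul, div_le_iff₀ h2]
        linarith

lemma exists_level {l M : ℝ≥0∞} (hl : l ≠ 0) (hM : M ≠ ∞) : ∃ k : ℕ, M < 2 ^ k * l := by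
  have h1 : Tendsto (fun k : ℕ => (2 : ℝ≥0∞) ^ k * l) atTop (𝓝 ∞) := by
    by_cases hlt : l = ∞
    · simp only [hlt]
      have : (fun k : ℕ => (2 : ℝ≥0∞) ^ k * ∞) = fun _ => ∞ := by
        funext k
        rw [ENNReal.mul_top (by positivity)]
      rw [this]
      exact tendsto_const_nhds
    · have h2 : Tendsto (fun k : ℕ => (2 : ℝ≥0∞) ^ k) atTop (𝓝 ∞) :=
        ENNReal.tendsto_pow_atTop_nhds_top_iff.mpr (by norm_num)
      have h3 := ENNReal.Tendsto.mul_const (b := l) h2 (Or.inl (by simp))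
      rwa [ENNReal.top_mul hl] at h3
  have h4 := h1.eventually_const_lt hM.lt_top
  exact h4.exists

lemma level_cover {c b : ℝ≥0∞} (hV : Vol m c) (hc : c ≠ ∞) {f : X → ℝ≥0∞} (hb : ∀ x, f x ≤ b)
    (hbt : b ≠ ∞) {l : ℝ≥0∞} (hl : l ≠ 0) :
    {x | ∃ r, l ≤ Mn m r f x} ⊆ {x | l ≤ Mn m 0 f x} ∪ ⋃ k : ℕ, ⋃ j : ℕ, ZZ m f (2 ^ k * l) j := by
  classical
  rintro x ⟨r₀, hr₀⟩
  have hex : ∃ k : ℕ, ¬ ∃ r, 2 ^ k * l ≤ Mn m r f x := by
    obtain ⟨k, hk⟩ := exists_level (M := 6 * c * b) hl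
      (ENNReal.mul_ne_top (ENNReal.mul_ne_top (by norm_num) hc) hbt)
    refine ⟨k, ?_⟩
    rintro ⟨r, hr⟩
    exact absurd (hr.trans (Mn_le_of_bdd m hV hb r x)) (not_le.mpr hk)
  set k := Nat.find hex with hkdef
  have hk1 : ¬ ∃ r, 2 ^ k * l ≤ Mn m r f x := Nat.find_spec hex
  have hk0 : k ≠ 0 := by
    intro h0
    rw [h0] at hk1
    exact hk1 ⟨r₀, by rw [pow_zero, one_mul]; exact hr₀⟩
  obtain ⟨k', hk'⟩ : ∃ k', k = k' + 1 := ⟨k - 1, by omega⟩
  have hP : ∃ r, 2 ^ k' * l ≤ Mn m r f x := by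
    by_contra hcon
    have := Nat.find_min' hex hcon
    omega
  have hup : ∀ j, Mn m j f x ≤ 2 * (2 ^ k' * l) := by
    intro j
    by_contra hcon
    push Not at hcon
    apply hk1
    refine ⟨j, ?_⟩
    rw [hk', pow_succ]
    calc 2 ^ k' * 2 * l = 2 * (2 ^ k' * l) := by ring
      _ ≤ Mn m j f x := hcon.le
  set r := Nat.find hP with hrdef
  have hr1 : 2 ^ k' * l ≤ Mn m r f x := Nat.find_spec hP
  have hr2 : ∀ j < r, Mn m j f x < 2 ^ k' * l := fun j hj => not_le.mp (Nat.find_min hP hj)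
  by_cases hr0 : r = 0
  · left
    rw [hr0] at hr1
    refine le_trans ?_ hr1
    calc l = 1 * l := (one_mul l).symm
      _ ≤ 2 ^ k' * l := by gcongr; exact one_le_pow₀ (by norm_num)
  · right
    rw [Set.mem_iUnion]
    refine ⟨k', ?_⟩
    rw [Set.mem_iUnion]
    exact ⟨r, Nat.one_le_iff_ne_zero.mpr hr0, hr1, hr2, hup⟩

/-- weak type inequality for bounded functions invariant under rotations -/
theorem weak_bdd {C q c : ℝ≥0∞} (hdec : Decay m μ C q) (hq : q ≤ 1) (hV : Vol m c) (hc : c ≠ ∞)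
    {f : X → ℝ≥0∞} (hf : Measurable f) {b : ℝ≥0∞} (hb : ∀ x, f x ≤ b) (hbt : b ≠ ∞)
    (hK : ∀ (θ : UnitAddCircle) (x : X), f (kr θ • x) = f x) {l : ℝ≥0∞} (hl : l ≠ 0) (hlt : l ≠ ∞) :
    l * μ {x | ∃ r, l ≤ Mn m r f x} ≤
      (m (B 6) + 2 * (256 * (1073741824 * C * (1 + 2 * (1 - q)⁻¹)))) * ∫⁻ x, f x ∂μ := by
  set K := 256 * (1073741824 * C * (1 + 2 * (1 - q)⁻¹)) with hKdef
  have hfin : ∫⁻ x, f x ∂μ ≠ ∞ := by
    refine ne_top_of_le_ne_top ?_ (lintegral_mono hb)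
    rw [lintegral_const, measure_univ, mul_one]
    exact hbt
  have hm16 : m (B 16) ≠ ∞ := by
    rw [hV]; exact ENNReal.mul_ne_top hc ENNReal.ofReal_ne_top
  have h1 : l * μ {x | l ≤ Mn m 0 f x} ≤ m (B 6) * ∫⁻ x, f x ∂μ := by
    refine (mul_meas_ge_le_lintegral (measurable_Mn m 0 hf) l).trans ?_
    unfold Mn
    rw [lintegral_const_mul _ (measurable_ML m _ hf), lintegral_ML m μ _ hf]
    simp
  have h2 : ∀ k : ℕ, (2 ^ k * l) * μ (⋃ j : ℕ, ZZ m f (2 ^ k * l) j) ≤ K * ∫⁻ x, f x ∂μ := by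
    intro k
    have hk : (2 : ℝ≥0∞) ^ k * l ≠ ∞ := ENNReal.mul_ne_top (by simp) hlt
    calc (2 ^ k * l) * μ (⋃ j : ℕ, ZZ m f (2 ^ k * l) j)
        ≤ (2 ^ k * l) * ∑' j, μ (ZZ m f (2 ^ k * l) j) := by gcongr; exact measure_iUnion_le _
      _ = ∑' j, (2 ^ k * l) * μ (ZZ m f (2 ^ k * l) j) := ENNReal.tsum_mul_left.symm
      _ ≤ K * ∫⁻ x, f x ∂μ := by
        refine ENNReal.tsum_le_of_sum_range_le fun n => ?_
        rw [← Finset.mul_sum]
        exact core m μ hdec hq hf hfin hm16 hK hk n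
  have h3 : l * μ (⋃ k : ℕ, ⋃ j : ℕ, ZZ m f (2 ^ k * l) j) ≤ 2 * K * ∫⁻ x, f x ∂μ := by
    calc l * μ (⋃ k : ℕ, ⋃ j : ℕ, ZZ m f (2 ^ k * l) j)
        ≤ l * ∑' k : ℕ, μ (⋃ j : ℕ, ZZ m f (2 ^ k * l) j) := by gcongr; exact measure_iUnion_le _
      _ = ∑' k : ℕ, l * μ (⋃ j : ℕ, ZZ m f (2 ^ k * l) j) := ENNReal.tsum_mul_left.symm
      _ ≤ ∑' k : ℕ, (2⁻¹ : ℝ≥0∞) ^ k * (K * ∫⁻ x, f x ∂μ) := by
        refine ENNReal.tsum_le_tsum fun k => ?_
        calc l * μ (⋃ j : ℕ, ZZ m f (2 ^ k * l) j)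
            = ((2⁻¹ : ℝ≥0∞) ^ k * 2 ^ k) * (l * μ (⋃ j : ℕ, ZZ m f (2 ^ k * l) j)) := by
              rw [← mul_pow, ENNReal.inv_mul_cancel (by norm_num) (by norm_num), one_pow, one_mul]
          _ = (2⁻¹ : ℝ≥0∞) ^ k * ((2 ^ k * l) * μ (⋃ j : ℕ, ZZ m f (2 ^ k * l) j)) := by ring
          _ ≤ (2⁻¹ : ℝ≥0∞) ^ k * (K * ∫⁻ x, f x ∂μ) := mul_le_mul' le_rfl (h2 k)
      _ = 2 * K * ∫⁻ x, f x ∂μ := by
        rw [ENNReal.tsum_mul_right, ENNReal.tsum_geometric, ENNReal.one_sub_inv_two, inv_inv]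
        ring
  calc l * μ {x | ∃ r, l ≤ Mn m r f x}
      ≤ l * (μ {x | l ≤ Mn m 0 f x} + μ (⋃ k : ℕ, ⋃ j : ℕ, ZZ m f (2 ^ k * l) j)) := by
        gcongr
        exact (measure_mono (level_cover m hV hc hb hbt hl)).trans (measure_union_le _ _)
    _ = l * μ {x | l ≤ Mn m 0 f x} + l * μ (⋃ k : ℕ, ⋃ j : ℕ, ZZ m f (2 ^ k * l) j) := mul_add _ _ _
    _ ≤ m (B 6) * ∫⁻ x, f x ∂μ + 2 * K * ∫⁻ x, f x ∂μ := add_le_add h1 h3
    _ = _ := by ring

lemma Mn_mono_f {f g : X → ℝ≥0∞} (h : ∀ x, f x ≤ g x) (r : ℕ) (x : X) : Mn m r f x ≤ Mn m r g x := by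
  unfold Mn ML
  gcongr
  exact h _

lemma Mn_iSup (r : ℕ) {f : X → ℝ≥0∞} (hf : Measurable f) (x : X) :
    Mn m r f x = ⨆ n : ℕ, Mn m r (fun y => min (f y) n) x := by
  unfold Mn
  rw [← ENNReal.mul_iSup]
  congr 1
  unfold ML
  rw [← lintegral_iSup]
  · apply lintegral_congr
    intro g
    apply le_antisymm
    · by_cases h : f (g • x) = ∞
      · have h2 : ∀ n : ℕ, (fun y => min (f y) (n : ℝ≥0∞)) (g • x) = n := by
          intro n; simp [h]
        simp only [h2, ENNReal.iSup_natCast, le_top]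
      · obtain ⟨n, hn⟩ := ENNReal.exists_nat_gt h
        refine le_iSup_of_le n ?_
        exact le_min le_rfl hn.le
    · exact iSup_le fun n => min_le_left _ _
  · intro n
    exact measurable_smul_left (hf.min measurable_const) x
  · intro a b hab g
    dsimp only
    gcongr

/-- weak type inequality for functions invariant under rotations -/
theorem weak_K {C q c : ℝ≥0∞} (hdec : Decay m μ C q) (hq : q ≤ 1) (hV : Vol m c) (hc : c ≠ ∞)
    {f : X → ℝ≥0∞} (hf : Measurable f)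
    (hK : ∀ (θ : UnitAddCircle) (x : X), f (kr θ • x) = f x) {l : ℝ≥0∞} (hl : l ≠ 0) (hlt : l ≠ ∞) :
    l * μ {x | ∃ r, l < Mn m r f x} ≤
      (m (B 6) + 2 * (256 * (1073741824 * C * (1 + 2 * (1 - q)⁻¹)))) * ∫⁻ x, f x ∂μ := by
  set fn : ℕ → X → ℝ≥0∞ := fun n y => min (f y) n with hfn
  have h1 : {x | ∃ r, l < Mn m r f x} = ⋃ n : ℕ, {x | ∃ r, l < Mn m r (fn n) x} := by
    ext x
    simp only [Set.mem_ofPred_eq, Set.mem_iUnion]
    constructor
    · rintro ⟨r, hr⟩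
      rw [Mn_iSup m r hf, lt_iSup_iff] at hr
      obtain ⟨n, hn⟩ := hr
      exact ⟨n, r, hn⟩
    · rintro ⟨n, r, hr⟩
      exact ⟨r, hr.trans_le (Mn_mono_f m (fun y => min_le_left _ _) r x)⟩
  have hmono : Monotone fun n : ℕ => {x | ∃ r, l < Mn m r (fn n) x} := by
    intro a b hab x
    rintro ⟨r, hr⟩
    refine ⟨r, hr.trans_le (Mn_mono_f m (fun y => ?_) r x)⟩
    simp only [hfn]
    gcongr
  rw [h1, hmono.measure_iUnion, ENNReal.mul_iSup]
  refine iSup_le fun n => ?_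
  have h2 := weak_bdd m μ hdec hq hV hc (f := fn n) (hf.min measurable_const) (b := n)
    (fun x => min_le_right _ _) (by simp) (fun θ x => by simp only [hfn, hK]) hl hlt
  refine le_trans ?_ (h2.trans ?_)
  · gcongr
    exact le_of_lt
  · gcongr
    exact min_le_left _ _

/-- rotation average -/
noncomputable def fK (f : X → ℝ≥0∞) (x : X) : ℝ≥0∞ := ∫⁻ θ : UnitAddCircle, f (kr θ • x)

lemma measurable_rot_joint {f : X → ℝ≥0∞} (hf : Measurable f) :
    Measurable fun p : X × UnitAddCircle => f (kr p.2 • p.1) :=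
  hf.comp ((continuous_kr.measurable.comp measurable_snd).smul measurable_fst)

lemma measurable_fK {f : X → ℝ≥0∞} (hf : Measurable f) : Measurable (fK f) :=
  Measurable.lintegral_prod_right' (measurable_rot_joint hf)

lemma fK_inv (f : X → ℝ≥0∞) (φ : UnitAddCircle) (x : X) : fK f (kr φ • x) = fK f x := by
  unfold fK
  have h : ∀ θ : UnitAddCircle, f (kr θ • kr φ • x) = f (kr (θ + φ) • x) := by
    intro θ
    rw [smul_smul, kr_add]
  simp_rw [h]
  exact lintegral_add_right_eq_self (fun θ : UnitAddCircle => f (kr θ • x)) φ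

lemma lintegral_fK {f : X → ℝ≥0∞} (hf : Measurable f) : ∫⁻ x, fK f x ∂μ = ∫⁻ x, f x ∂μ := by
  unfold fK
  rw [lintegral_lintegral_swap (f := fun x (θ : UnitAddCircle) => f (kr θ • x))
    (measurable_rot_joint hf).aemeasurable]
  simp_rw [lintegral_smul_eq μ _ hf]
  simp

lemma ML_rot [m.IsMulLeftInvariant] (z : ℝ) (f : X → ℝ≥0∞) (x : X) (θ : UnitAddCircle) :
    ∫⁻ g in B z, f (kr θ • g • x) ∂m = ML m z f x := by
  unfold ML
  rw [← lintegral_indicator (measurableSet_B z), ← lintegral_indicator (measurableSet_B z)]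
  refine Eq.trans ?_ (lintegral_mul_left_eq_self (μ := m)
    ((B z).indicator fun g => f (g • x)) (kr θ))
  apply lintegral_congr
  intro g
  have h : kr θ * g ∈ B z ↔ g ∈ B z := by
    show u (kr θ * g) < z ↔ u g < z
    rw [u_kr_mul]
  by_cases hg : g ∈ B z
  · rw [Set.indicator_of_mem hg, Set.indicator_of_mem (h.mpr hg), smul_smul]
  · rw [Set.indicator_of_notMem hg, Set.indicator_of_notMem (fun h' => hg (h.mp h'))]

lemma ML_fK [m.IsMulLeftInvariant] (z : ℝ) {f : X → ℝ≥0∞} (hf : Measurable f) (x : X) :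
    ML m z (fK f) x = ML m z f x := by
  have h : ML m z (fK f) x = ∫⁻ θ : UnitAddCircle, ∫⁻ g in B z, f (kr θ • g • x) ∂m := by
    unfold ML fK
    have hj : Measurable fun p : G2 × UnitAddCircle => f (kr p.2 • p.1 • x) :=
      hf.comp ((continuous_kr.measurable.comp measurable_snd).smul
        (measurable_fst.smul measurable_const))
    exact lintegral_lintegral_swap (f := fun g (θ : UnitAddCircle) => f (kr θ • g • x))
      hj.aemeasurable
  rw [h]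
  simp_rw [ML_rot]
  simp

/-- **Weak type (1,1) maximal inequality.** -/
theorem weak_type [m.IsMulLeftInvariant] {C q c : ℝ≥0∞} (hdec : Decay m μ C q) (hq : q ≤ 1)
    (hV : Vol m c) (hc : c ≠ ∞) {f : X → ℝ≥0∞} (hf : Measurable f) {l : ℝ≥0∞} (hl : l ≠ 0)
    (hlt : l ≠ ∞) :
    l * μ {x | ∃ r, l < Mn m r f x} ≤
      (m (B 6) + 2 * (256 * (1073741824 * C * (1 + 2 * (1 - q)⁻¹)))) * ∫⁻ x, f x ∂μ := by
  have h := weak_K m μ hdec hq hV hc (measurable_fK hf) (fK_inv f) hl hlt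
  rw [lintegral_fK μ hf] at h
  have e : ∀ (r : ℕ) (x : X), Mn m r (fK f) x = Mn m r f x := by
    intro r x
    unfold Mn
    rw [ML_fK m _ hf]
  simp_rw [e] at h
  exact h

end Pool.Agent.Helper37.Ball
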