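import Mathlib
import Pool.Agent.Helper37.Ball.Max4
set_option autoImplicit false
set_option linter.unusedSectionVars false
open MeasureTheory Filter Topology
open scoped ENNReal NNReal
namespace Pool.Agent.Helper37.Ball

/-- bounded functions -/
def Bd {α : Type*} (F : α → ℝ) : Prop := ∃ b, ∀ x, |F x| ≤ b

lemma integrable_bd {α : Type*} [MeasurableSpace α] {ν : Measure α} [IsFiniteMeasure ν] {F : α → ℝ}
    (hF : Measurable F) (hb : Bd F) : Integrable F ν := by
  obtain ⟨b, hb⟩ := hb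
  exact Integrable.of_bound hF.aestronglyMeasurable b (ae_of_all _ fun x => by
    rw [Real.norm_eq_abs]; exact hb x)

lemma Bd.mul {α : Type*} {F G : α → ℝ} (hF : Bd F) (hG : Bd G) : Bd fun x => F x * G x := by
  obtain ⟨a, ha⟩ := hF
  obtain ⟨b, hb⟩ := hG
  refine ⟨a * b, fun x => ?_⟩
  rw [abs_mul]
  exact mul_le_mul (ha x) (hb x) (abs_nonneg _) ((abs_nonneg _).trans (ha x))

lemma Bd.sub {α : Type*} {F G : α → ℝ} (hF : Bd F) (hG : Bd G) : Bd fun x => F x - G x := by
  obtain ⟨a, ha⟩ := hF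
  obtain ⟨b, hb⟩ := hG
  exact ⟨a + b, fun x => (abs_sub _ _).trans (add_le_add (ha x) (hb x))⟩

lemma Bd.comp {α β : Type*} {F : α → ℝ} (hF : Bd F) (φ : β → α) : Bd fun x => F (φ x) := by
  obtain ⟨a, ha⟩ := hF
  exact ⟨a, fun x => ha _⟩

lemma Bd.sq {α : Type*} {F : α → ℝ} (hF : Bd F) : Bd fun x => F x ^ 2 := by
  have := hF.mul hF
  simpa only [pow_two] using this

/-- Cauchy–Schwarz for a finite measure -/
lemma sq_integral_le {α : Type*} [MeasurableSpace α] {ν : Measure α} [IsFiniteMeasure ν] {F : α → ℝ}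
    (hF : Measurable F) (hb : Bd F) :
    (∫ x, F x ∂ν) ^ 2 ≤ (ν.real Set.univ) * ∫ x, F x ^ 2 ∂ν := by
  set V := ν.real Set.univ with hV
  have hV0 : 0 ≤ V := measureReal_nonneg
  have i1 : Integrable F ν := integrable_bd hF hb
  have i2 : Integrable (fun x => F x ^ 2) ν := integrable_bd (hF.pow_const 2) hb.sq
  set I := ∫ x, F x ∂ν with hI
  have h : 0 ≤ ∫ x, (V * F x - I) ^ 2 ∂ν := integral_nonneg fun x => sq_nonneg _
  have h2 : ∫ x, (V * F x - I) ^ 2 ∂ν = V ^ 2 * (∫ x, F x ^ 2 ∂ν) - 2 * V * I * I + I ^ 2 * V := by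
    have e : ∀ x, (V * F x - I) ^ 2 = V ^ 2 * F x ^ 2 - 2 * V * I * F x + I ^ 2 := fun x => by ring
    simp_rw [e]
    have i4 : Integrable (fun x => V ^ 2 * F x ^ 2 - 2 * V * I * F x) ν :=
      (i2.const_mul _).sub (i1.const_mul _)
    rw [integral_add i4 (integrable_const _),
      integral_sub (i2.const_mul _) (i1.const_mul _), integral_const_mul, integral_const_mul,
      integral_const, smul_eq_mul]
    ring
  rw [h2] at h
  have h3 : 0 ≤ V * (V * (∫ x, F x ^ 2 ∂ν) - I ^ 2) := by nlinarith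
  rcases hV0.eq_or_lt with h0 | h0
  · have : ν = 0 := by
      rw [← Measure.measure_univ_eq_zero]
      have := h0.symm
      rw [hV, Measure.real, ENNReal.toReal_eq_zero_iff] at this
      rcases this with h | h
      · exact h
      · exact absurd h (measure_ne_top _ _)
    rw [hI, this]
    simp
  · nlinarith [nonneg_of_mul_nonneg_right h3 h0]

/-- Cauchy–Schwarz -/
lemma integral_mul_sq_le {α : Type*} [MeasurableSpace α] {ν : Measure α} [IsFiniteMeasure ν]
    {F G : α → ℝ} (hF : Measurable F) (hFb : Bd F) (hG : Measurable G) (hGb : Bd G) :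
    (∫ x, F x * G x ∂ν) ^ 2 ≤ (∫ x, F x ^ 2 ∂ν) * ∫ x, G x ^ 2 ∂ν := by
  have i1 : Integrable (fun x => F x ^ 2) ν := integrable_bd (hF.pow_const 2) hFb.sq
  have i2 : Integrable (fun x => G x ^ 2) ν := integrable_bd (hG.pow_const 2) hGb.sq
  have i3 : Integrable (fun x => F x * G x) ν := integrable_bd (hF.mul hG) (hFb.mul hGb)
  set a := ∫ x, F x ^ 2 ∂ν with ha
  set b := ∫ x, G x ^ 2 ∂ν with hb
  set c := ∫ x, F x * G x ∂ν with hc
  have ha0 : 0 ≤ a := integral_nonneg fun x => sq_nonneg _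
  have hb0 : 0 ≤ b := integral_nonneg fun x => sq_nonneg _
  have key : ∀ s t : ℝ, 0 ≤ s ^ 2 * a + 2 * s * t * c + t ^ 2 * b := by
    intro s t
    have h : 0 ≤ ∫ x, (s * F x + t * G x) ^ 2 ∂ν := integral_nonneg fun x => sq_nonneg _
    have e : ∀ x, (s * F x + t * G x) ^ 2 = s ^ 2 * F x ^ 2 + 2 * s * t * (F x * G x) + t ^ 2 * G x ^ 2 :=
      fun x => by ring
    simp_rw [e] at h
    have i4 : Integrable (fun x => s ^ 2 * F x ^ 2 + 2 * s * t * (F x * G x)) ν :=
      (i1.const_mul _).add (i3.const_mul _)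
    rw [integral_add i4 (i2.const_mul _),
      integral_add (i1.const_mul _) (i3.const_mul _), integral_const_mul, integral_const_mul,
      integral_const_mul] at h
    exact h
  have h1 := key c (-a)
  have h2 := key b (-c)
  have h3 := key 1 (-c)
  by_cases ha1 : a = 0
  · by_cases hb1 : b = 0
    · have h4 := key 1 1
      have h5 := key 1 (-1)
      rw [ha1, hb1] at h4 h5 ⊢
      have : c = 0 := by linarith
      rw [this]; simp
    · rw [ha1] at h2 ⊢
      have hb2 : 0 < b := lt_of_le_of_ne hb0 (Ne.symm hb1)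
      nlinarith
  · have ha2 : 0 < a := lt_of_le_of_ne ha0 (Ne.symm ha1)
    have h6 : 0 ≤ a * (a * b - c ^ 2) := by nlinarith
    nlinarith [nonneg_of_mul_nonneg_right h6 ha2]

end Pool.Agent.Helper37.Ball
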