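import Mathlib
import Pool.Agent.Helper37.Ball.Avg
set_option autoImplicit false
set_option linter.unusedSectionVars false
open MeasureTheory Filter Topology
open scoped ENNReal NNReal
namespace Pool.Agent.Helper37.Ball

variable [MeasurableSpace G2] [BorelSpace G2] {X : Type} [MeasurableSpace X] [MulAction G2 X]
  [MeasurableSMul₂ G2 X]
variable (m : Measure G2) [SFinite m] [m.IsMulRightInvariant] [m.IsInvInvariant]
variable (μ : Measure X) [IsProbabilityMeasure μ] [SMulInvariantMeasure G2 X μ]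

/-- real ball averages -/
noncomputable def AA (z : ℝ) (F : X → ℝ) (x : X) : ℝ := (z - 1)⁻¹ * ∫ g in B z, F (g • x) ∂m

lemma meas_act {F : X → ℝ} (hF : Measurable F) : Measurable fun p : X × G2 => F (p.2 • p.1) :=
  hF.comp (measurable_snd.smul measurable_fst)

lemma meas_act' {F : X → ℝ} (hF : Measurable F) (x : X) : Measurable fun g : G2 => F (g • x) :=
  hF.comp (measurable_id.smul measurable_const)

lemma meas_act'' {F : X → ℝ} (hF : Measurable F) (g : G2) : Measurable fun x : X => F (g • x) :=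
  hF.comp (measurable_const_smul g)

lemma integral_smul_eq (g : G2) {F : X → ℝ} (hF : Measurable F) :
    ∫ x, F (g • x) ∂μ = ∫ x, F x ∂μ := by
  have hmp := measurePreserving_smul g μ
  rw [← hmp.map_eq, integral_map hmp.measurable.aemeasurable hF.aestronglyMeasurable, hmp.map_eq]

lemma measurable_AA (z : ℝ) {F : X → ℝ} (hF : Measurable F) : Measurable (AA m z F) := by
  unfold AA
  refine Measurable.const_mul ?_ _
  exact ((meas_act hF).stronglyMeasurable.integral_prod_right').measurable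

variable {m}

lemma finB (hV : Vol m 1) (z : ℝ) : IsFiniteMeasure (m.restrict (B z)) := by
  refine ⟨?_⟩
  rw [Measure.restrict_apply_univ, hV]
  exact ENNReal.mul_lt_top (by simp) ENNReal.ofReal_lt_top

lemma realB (hV : Vol m 1) {z : ℝ} (hz : 1 ≤ z) : (m.restrict (B z)).real Set.univ = z - 1 := by
  rw [Measure.real, Measure.restrict_apply_univ, hV, one_mul, ENNReal.toReal_ofReal (by linarith)]

lemma AA_bd (hV : Vol m 1) {z : ℝ} (hz : 1 < z) {F : X → ℝ} {b : ℝ} (hb : ∀ x, |F x| ≤ b) (x : X) :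
    |AA m z F x| ≤ b := by
  have := finB hV z
  have hz1 : 0 < z - 1 := by linarith
  unfold AA
  rw [abs_mul, abs_of_pos (inv_pos.mpr hz1)]
  have h : |∫ g in B z, F (g • x) ∂m| ≤ b * (z - 1) := by
    have := norm_integral_le_of_norm_le_const (μ := m.restrict (B z)) (f := fun g => F (g • x))
      (C := b) (ae_of_all _ fun g => hb _)
    rwa [realB hV hz.le, Real.norm_eq_abs] at this
  calc (z - 1)⁻¹ * |∫ g in B z, F (g • x) ∂m| ≤ (z - 1)⁻¹ * (b * (z - 1)) := by gcongr
    _ = b := by field_simp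

lemma Bd_AA (hV : Vol m 1) {z : ℝ} (hz : 1 < z) {F : X → ℝ} (hb : Bd F) : Bd (AA m z F) := by
  obtain ⟨b, hb⟩ := hb
  exact ⟨b, AA_bd hV hz hb⟩

lemma integral_AA (hV : Vol m 1) {z : ℝ} (hz : 1 < z) {F : X → ℝ} (hF : Measurable F) (hb : Bd F) :
    ∫ x, AA m z F x ∂μ = ∫ x, F x ∂μ := by
  have := finB hV z
  have hz1 : 0 < z - 1 := by linarith
  unfold AA
  rw [integral_const_mul, integral_integral_swap (f := fun x g => F (g • x))
    (integrable_bd (meas_act hF) (hb.comp _))]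
  simp_rw [integral_smul_eq μ _ hF]
  rw [integral_const, realB hV hz.le, smul_eq_mul, ← mul_assoc, inv_mul_cancel₀ hz1.ne', one_mul]

lemma AA_sq_le (hV : Vol m 1) {z : ℝ} (hz : 1 < z) {F : X → ℝ} (hF : Measurable F) (hb : Bd F) (x : X) :
    (AA m z F x) ^ 2 ≤ AA m z (fun y => F y ^ 2) x := by
  have := finB hV z
  have hz1 : 0 < z - 1 := by linarith
  have h := sq_integral_le (ν := m.restrict (B z)) (meas_act' hF x) (hb.comp _)
  rw [realB hV hz.le] at h
  unfold AA
  rw [mul_pow]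
  calc ((z - 1)⁻¹) ^ 2 * (∫ g in B z, F (g • x) ∂m) ^ 2
      ≤ ((z - 1)⁻¹) ^ 2 * ((z - 1) * ∫ g in B z, F (g • x) ^ 2 ∂m) := by gcongr
    _ = (z - 1)⁻¹ * ∫ g in B z, F (g • x) ^ 2 ∂m := by field_simp

lemma integral_AA_sq_le (hV : Vol m 1) {z : ℝ} (hz : 1 < z) {F : X → ℝ} (hF : Measurable F)
    (hb : Bd F) : ∫ x, (AA m z F x) ^ 2 ∂μ ≤ ∫ x, F x ^ 2 ∂μ := by
  rw [← integral_AA μ hV hz (hF.pow_const 2) hb.sq]
  apply integral_mono
  · exact integrable_bd ((measurable_AA m z hF).pow_const 2) (Bd_AA hV hz hb).sq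
  · exact integrable_bd (measurable_AA m z (hF.pow_const 2)) (Bd_AA hV hz hb.sq)
  · exact fun x => AA_sq_le hV hz hF hb x

/-- change of variables on the right, over a ball -/
lemma setInt_right (z : ℝ) (h : G2) (φ : G2 → ℝ) :
    ∫ g in B z, φ (g * h) ∂m = ∫ g, (B z).indicator 1 (g * h⁻¹) * φ g ∂m := by
  rw [← integral_indicator (measurableSet_B z)]
  refine Eq.trans ?_ (integral_mul_right_eq_self (μ := m)
    (fun g => (B z).indicator 1 (g * h⁻¹) * φ g) h)
  congr 1
  funext g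
  rw [mul_inv_cancel_right]
  by_cases hg : g ∈ B z
  · rw [Set.indicator_of_mem hg, Set.indicator_of_mem hg, Pi.one_apply, one_mul]
  · rw [Set.indicator_of_notMem hg, Set.indicator_of_notMem hg, zero_mul]

lemma setInt_ind (z : ℝ) (φ : G2 → ℝ) :
    ∫ g in B z, φ g ∂m = ∫ g, (B z).indicator 1 g * φ g ∂m := by
  rw [← integral_indicator (measurableSet_B z)]
  congr 1
  funext g
  by_cases hg : g ∈ B z
  · rw [Set.indicator_of_mem hg, Set.indicator_of_mem hg, Pi.one_apply, one_mul]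
  · rw [Set.indicator_of_notMem hg, Set.indicator_of_notMem hg, zero_mul]

lemma setInt_rot (z : ℝ) (θ : UnitAddCircle) (φ : G2 → ℝ) :
    ∫ g in B z, φ (g * kr θ) ∂m = ∫ g in B z, φ g ∂m := by
  rw [setInt_right, setInt_ind]
  congr 1
  funext g
  have h : g * (kr θ)⁻¹ ∈ B z ↔ g ∈ B z := by
    show u (g * (kr θ)⁻¹) < z ↔ u g < z
    rw [← kr_neg, u_mul_kr]
  congr 1
  by_cases hg : g ∈ B z
  · rw [Set.indicator_of_mem hg, Set.indicator_of_mem (h.mpr hg)]; rfl
  · rw [Set.indicator_of_notMem hg, Set.indicator_of_notMem (fun h' => hg (h.mp h'))]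

lemma AA_K (z : ℝ) (F : X → ℝ) (θ : UnitAddCircle) (x : X) : AA m z F (kr θ • x) = AA m z F x := by
  unfold AA
  congr 1
  have h := setInt_rot (m := m) z θ (fun g => F (g • x))
  rw [← h]
  congr 1
  funext g
  rw [mul_smul]

end Pool.Agent.Helper37.Ball
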