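import Mathlib
import Pool.Agent.Helper37.Ball.Kernel
set_option autoImplicit false
set_option linter.unusedSectionVars false
open MeasureTheory Filter Topology
open scoped ENNReal NNReal
namespace Pool.Agent.Helper37.Ball

instance probCircle : IsProbabilityMeasure (volume : Measure UnitAddCircle) :=
  ⟨UnitAddCircle.measure_univ⟩

/-- cosine and sine coordinates -/
noncomputable def ccos (θ : UnitAddCircle) : ℝ := ((AddCircle.toCircle θ : Circle) : ℂ).re
noncomputable def csin (θ : UnitAddCircle) : ℝ := ((AddCircle.toCircle θ : Circle) : ℂ).im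

lemma continuous_ccos : Continuous ccos :=
  Complex.continuous_re.comp (continuous_subtype_val.comp AddCircle.continuous_toCircle)

lemma continuous_csin : Continuous csin :=
  Complex.continuous_im.comp (continuous_subtype_val.comp AddCircle.continuous_toCircle)

lemma ccos_sq_add (θ : UnitAddCircle) : ccos θ ^ 2 + csin θ ^ 2 = 1 := circle_sq _

lemma csin_coe (x : ℝ) : csin (x : UnitAddCircle) = Real.sin (2 * Real.pi * x) := kr_im x

lemma small_csin {ρ : ℝ} (hρ : 0 ≤ ρ) :
    (volume : Measure UnitAddCircle) {θ | |csin θ| < ρ} ≤ ENNReal.ofReal ρ := by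
  have hS : MeasurableSet {θ : UnitAddCircle | |csin θ| < ρ} :=
    (isOpen_lt continuous_csin.abs continuous_const).measurableSet
  rw [← lintegral_indicator_one hS, ← UnitAddCircle.lintegral_preimage (-1 / 4)]
  have hpi := Real.pi_pos
  have hsub : ∀ x ∈ Set.Ioc (-1 / 4 : ℝ) (-1 / 4 + 1),
      ({θ : UnitAddCircle | |csin θ| < ρ}.indicator (1 : UnitAddCircle → ℝ≥0∞) (x : UnitAddCircle)) ≤
        (Set.Ioo (-ρ / 4) (ρ / 4)).indicator 1 x + (Set.Ioo (1 / 2 - ρ / 4) (1 / 2 + ρ / 4)).indicator 1 x := by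
    intro x hx
    by_cases h : |csin (x : UnitAddCircle)| < ρ
    · have h' : (x : UnitAddCircle) ∈ {θ : UnitAddCircle | |csin θ| < ρ} := h
      rw [Set.indicator_of_mem h', Pi.one_apply]
      rw [csin_coe] at h
      rcases le_or_gt x (1 / 4) with h1 | h1
      · have h2 : |2 * Real.pi * x| ≤ Real.pi / 2 := by
          rw [abs_le]; constructor <;> nlinarith [hx.1]
        have h3 := Real.mul_abs_le_abs_sin h2
        have h4 : 2 / Real.pi * |2 * Real.pi * x| = 4 * |x| := by
          rw [abs_mul, abs_of_pos (by positivity : 0 < 2 * Real.pi)]; field_simp; ring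
        rw [h4] at h3
        have h5 : |x| < ρ / 4 := by linarith
        rw [abs_lt] at h5
        have h6 : x ∈ Set.Ioo (-ρ / 4) (ρ / 4) := ⟨by linarith [h5.1], h5.2⟩
        rw [Set.indicator_of_mem h6]
        exact le_self_add
      · have h2 : |2 * Real.pi * (x - 1 / 2)| ≤ Real.pi / 2 := by
          rw [abs_le]; constructor <;> nlinarith [hx.2]
        have h3 := Real.mul_abs_le_abs_sin h2
        have h4 : 2 / Real.pi * |2 * Real.pi * (x - 1 / 2)| = 4 * |x - 1 / 2| := by
          rw [abs_mul, abs_of_pos (by positivity : 0 < 2 * Real.pi)]; field_simp; ring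
        have h7 : |Real.sin (2 * Real.pi * (x - 1 / 2))| = |Real.sin (2 * Real.pi * x)| := by
          rw [show 2 * Real.pi * (x - 1 / 2) = 2 * Real.pi * x - Real.pi by ring, Real.sin_sub_pi, abs_neg]
        rw [h4, h7] at h3
        have h5 : |x - 1 / 2| < ρ / 4 := by linarith
        rw [abs_lt] at h5
        have h6 : x ∈ Set.Ioo (1 / 2 - ρ / 4) (1 / 2 + ρ / 4) := ⟨by linarith [h5.1], by linarith [h5.2]⟩
        rw [Set.indicator_of_mem h6]
        exact le_add_self
    · have h' : (x : UnitAddCircle) ∉ {θ : UnitAddCircle | |csin θ| < ρ} := h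
      rw [Set.indicator_of_notMem h']
      exact bot_le
  refine (setLIntegral_mono' measurableSet_Ioc hsub).trans ?_
  refine (setLIntegral_le_lintegral _ _).trans ?_
  rw [lintegral_add_left (measurable_one.indicator measurableSet_Ioo),
    lintegral_indicator_one measurableSet_Ioo, lintegral_indicator_one measurableSet_Ioo,
    Real.volume_Ioo, Real.volume_Ioo, ← ENNReal.ofReal_add (by linarith) (by linarith)]
  apply ENNReal.ofReal_le_ofReal
  linarith

/-- the elliptic-type integral -/
lemma J_le {t : ℝ} :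
    ∫ θ : UnitAddCircle, (√(ccos θ ^ 2 + Real.cosh (2 * t) * csin θ ^ 2))⁻¹ ≤ 3 * Real.exp (-t / 2) := by
  set c := Real.cosh (2 * t) with hc
  set ρ := Real.exp (-t / 2) with hρ
  have hρ0 : 0 < ρ := Real.exp_pos _
  have hc1 : 1 ≤ c := Real.one_le_cosh _
  have hcl : Real.exp (2 * t) / 2 ≤ c := by
    rw [hc, Real.cosh_eq]; linarith [Real.exp_pos (-(2 * t))]
  have hw1 : ∀ θ, 1 ≤ ccos θ ^ 2 + c * csin θ ^ 2 := by
    intro θ
    have := ccos_sq_add θ
    nlinarith [sq_nonneg (csin θ)]
  have hS : MeasurableSet {θ : UnitAddCircle | |csin θ| < ρ} :=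
    (isOpen_lt continuous_csin.abs continuous_const).measurableSet
  have hpt : ∀ θ, (√(ccos θ ^ 2 + c * csin θ ^ 2))⁻¹ ≤
      {θ : UnitAddCircle | |csin θ| < ρ}.indicator 1 θ + 2 * ρ := by
    intro θ
    by_cases h : |csin θ| < ρ
    · have h' : θ ∈ {θ : UnitAddCircle | |csin θ| < ρ} := h
      rw [Set.indicator_of_mem h', Pi.one_apply]
      have h1 : (√(ccos θ ^ 2 + c * csin θ ^ 2))⁻¹ ≤ 1 := by
        apply inv_le_one_of_one_le₀
        rw [Real.one_le_sqrt]
        exact hw1 θ
      linarith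
    · have h' : θ ∉ {θ : UnitAddCircle | |csin θ| < ρ} := h
      rw [Set.indicator_of_notMem h', zero_add]
      push Not at h
      have h1 : ρ ^ 2 ≤ csin θ ^ 2 := by
        rw [← sq_abs (csin θ)]
        exact pow_le_pow_left₀ hρ0.le h 2
      have e1 : ρ ^ 2 = Real.exp (-t) := by
        rw [hρ, exp_half_sq]
      have e2 : (1 / (2 * ρ)) ^ 2 ≤ ccos θ ^ 2 + c * csin θ ^ 2 := by
        have e3 : Real.exp (2 * t) = Real.exp t * Real.exp t := by rw [← Real.exp_add]; ring_nf
        have e4 : Real.exp t * Real.exp (-t) = 1 := by rw [← Real.exp_add]; simp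
        have e5 : (1 / (2 * ρ)) ^ 2 = Real.exp t / 4 := by
          rw [div_pow, mul_pow, e1, Real.exp_neg]; field_simp; norm_num
        have e6 : Real.exp t / 2 ≤ c * ρ ^ 2 := by
          calc Real.exp t / 2 = Real.exp (2 * t) / 2 * Real.exp (-t) := by rw [e3]; linear_combination (-(Real.exp t) / 2) * e4
            _ ≤ c * Real.exp (-t) := mul_le_mul_of_nonneg_right hcl (Real.exp_pos _).le
            _ = c * ρ ^ 2 := by rw [e1]
        have e7 : c * ρ ^ 2 ≤ c * csin θ ^ 2 := mul_le_mul_of_nonneg_left h1 (by linarith)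
        rw [e5]
        nlinarith [Real.exp_pos t, sq_nonneg (ccos θ)]
      have e8 : 1 / (2 * ρ) ≤ √(ccos θ ^ 2 + c * csin θ ^ 2) := Real.le_sqrt_of_sq_le e2
      calc (√(ccos θ ^ 2 + c * csin θ ^ 2))⁻¹ ≤ (1 / (2 * ρ))⁻¹ :=
            inv_anti₀ (by positivity) e8
        _ = 2 * ρ := by rw [one_div, inv_inv]
  have hcont : Continuous fun θ : UnitAddCircle => ccos θ ^ 2 + c * csin θ ^ 2 := by
    have := continuous_ccos
    have := continuous_csin
    fun_prop
  have hmeas : Measurable fun θ : UnitAddCircle => (√(ccos θ ^ 2 + c * csin θ ^ 2))⁻¹ :=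
    (hcont.measurable.sqrt).inv
  have hint : Integrable (fun θ : UnitAddCircle => (√(ccos θ ^ 2 + c * csin θ ^ 2))⁻¹) volume := by
    refine Integrable.of_bound hmeas.aestronglyMeasurable 1 (ae_of_all _ fun θ => ?_)
    rw [Real.norm_of_nonneg (by positivity)]
    apply inv_le_one_of_one_le₀
    rw [Real.one_le_sqrt]
    exact hw1 θ
  have hindi : Integrable ({θ : UnitAddCircle | |csin θ| < ρ}.indicator (1 : UnitAddCircle → ℝ)) volume :=
    (integrable_const (1 : ℝ)).indicator hS
  calc ∫ θ : UnitAddCircle, (√(ccos θ ^ 2 + c * csin θ ^ 2))⁻¹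
      ≤ ∫ θ : UnitAddCircle, ({θ : UnitAddCircle | |csin θ| < ρ}.indicator 1 θ + 2 * ρ) :=
        integral_mono hint (hindi.add (integrable_const _)) hpt
    _ = (volume : Measure UnitAddCircle).real {θ : UnitAddCircle | |csin θ| < ρ} + 2 * ρ := by
        rw [integral_add hindi (integrable_const _), integral_indicator_one hS]
        simp
    _ ≤ ρ + 2 * ρ := by
        gcongr
        exact ENNReal.toReal_le_of_le_ofReal hρ0.le (small_csin hρ0.le)
    _ = 3 * ρ := by ring

end Pool.Agent.Helper37.Ball
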