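import Mathlib
import Pool.Agent.Helper37.Ball.Avg2
set_option autoImplicit false
set_option linter.unusedSectionVars false
open MeasureTheory Filter Topology
open scoped ENNReal NNReal
namespace Pool.Agent.Helper37.Ball

/-- the thin shell around the sphere of height `η` -/
def Sh (η δ : ℝ) : Set G2 := B (η * Real.exp δ) \ B (η * Real.exp (-δ))

lemma u_mul_dg_neg_le (g : G2) {δ : ℝ} (hδ : 0 ≤ δ) : u (g * (dg δ)⁻¹) ≤ Real.exp δ * u g := by
  have h := u_mul_le_om g (dg δ)⁻¹
  rwa [u_inv, u_dg, om_cosh δ hδ] at h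

/-- difference of the two indicator functions -/
noncomputable def psi (η δ : ℝ) (g : G2) : ℝ :=
  (B η).indicator 1 (g * (dg δ)⁻¹) - (B η).indicator 1 g

lemma psi_abs_le {η δ : ℝ} (hη : 0 < η) (hδ : 0 ≤ δ) (g : G2) :
    |psi η δ g| ≤ (Sh η δ).indicator 1 g := by
  have e1 : 1 ≤ Real.exp δ := Real.one_le_exp hδ
  have e2 : Real.exp (-δ) ≤ 1 := by rw [Real.exp_le_one_iff]; linarith
  have e3 : Real.exp δ * Real.exp (-δ) = 1 := by rw [← Real.exp_add]; simp
  have u1 := u_mul_dg_neg_le g hδ
  have u2 : u g ≤ Real.exp δ * u (g * (dg δ)⁻¹) := by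
    have := u_mul_dg_le (g * (dg δ)⁻¹) δ hδ
    rwa [inv_mul_cancel_right] at this
  unfold psi
  by_cases h1 : g * (dg δ)⁻¹ ∈ B η
  · by_cases h2 : g ∈ B η
    · rw [Set.indicator_of_mem h1, Set.indicator_of_mem h2]
      simp only [Pi.one_apply, sub_self, abs_zero]
      exact Set.indicator_nonneg (fun _ _ => zero_le_one) _
    · have h3 : g ∈ Sh η δ := by
        have h1' : u (g * (dg δ)⁻¹) < η := h1
        have h2' : η ≤ u g := not_lt.mp h2
        refine ⟨?_, ?_⟩
        · show u g < η * Real.exp δ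
          nlinarith [Real.exp_pos δ]
        · show ¬ u g < η * Real.exp (-δ)
          rw [not_lt]
          nlinarith
      rw [Set.indicator_of_mem h1, Set.indicator_of_notMem h2, Set.indicator_of_mem h3]
      simp
  · by_cases h2 : g ∈ B η
    · have h3 : g ∈ Sh η δ := by
        have h1' : η ≤ u (g * (dg δ)⁻¹) := not_lt.mp h1
        have h2' : u g < η := h2
        refine ⟨?_, ?_⟩
        · show u g < η * Real.exp δ
          nlinarith
        · show ¬ u g < η * Real.exp (-δ)
          rw [not_lt]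
          calc η * Real.exp (-δ) ≤ (Real.exp δ * u g) * Real.exp (-δ) :=
                mul_le_mul_of_nonneg_right (h1'.trans u1) (Real.exp_pos _).le
            _ = (Real.exp δ * Real.exp (-δ)) * u g := by ring
            _ = u g := by rw [e3, one_mul]
      rw [Set.indicator_of_notMem h1, Set.indicator_of_mem h2, Set.indicator_of_mem h3]
      simp
    · rw [Set.indicator_of_notMem h1, Set.indicator_of_notMem h2]
      simp only [sub_self, abs_zero]
      exact Set.indicator_nonneg (fun _ _ => zero_le_one) _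

variable [MeasurableSpace G2] [BorelSpace G2] {X : Type} [MeasurableSpace X] [MulAction G2 X]
  [MeasurableSMul₂ G2 X]
variable {m : Measure G2} [SFinite m] [m.IsMulRightInvariant] [m.IsInvInvariant]
variable (μ : Measure X) [IsProbabilityMeasure μ] [SMulInvariantMeasure G2 X μ]

lemma measurableSet_Sh (η δ : ℝ) : MeasurableSet (Sh η δ) :=
  (measurableSet_B _).diff (measurableSet_B _)

lemma measure_Sh_le (hV : Vol m 1) {η δ : ℝ} (hη : 0 < η) (hδ : 0 ≤ δ) :
    m (Sh η δ) ≤ ENNReal.ofReal (2 * η * Real.sinh δ) := by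
  have hsub : B (η * Real.exp (-δ)) ⊆ B (η * Real.exp δ) := by
    intro g hg
    have h1 : u g < η * Real.exp (-δ) := hg
    have h2 : Real.exp (-δ) ≤ Real.exp δ := Real.exp_le_exp.mpr (by linarith)
    show u g < η * Real.exp δ
    nlinarith
  unfold Sh
  rw [measure_sdiff hsub (measurableSet_B _).nullMeasurableSet (by
    rw [hV, one_mul]; exact ENNReal.ofReal_ne_top), hV, hV, one_mul, one_mul, tsub_le_iff_right]
  refine le_trans ?_ (ENNReal.ofReal_add_le)
  apply ENNReal.ofReal_le_ofReal
  rw [Real.sinh_eq]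
  linarith

lemma measurable_psi (η δ : ℝ) : Measurable (psi η δ) := by
  have h1 : Measurable ((B η).indicator (1 : G2 → ℝ)) := measurable_one.indicator (measurableSet_B η)
  have h2 : Measurable fun g : G2 => (B η).indicator (1 : G2 → ℝ) (g * (dg δ)⁻¹) :=
    h1.comp (measurable_mul_const _)
  exact h2.sub h1

/-- The smoothing operator gives Lipschitz functions along the diagonal group, in `L²`. -/
lemma AA_diff (hV : Vol m 1) {η δ : ℝ} (hη : 1 < η) (hδ : 0 ≤ δ) {F : X → ℝ} (hF : Measurable F)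
    (hb : Bd F) :
    ∫ x, (AA m η F (dg δ • x) - AA m η F x) ^ 2 ∂μ ≤
      (2 * η / (η - 1) * Real.sinh δ) ^ 2 * ∫ x, F x ^ 2 ∂μ := by
  have hη0 : 0 < η := by linarith
  have hη1 : 0 < η - 1 := by linarith
  have hsinh : 0 ≤ Real.sinh δ := Real.sinh_nonneg_iff.mpr hδ
  have hfinSh : IsFiniteMeasure (m.restrict (Sh η δ)) := by
    refine ⟨?_⟩
    rw [Measure.restrict_apply_univ]
    exact lt_of_le_of_lt (measure_Sh_le hV hη0 hδ) ENNReal.ofReal_lt_top
  have hreal : (m.restrict (Sh η δ)).real Set.univ ≤ 2 * η * Real.sinh δ := by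
    rw [Measure.real, Measure.restrict_apply_univ]
    exact ENNReal.toReal_le_of_le_ofReal (by positivity) (measure_Sh_le hV hη0 hδ)
  have hreal0 : 0 ≤ (m.restrict (Sh η δ)).real Set.univ := measureReal_nonneg
  have hpsi1 : ∀ g, |psi η δ g| ≤ 1 := fun g =>
    (psi_abs_le hη0 hδ g).trans (Set.indicator_le_self' (fun _ _ => zero_le_one) g)
  have e1 : ∀ x, AA m η F (dg δ • x) - AA m η F x =
      (η - 1)⁻¹ * ∫ g in Sh η δ, psi η δ g * F (g • x) ∂m := by
    intro x
    have hfin := finB hV η
    unfold AA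
    rw [← mul_sub]
    congr 1
    have a1 : ∫ g in B η, F (g • dg δ • x) ∂m =
        ∫ g, (B η).indicator 1 (g * (dg δ)⁻¹) * F (g • x) ∂m := by
      rw [← setInt_right (m := m) η (dg δ) (fun g => F (g • x))]
      congr 1
      funext g
      rw [mul_smul]
    have a2 : ∫ g in B η, F (g • x) ∂m = ∫ g, (B η).indicator 1 g * F (g • x) ∂m :=
      setInt_ind η _
    have hint : ∀ {E : Set G2}, MeasurableSet E → m E ≠ ∞ →
        Integrable (fun g => E.indicator 1 g * F (g • x)) m := by
      intro E hE hEt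
      have : (fun g => E.indicator 1 g * F (g • x)) = E.indicator fun g => F (g • x) := by
        funext g
        by_cases hg : g ∈ E
        · rw [Set.indicator_of_mem hg, Set.indicator_of_mem hg, Pi.one_apply, one_mul]
        · rw [Set.indicator_of_notMem hg, Set.indicator_of_notMem hg, zero_mul]
      rw [this, integrable_indicator_iff hE]
      have : IsFiniteMeasure (m.restrict E) := ⟨by
        rw [Measure.restrict_apply_univ]; exact hEt.lt_top⟩
      exact integrable_bd (meas_act' hF x) (hb.comp _)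
    have hBt : m (B η) ≠ ∞ := by rw [hV, one_mul]; exact ENNReal.ofReal_ne_top
    have i2 : Integrable (fun g => (B η).indicator 1 g * F (g • x)) m := hint (measurableSet_B η) hBt
    have i1 : Integrable (fun g => (B η).indicator 1 (g * (dg δ)⁻¹) * F (g • x)) m := by
      have hE : MeasurableSet ((fun g : G2 => g * (dg δ)⁻¹) ⁻¹' (B η)) :=
        (measurable_mul_const _) (measurableSet_B η)
      have hEt : m ((fun g : G2 => g * (dg δ)⁻¹) ⁻¹' (B η)) ≠ ∞ := by
        rw [measure_preimage_mul_right]; exact hBt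
      exact hint hE hEt
    rw [a1, a2, ← integral_sub i1 i2]
    have a3 : ∀ g, (B η).indicator 1 (g * (dg δ)⁻¹) * F (g • x) - (B η).indicator 1 g * F (g • x) =
        psi η δ g * F (g • x) := fun g => by unfold psi; ring
    simp_rw [a3]
    symm
    apply setIntegral_eq_integral_of_forall_compl_eq_zero
    intro g hg
    have := psi_abs_le hη0 hδ g
    rw [Set.indicator_of_notMem hg] at this
    have h0 : psi η δ g = 0 := abs_nonpos_iff.mp this
    rw [h0, zero_mul]
  have e2 : ∀ x, (AA m η F (dg δ • x) - AA m η F x) ^ 2 ≤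
      (η - 1)⁻¹ ^ 2 * (2 * η * Real.sinh δ) * ∫ g in Sh η δ, F (g • x) ^ 2 ∂m := by
    intro x
    rw [e1, mul_pow]
    have hm : Measurable fun g : G2 => psi η δ g * F (g • x) := (measurable_psi η δ).mul (meas_act' hF x)
    have hbd : Bd fun g : G2 => psi η δ g * F (g • x) := Bd.mul ⟨1, hpsi1⟩ (hb.comp _)
    have h1 := sq_integral_le (ν := m.restrict (Sh η δ)) hm hbd
    have h2 : ∫ g in Sh η δ, (psi η δ g * F (g • x)) ^ 2 ∂m ≤ ∫ g in Sh η δ, F (g • x) ^ 2 ∂m := by
      apply integral_mono (integrable_bd (hm.pow_const 2) hbd.sq)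
        (integrable_bd ((meas_act' hF x).pow_const 2) (hb.comp _).sq)
      intro g
      dsimp only
      rw [mul_pow]
      have h3 : psi η δ g ^ 2 ≤ 1 := by
        rw [← sq_abs]
        have := hpsi1 g
        nlinarith [abs_nonneg (psi η δ g)]
      nlinarith [sq_nonneg (F (g • x))]
    have h4 : 0 ≤ ∫ g in Sh η δ, F (g • x) ^ 2 ∂m := integral_nonneg fun _ => sq_nonneg _
    calc (η - 1)⁻¹ ^ 2 * (∫ g in Sh η δ, psi η δ g * F (g • x) ∂m) ^ 2
        ≤ (η - 1)⁻¹ ^ 2 * ((2 * η * Real.sinh δ) * ∫ g in Sh η δ, F (g • x) ^ 2 ∂m) := by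
          apply mul_le_mul_of_nonneg_left _ (sq_nonneg _)
          refine h1.trans ?_
          exact mul_le_mul hreal h2 (integral_nonneg fun _ => sq_nonneg _) (by positivity)
      _ = _ := by ring
  have hAm := measurable_AA m η hF
  have hAb := Bd_AA hV hη hb
  calc ∫ x, (AA m η F (dg δ • x) - AA m η F x) ^ 2 ∂μ
      ≤ ∫ x, (η - 1)⁻¹ ^ 2 * (2 * η * Real.sinh δ) * ∫ g in Sh η δ, F (g • x) ^ 2 ∂m ∂μ := by
        apply integral_mono _ _ e2
        · exact integrable_bd (((meas_act'' hAm _).sub hAm).pow_const 2) ((hAb.comp _).sub hAb).sq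
        · refine Integrable.const_mul ?_ _
          exact (integrable_bd (ν := μ.prod (m.restrict (Sh η δ)))
            ((meas_act hF).pow_const 2) (hb.comp _).sq).integral_prod_left
    _ = (η - 1)⁻¹ ^ 2 * (2 * η * Real.sinh δ) * ((m.restrict (Sh η δ)).real Set.univ * ∫ x, F x ^ 2 ∂μ) := by
        rw [integral_const_mul, integral_integral_swap (f := fun x g => F (g • x) ^ 2)
          (integrable_bd ((meas_act hF).pow_const 2) (hb.comp _).sq)]
        have : ∀ g : G2, ∫ x, F (g • x) ^ 2 ∂μ = ∫ x, F x ^ 2 ∂μ := fun g =>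
          integral_smul_eq μ g (hF.pow_const 2)
        simp_rw [this]
        rw [integral_const, smul_eq_mul]
    _ ≤ (η - 1)⁻¹ ^ 2 * (2 * η * Real.sinh δ) * ((2 * η * Real.sinh δ) * ∫ x, F x ^ 2 ∂μ) := by
        have : 0 ≤ ∫ x, F x ^ 2 ∂μ := integral_nonneg fun _ => sq_nonneg _
        gcongr
    _ = _ := by
        field_simp

end Pool.Agent.Helper37.Ball
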