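import Mathlib
import Pool.Agent.Helper37.Ball.Lip
import Pool.Agent.Helper37.Ball.Circ
set_option autoImplicit false
set_option linter.unusedSectionVars false
open MeasureTheory Filter Topology
open scoped ENNReal NNReal
namespace Pool.Agent.Helper37.Ball

lemma mmulR {α : Type*} [MeasurableSpace α] {f g : α → ℝ} (hf : Measurable f)
    (hg : Measurable g) : Measurable fun a => f a * g a := hf.mul hg

lemma msubR {α : Type*} [MeasurableSpace α] {f g : α → ℝ} (hf : Measurable f)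
    (hg : Measurable g) : Measurable fun a => f a - g a := hf.sub hg

/-- the hyperbolic displacement -/
noncomputable def tt (g : G2) : ℝ := Real.log (om (u g))

lemma tt_eq {g : G2} {θ φ : UnitAddCircle} {t : ℝ} (ht : 0 ≤ t) (h : g = kr θ * dg t * kr φ) :
    tt g = t := by
  rw [h, tt, u_mul_kr, u_kr_mul, u_dg, om_cosh t ht, Real.log_exp]

lemma exists_tt (g : G2) : ∃ θ φ : UnitAddCircle, 0 ≤ tt g ∧ g = kr θ * dg (tt g) * kr φ := by
  obtain ⟨θ, φ, t, ht, h⟩ := cartan' g
  have := tt_eq ht h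
  exact ⟨θ, φ, by rw [this]; exact ht, by rw [this]; exact h⟩

lemma tt_nonneg (g : G2) : 0 ≤ tt g := (exists_tt g).choose_spec.choose_spec.1

lemma cosh_tt (g : G2) : Real.cosh (tt g) = u g := by
  obtain ⟨θ, φ, -, h⟩ := exists_tt g
  conv_rhs => rw [h]
  rw [u_mul_kr, u_kr_mul, u_dg]

lemma measurable_tt [MeasurableSpace G2] [BorelSpace G2] : Measurable tt := by
  unfold tt om
  have := measurable_u
  exact ((this.add ((this.pow_const 2).sub_const 1).sqrt)).log

variable [MeasurableSpace G2] [BorelSpace G2] {X : Type} [MeasurableSpace X] [MulAction G2 X]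
  [MeasurableSMul₂ G2 X]
variable (μ : Measure X) [IsProbabilityMeasure μ] [SMulInvariantMeasure G2 X μ]

/-- smoothed functions -/
structure SM (H : X → ℝ) (N L : ℝ) : Prop where
  meas : Measurable H
  bd : Bd H
  K : ∀ (θ : UnitAddCircle) (x : X), H (kr θ • x) = H x
  N0 : 0 ≤ N
  L1 : 1 ≤ L
  sq : ∫ x, H x ^ 2 ∂μ ≤ N
  lip : ∀ δ, 0 ≤ δ → ∫ x, (H (dg δ • x) - H x) ^ 2 ∂μ ≤ (L * Real.sinh δ) ^ 2 * N

/-- correlation function -/
noncomputable def cor (H : X → ℝ) (g : G2) : ℝ := ∫ x, H x * H (g • x) ∂μ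

variable {μ}
variable {H : X → ℝ} {N L : ℝ}

lemma SM.cor_K (hS : SM μ H N L) (θ φ : UnitAddCircle) (g : G2) :
    cor μ H (kr θ * g * kr φ) = cor μ H g := by
  unfold cor
  have h1 : ∀ x, H x * H ((kr θ * g * kr φ) • x) = (fun y => H y * H (g • y)) (kr φ • x) := by
    intro x
    rw [mul_smul, mul_smul, hS.K]
    dsimp only
    rw [hS.K φ x]
  simp_rw [h1]
  exact integral_smul_eq μ (kr φ) (hS.meas.mul (meas_act'' hS.meas g))

lemma SM.cor_tt (hS : SM μ H N L) (g : G2) : cor μ H g = cor μ H (dg (tt g)) := by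
  obtain ⟨θ, φ, -, h⟩ := exists_tt g
  conv_lhs => rw [h]
  exact hS.cor_K θ φ _

lemma SM.sq_smul (hS : SM μ H N L) (g : G2) : ∫ x, H (g • x) ^ 2 ∂μ ≤ N := by
  rw [integral_smul_eq μ g (F := fun x => H x ^ 2) (hS.meas.pow_const 2)]
  exact hS.sq

lemma abs_le_of_sq_le_mul {a N : ℝ} (hN : 0 ≤ N) (h : a ^ 2 ≤ N ^ 2) : |a| ≤ N :=
  abs_le_of_sq_le_sq h hN

lemma SM.cor_abs_le (hS : SM μ H N L) (g : G2) : |cor μ H g| ≤ N := by
  apply abs_le_of_sq_le_mul hS.N0
  have h := integral_mul_sq_le (ν := μ) hS.meas hS.bd (meas_act'' hS.meas g) (hS.bd.comp _)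
  calc (cor μ H g) ^ 2 ≤ (∫ x, H x ^ 2 ∂μ) * ∫ x, H (g • x) ^ 2 ∂μ := h
    _ ≤ N * N := mul_le_mul hS.sq (hS.sq_smul g) (integral_nonneg fun _ => sq_nonneg _) hS.N0
    _ = N ^ 2 := by ring

/-- Lipschitz bound along the diagonal group -/
lemma SM.cor_diff (hS : SM μ H N L) {t t' : ℝ} (h : t' ≤ t) :
    |cor μ H (dg t) - cor μ H (dg t')| ≤ L * Real.sinh (t - t') * N := by
  have hδ : 0 ≤ t - t' := by linarith
  have hsinh : 0 ≤ Real.sinh (t - t') := Real.sinh_nonneg_iff.mpr hδ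
  have hL : 0 ≤ L := by linarith [hS.L1]
  apply abs_le_of_sq_le_mul (by have := hS.N0; positivity)
  have m1 := meas_act'' hS.meas (dg t)
  have m2 := meas_act'' hS.meas (dg t')
  have e1 : cor μ H (dg t) - cor μ H (dg t') = ∫ x, H x * (H (dg t • x) - H (dg t' • x)) ∂μ := by
    unfold cor
    rw [← integral_sub (integrable_bd (mmulR hS.meas m1) (hS.bd.mul (hS.bd.comp _)))
      (integrable_bd (mmulR hS.meas m2) (hS.bd.mul (hS.bd.comp _)))]
    congr 1
    funext x
    ring
  have e2 : ∫ x, (H (dg t • x) - H (dg t' • x)) ^ 2 ∂μ ≤ (L * Real.sinh (t - t')) ^ 2 * N := by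
    have h1 : ∀ x, (H (dg t • x) - H (dg t' • x)) ^ 2 =
        (fun y => (H (dg (t - t') • y) - H y) ^ 2) (dg t' • x) := by
      intro x
      dsimp only
      rw [smul_smul, ← dg_add, sub_add_cancel]
    simp_rw [h1]
    rw [integral_smul_eq μ (dg t') (F := fun y => (H (dg (t - t') • y) - H y) ^ 2)
      (((meas_act'' hS.meas _).sub hS.meas).pow_const 2)]
    exact hS.lip _ hδ
  rw [e1]
  calc (∫ x, H x * (H (dg t • x) - H (dg t' • x)) ∂μ) ^ 2
      ≤ (∫ x, H x ^ 2 ∂μ) * ∫ x, (H (dg t • x) - H (dg t' • x)) ^ 2 ∂μ :=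
        integral_mul_sq_le hS.meas hS.bd (m1.sub m2) ((hS.bd.comp _).sub (hS.bd.comp _))
    _ ≤ N * ((L * Real.sinh (t - t')) ^ 2 * N) :=
        mul_le_mul hS.sq e2 (integral_nonneg fun _ => sq_nonneg _) hS.N0
    _ = (L * Real.sinh (t - t') * N) ^ 2 := by ring

/-- Hölder bound in terms of the height -/
lemma SM.cor_holder (hS : SM μ H N L) (g g' : G2) (h : u g' ≤ u g) :
    |cor μ H g - cor μ H g'| ≤ 2 * L * N * √((u g - u g') / u g') := by
  have hN := hS.N0
  have hL := hS.L1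
  have hu' := u_pos g'
  set x := (u g - u g') / u g' with hx
  have hx0 : 0 ≤ x := div_nonneg (by linarith) hu'.le
  rcases le_or_gt x 1 with hx1 | hx1
  · rw [hS.cor_tt g, hS.cor_tt g']
    set t := tt g with ht
    set t' := tt g' with ht'
    have c1 : Real.cosh t = u g := cosh_tt g
    have c2 : Real.cosh t' = u g' := cosh_tt g'
    have ht0 : 0 ≤ t := tt_nonneg g
    have ht0' : 0 ≤ t' := tt_nonneg g'
    have hle : t' ≤ t := by
      have := Real.cosh_le_cosh.mp (by rw [c1, c2]; exact h : Real.cosh t' ≤ Real.cosh t)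
      rwa [abs_of_nonneg ht0, abs_of_nonneg ht0'] at this
    have hδ : 0 ≤ t - t' := by linarith
    refine (hS.cor_diff hle).trans ?_
    have k1 : Real.cosh (t - t') - 1 ≤ x := by
      rw [hx, le_div_iff₀ hu', ← c1, ← c2]
      have : Real.cosh t = Real.cosh (t - t') * Real.cosh t' + Real.sinh (t - t') * Real.sinh t' := by
        rw [← Real.cosh_add, sub_add_cancel]
      nlinarith [mul_nonneg (Real.sinh_nonneg_iff.mpr hδ) (Real.sinh_nonneg_iff.mpr ht0')]
    have k2 : Real.sinh (t - t') ^ 2 ≤ 3 * x := by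
      rw [Real.sinh_sq]
      have : 1 ≤ Real.cosh (t - t') := Real.one_le_cosh _
      nlinarith
    have k3 : Real.sinh (t - t') ≤ 2 * √x := by
      have : Real.sinh (t - t') ≤ √(3 * x) := Real.le_sqrt_of_sq_le k2
      refine this.trans ?_
      rw [Real.sqrt_le_left (by positivity), mul_pow, Real.sq_sqrt hx0]
      linarith
    calc L * Real.sinh (t - t') * N ≤ L * (2 * √x) * N := by gcongr
      _ = 2 * L * N * √x := by ring
  · have h1 : 1 ≤ √x := by rw [Real.one_le_sqrt]; exact hx1.le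
    have h2 : |cor μ H g - cor μ H g'| ≤ N + N :=
      (abs_sub _ _).trans (add_le_add (hS.cor_abs_le g) (hS.cor_abs_le g'))
    have h3 : 0 ≤ (L - 1) * N := mul_nonneg (by linarith) hN
    calc |cor μ H g - cor μ H g'| ≤ N + N := h2
      _ ≤ 2 * L * N * 1 := by nlinarith
      _ ≤ 2 * L * N * √x := by gcongr

lemma SM.measurable_cor (hS : SM μ H N L) : Measurable (cor μ H) := by
  have h : Measurable fun p : G2 × X => H p.2 * H (p.1 • p.2) :=
    (hS.meas.comp measurable_snd).mul (hS.meas.comp (measurable_fst.smul measurable_snd))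
  exact (h.stronglyMeasurable.integral_prod_right').measurable

end Pool.Agent.Helper37.Ball
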