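import Mathlib
import Pool.Agent.Helper37.Ball.Corr
set_option autoImplicit false
set_option linter.unusedSectionVars false
open MeasureTheory Filter Topology
open scoped ENNReal NNReal
namespace Pool.Agent.Helper37.Ball

variable [MeasurableSpace G2] [BorelSpace G2] {X : Type} [MeasurableSpace X] [MulAction G2 X]
  [MeasurableSMul₂ G2 X]

/-- spherical averages -/
noncomputable def ee (H : X → ℝ) (h : G2) (x : X) : ℝ := ∫ θ : UnitAddCircle, H ((h * kr θ) • x)

lemma meas_ee3 {H : X → ℝ} (hH : Measurable H) :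
    Measurable fun p : (G2 × X) × UnitAddCircle => H ((p.1.1 * kr p.2) • p.1.2) := by
  have hk : Measurable kr := continuous_kr.measurable
  exact hH.comp (((measurable_fst.comp measurable_fst).mul (hk.comp measurable_snd)).smul
    (measurable_snd.comp measurable_fst))

lemma measurable_ee_joint {H : X → ℝ} (hH : Measurable H) :
    Measurable fun p : G2 × X => ee H p.1 p.2 :=
  ((meas_ee3 hH).stronglyMeasurable.integral_prod_right').measurable

lemma measurable_ee {H : X → ℝ} (hH : Measurable H) (h : G2) : Measurable (ee H h) :=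
  (measurable_ee_joint hH).comp (measurable_const.prodMk measurable_id)

lemma meas_th {H : X → ℝ} (hH : Measurable H) (h : G2) (x : X) :
    Measurable fun θ : UnitAddCircle => H ((h * kr θ) • x) := by
  have hk : Measurable kr := continuous_kr.measurable
  exact hH.comp ((measurable_const.mul hk).smul measurable_const)

lemma ee_abs_le {H : X → ℝ} {b : ℝ} (hb : ∀ x, |H x| ≤ b) (h : G2) (x : X) : |ee H h x| ≤ b := by
  have := norm_integral_le_of_norm_le_const (μ := (volume : Measure UnitAddCircle))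
    (f := fun θ => H ((h * kr θ) • x)) (C := b) (ae_of_all _ fun g => hb _)
  rwa [Real.norm_eq_abs, Measure.real, measure_univ, ENNReal.toReal_one, mul_one] at this

lemma Bd_ee {H : X → ℝ} (hb : Bd H) (h : G2) : Bd (ee H h) := by
  obtain ⟨b, hb⟩ := hb
  exact ⟨b, ee_abs_le hb h⟩

lemma ee_mul_kr (H : X → ℝ) (h : G2) (φ : UnitAddCircle) (x : X) : ee H (h * kr φ) x = ee H h x := by
  unfold ee
  have e : ∀ θ, H ((h * kr φ * kr θ) • x) = (fun θ => H ((h * kr θ) • x)) (φ + θ) := by
    intro θ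
    dsimp only
    rw [kr_add, mul_assoc]
  simp_rw [e]
  exact integral_add_left_eq_self (μ := (volume : Measure UnitAddCircle))
    (fun θ => H ((h * kr θ) • x)) φ

lemma ee_K (H : X → ℝ) (h : G2) (φ : UnitAddCircle) (x : X) : ee H h (kr φ • x) = ee H h x := by
  unfold ee
  have e : ∀ θ, H ((h * kr θ) • kr φ • x) = (fun θ => H ((h * kr θ) • x)) (θ + φ) := by
    intro θ
    dsimp only
    rw [kr_add, smul_smul, mul_assoc]
  simp_rw [e]
  exact integral_add_right_eq_self (μ := (volume : Measure UnitAddCircle))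
    (fun θ => H ((h * kr θ) • x)) φ

variable {μ : Measure X} [IsProbabilityMeasure μ] [SMulInvariantMeasure G2 X μ]
variable {H : X → ℝ} {N L : ℝ}

lemma SM.ee_kr_mul (hS : SM μ H N L) (h : G2) (φ : UnitAddCircle) (x : X) :
    ee H (kr φ * h) x = ee H h x := by
  unfold ee
  congr 1
  funext θ
  rw [mul_assoc, mul_smul, hS.K]

lemma SM.ee_tt (hS : SM μ H N L) (h : G2) (x : X) : ee H h x = ee H (dg (tt h)) x := by
  obtain ⟨θ, φ, -, hh⟩ := exists_tt h
  conv_lhs => rw [hh]
  rw [ee_mul_kr, hS.ee_kr_mul]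

lemma ee_shift (H : X → ℝ) (h' h : G2) (θ : UnitAddCircle) (x : X) :
    ee H h' ((h * kr θ)⁻¹ • x) = ∫ φ : UnitAddCircle, H ((h' * kr φ * h⁻¹) • x) := by
  unfold ee
  have e : ∀ φ, H ((h' * kr φ) • (h * kr θ)⁻¹ • x) =
      (fun φ => H ((h' * kr φ * h⁻¹) • x)) (φ + (-θ)) := by
    intro φ
    dsimp only
    rw [smul_smul, kr_add, kr_neg]
    congr 2
    group
  simp_rw [e]
  exact integral_add_right_eq_self (μ := (volume : Measure UnitAddCircle))
    (fun φ => H ((h' * kr φ * h⁻¹) • x)) (-θ)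

variable (μ) in
/-- inner product of spherical averages -/
noncomputable def Ip (H : X → ℝ) (h h' : G2) : ℝ := ∫ x, ee H h x * ee H h' x ∂μ

lemma SM.Ip_eq (hS : SM μ H N L) (h h' : G2) :
    Ip μ H h h' = ∫ θ : UnitAddCircle, cor μ H (h' * kr θ * h⁻¹) := by
  have hk : Measurable kr := continuous_kr.measurable
  have hH := hS.meas
  have m1 := measurable_ee hH h'
  have b1 := Bd_ee hS.bd h'
  -- first swap
  have e1 : Ip μ H h h' = ∫ θ : UnitAddCircle, ∫ x, H ((h * kr θ) • x) * ee H h' x ∂μ := by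
    unfold Ip
    have a1 : ∀ x, ee H h x * ee H h' x = ∫ θ : UnitAddCircle, H ((h * kr θ) • x) * ee H h' x := by
      intro x
      rw [integral_mul_const]
      rfl
    simp_rw [a1]
    refine integral_integral_swap (f := fun x (θ : UnitAddCircle) => H ((h * kr θ) • x) * ee H h' x) ?_
    apply integrable_bd
    · exact (hH.comp ((measurable_const.mul (hk.comp measurable_snd)).smul measurable_fst)).mul
        (m1.comp measurable_fst)
    · obtain ⟨b, hb⟩ := hS.bd
      obtain ⟨c, hc⟩ := b1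
      exact Bd.mul ⟨b, fun p => hb _⟩ ⟨c, fun p => hc _⟩
  have e2 : ∀ θ : UnitAddCircle, ∫ x, H ((h * kr θ) • x) * ee H h' x ∂μ =
      ∫ x, H x * ∫ φ : UnitAddCircle, H ((h' * kr φ * h⁻¹) • x) ∂volume ∂μ := by
    intro θ
    have hm2 : Measurable fun x => H x * ee H h' ((h * kr θ)⁻¹ • x) :=
      mmulR hH (meas_act'' m1 _)
    have a2 : ∀ x, H ((h * kr θ) • x) * ee H h' x =
        (fun x => H x * ee H h' ((h * kr θ)⁻¹ • x)) ((h * kr θ) • x) := by
      intro x
      dsimp only
      rw [inv_smul_smul]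
    simp_rw [a2]
    rw [integral_smul_eq μ (h * kr θ) hm2]
    congr 1
    funext x
    rw [ee_shift]
  have e3 : ∫ x, H x * ∫ φ : UnitAddCircle, H ((h' * kr φ * h⁻¹) • x) ∂volume ∂μ =
      ∫ φ : UnitAddCircle, cor μ H (h' * kr φ * h⁻¹) := by
    have a3 : ∀ x, H x * ∫ φ : UnitAddCircle, H ((h' * kr φ * h⁻¹) • x) =
        ∫ φ : UnitAddCircle, H x * H ((h' * kr φ * h⁻¹) • x) := fun x => (integral_const_mul _ _).symm
    simp_rw [a3]
    refine integral_integral_swap
      (f := fun x (φ : UnitAddCircle) => H x * H ((h' * kr φ * h⁻¹) • x)) ?_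
    apply integrable_bd
    · exact (hH.comp measurable_fst).mul (hH.comp
        (((measurable_const.mul (hk.comp measurable_snd)).mul measurable_const).smul measurable_fst))
    · obtain ⟨b, hb⟩ := hS.bd
      exact Bd.mul ⟨b, fun p => hb _⟩ ⟨b, fun p => hb _⟩
  rw [e1]
  simp_rw [e2]
  rw [integral_const, e3]
  simp

lemma SM.Ip_self_nonneg (h : G2) : 0 ≤ Ip μ H h h := by
  unfold Ip
  exact integral_nonneg fun x => mul_self_nonneg _

lemma SM.Ip_tt (hS : SM μ H N L) (h h' : G2) : Ip μ H h h' = Ip μ H (dg (tt h)) (dg (tt h')) := by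
  unfold Ip
  congr 1
  funext x
  rw [hS.ee_tt h, hS.ee_tt h']

lemma SM.Ip_self_le (hS : SM μ H N L) (h : G2) : Ip μ H h h ≤ N := by
  rw [hS.Ip_eq]
  have hc := hS.measurable_cor
  have hk : Measurable kr := continuous_kr.measurable
  have h1 : ∫ θ : UnitAddCircle, cor μ H (h * kr θ * h⁻¹) ≤ ∫ _θ : UnitAddCircle, N := by
    apply integral_mono
    · exact integrable_bd (hc.comp ((measurable_const.mul hk).mul measurable_const))
        ⟨N, fun θ => hS.cor_abs_le _⟩
    · exact integrable_const _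
    · exact fun θ => (le_abs_self _).trans (hS.cor_abs_le _)
  refine h1.trans (le_of_eq ?_)
  simp

/-- the midpoint estimate -/
lemma SM.midpoint (hS : SM μ H N L) (t h : ℝ) (hh : 0 ≤ h) :
    |Ip μ H (dg (t + h)) (dg (t - h)) - Ip μ H (dg t) (dg t)| ≤
      12 * L * N * Real.sinh h * Real.exp (-t / 2) := by
  have hc := hS.measurable_cor
  have hk : Measurable kr := continuous_kr.measurable
  have hN := hS.N0
  have hL := hS.L1
  have hsinh : 0 ≤ Real.sinh h := Real.sinh_nonneg_iff.mpr hh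
  rw [hS.Ip_eq, hS.Ip_eq]
  have i1 : ∀ a b : G2, Integrable (fun θ : UnitAddCircle => cor μ H (a * kr θ * b)) volume := fun a b =>
    integrable_bd (hc.comp ((measurable_const.mul hk).mul measurable_const))
      ⟨N, fun θ => hS.cor_abs_le _⟩
  rw [← integral_sub (i1 _ _) (i1 _ _)]
  have hpt : ∀ θ : UnitAddCircle, |cor μ H (dg (t - h) * kr θ * (dg (t + h))⁻¹) -
      cor μ H (dg t * kr θ * (dg t)⁻¹)| ≤
      4 * L * N * Real.sinh h * (√(ccos θ ^ 2 + Real.cosh (2 * t) * csin θ ^ 2))⁻¹ := by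
    intro θ
    set w' := ccos θ ^ 2 + Real.cosh (2 * t) * csin θ ^ 2 with hw'
    have u1 : u (dg (t - h) * kr θ * (dg (t + h))⁻¹) =
        Real.cosh (2 * h) * ccos θ ^ 2 + Real.cosh (2 * t) * csin θ ^ 2 := by
      rw [← dg_neg, kr, u_dg_rot_dg]
      rw [show t - h - (t + h) = -(2 * h) by ring, show t - h + (t + h) = 2 * t by ring, Real.cosh_neg]
      rfl
    have u2 : u (dg t * kr θ * (dg t)⁻¹) = w' := by
      rw [← dg_neg, kr, u_dg_rot_dg, sub_self, Real.cosh_zero, one_mul,
        show t + t = 2 * t by ring]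
      rfl
    have hch : 1 ≤ Real.cosh (2 * h) := Real.one_le_cosh _
    have hcs := ccos_sq_add θ
    have hw'1 : 1 ≤ w' := by rw [← u2]; exact one_le_u _
    have hle : u (dg t * kr θ * (dg t)⁻¹) ≤ u (dg (t - h) * kr θ * (dg (t + h))⁻¹) := by
      rw [u1, u2, hw']
      nlinarith [sq_nonneg (ccos θ)]
    refine (hS.cor_holder _ _ hle).trans ?_
    have key : √((u (dg (t - h) * kr θ * (dg (t + h))⁻¹) - u (dg t * kr θ * (dg t)⁻¹)) /
        u (dg t * kr θ * (dg t)⁻¹)) ≤ 2 * Real.sinh h * (√w')⁻¹ := by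
      rw [Real.sqrt_le_left (by positivity), u1, u2, mul_pow, inv_pow, Real.sq_sqrt (by linarith),
        ← div_eq_mul_inv]
      apply div_le_div_of_nonneg_right _ (by linarith)
      have e1 : Real.cosh (2 * h) - 1 = 2 * Real.sinh h ^ 2 := by
        rw [Real.cosh_two_mul, Real.cosh_sq]; ring
      have e2 : ccos θ ^ 2 ≤ 1 := by nlinarith [sq_nonneg (csin θ)]
      have e3 : Real.cosh (2 * h) * ccos θ ^ 2 + Real.cosh (2 * t) * csin θ ^ 2 - w' =
          (Real.cosh (2 * h) - 1) * ccos θ ^ 2 := by rw [hw']; ring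
      rw [e3, e1]
      nlinarith [sq_nonneg (Real.sinh h), sq_nonneg (ccos θ)]
    calc 2 * L * N * √((u (dg (t - h) * kr θ * (dg (t + h))⁻¹) - u (dg t * kr θ * (dg t)⁻¹)) /
        u (dg t * kr θ * (dg t)⁻¹)) ≤ 2 * L * N * (2 * Real.sinh h * (√w')⁻¹) := by
          apply mul_le_mul_of_nonneg_left key (by positivity)
      _ = _ := by ring
  have hcont : Continuous fun θ : UnitAddCircle => ccos θ ^ 2 + Real.cosh (2 * t) * csin θ ^ 2 := by
    have := continuous_ccos
    have := continuous_csin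
    fun_prop
  have hint : Integrable (fun θ : UnitAddCircle =>
      (√(ccos θ ^ 2 + Real.cosh (2 * t) * csin θ ^ 2))⁻¹) volume := by
    refine Integrable.of_bound (hcont.measurable.sqrt.inv).aestronglyMeasurable 1
      (ae_of_all _ fun θ => ?_)
    rw [Real.norm_of_nonneg (by positivity)]
    apply inv_le_one_of_one_le₀
    rw [Real.one_le_sqrt]
    have := ccos_sq_add θ
    have hch : 1 ≤ Real.cosh (2 * t) := Real.one_le_cosh _
    nlinarith [sq_nonneg (csin θ)]
  calc |∫ θ : UnitAddCircle, (cor μ H (dg (t - h) * kr θ * (dg (t + h))⁻¹) -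
      cor μ H (dg t * kr θ * (dg t)⁻¹))|
      ≤ ∫ θ : UnitAddCircle, |cor μ H (dg (t - h) * kr θ * (dg (t + h))⁻¹) -
          cor μ H (dg t * kr θ * (dg t)⁻¹)| := abs_integral_le_integral_abs
    _ ≤ ∫ θ : UnitAddCircle,
          4 * L * N * Real.sinh h * (√(ccos θ ^ 2 + Real.cosh (2 * t) * csin θ ^ 2))⁻¹ :=
        integral_mono ((i1 _ _).sub (i1 _ _)).abs (hint.const_mul _) hpt
    _ = 4 * L * N * Real.sinh h *
          ∫ θ : UnitAddCircle, (√(ccos θ ^ 2 + Real.cosh (2 * t) * csin θ ^ 2))⁻¹ := by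
        rw [integral_const_mul]
    _ ≤ 4 * L * N * Real.sinh h * (3 * Real.exp (-t / 2)) := by
        apply mul_le_mul_of_nonneg_left J_le (by positivity)
    _ = _ := by ring

/-- approximate midpoint convexity -/
lemma SM.convex (hS : SM μ H N L) (t h : ℝ) (hh : 0 ≤ h) :
    Ip μ H (dg t) (dg t) ≤ (Ip μ H (dg (t + h)) (dg (t + h)) + Ip μ H (dg (t - h)) (dg (t - h))) / 2 +
      12 * L * N * Real.sinh h * Real.exp (-t / 2) := by
  have h1 := hS.midpoint t h hh
  have h2 := neg_le_of_abs_le h1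
  have m1 := measurable_ee hS.meas (dg (t + h))
  have m2 := measurable_ee hS.meas (dg (t - h))
  have b1 := Bd_ee hS.bd (dg (t + h))
  have b2 := Bd_ee hS.bd (dg (t - h))
  have h3 : 0 ≤ ∫ x, (ee H (dg (t + h)) x - ee H (dg (t - h)) x) ^ 2 ∂μ :=
    integral_nonneg fun _ => sq_nonneg _
  have e : ∀ x, (ee H (dg (t + h)) x - ee H (dg (t - h)) x) ^ 2 =
      (ee H (dg (t + h)) x * ee H (dg (t + h)) x - 2 * (ee H (dg (t + h)) x * ee H (dg (t - h)) x)) +
        ee H (dg (t - h)) x * ee H (dg (t - h)) x := fun x => by ring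
  simp_rw [e] at h3
  have i1 : Integrable (fun x => ee H (dg (t + h)) x * ee H (dg (t + h)) x) μ :=
    integrable_bd (mmulR m1 m1) (b1.mul b1)
  have i2 : Integrable (fun x => ee H (dg (t + h)) x * ee H (dg (t - h)) x) μ :=
    integrable_bd (mmulR m1 m2) (b1.mul b2)
  have i3 : Integrable (fun x => ee H (dg (t - h)) x * ee H (dg (t - h)) x) μ :=
    integrable_bd (mmulR m2 m2) (b2.mul b2)
  have i4 : Integrable (fun x => ee H (dg (t + h)) x * ee H (dg (t + h)) x -
      2 * (ee H (dg (t + h)) x * ee H (dg (t - h)) x)) μ := i1.sub (i2.const_mul 2)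
  rw [integral_add i4 i3, integral_sub i1 (i2.const_mul 2), integral_const_mul] at h3
  change 0 ≤ Ip μ H (dg (t + h)) (dg (t + h)) - 2 * Ip μ H (dg (t + h)) (dg (t - h)) +
    Ip μ H (dg (t - h)) (dg (t - h)) at h3
  linarith

end Pool.Agent.Helper37.Ball
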