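import Mathlib
set_option autoImplicit false
open Filter Topology
namespace Pool.Agent.Helper37.Ball

lemma geom_exp_le {h : ℝ} (hh : 0 < h) (n : ℕ) :
    h * ∑ j ∈ Finset.range n, Real.exp (-((j + 1 : ℕ) * h) / 2) ≤ 2 := by
  set r := Real.exp (-h / 2) with hr
  have hr0 : 0 < r := Real.exp_pos _
  have hr1 : r < 1 := by rw [hr, Real.exp_lt_one_iff]; linarith
  have e1 : ∀ j : ℕ, Real.exp (-((j + 1 : ℕ) * h) / 2) = r * r ^ j := by
    intro j
    rw [hr, ← Real.exp_nat_mul, ← Real.exp_add]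
    congr 1
    push_cast
    ring
  simp_rw [e1]
  rw [← Finset.mul_sum]
  have h1 : ∑ j ∈ Finset.range n, r ^ j ≤ (1 - r)⁻¹ := by
    rw [geom_sum_eq hr1.ne]
    have : (r ^ n - 1) / (r - 1) = (1 - r ^ n) * (1 - r)⁻¹ := by
      rw [← neg_sub (1 : ℝ) (r ^ n), ← neg_sub (1 : ℝ) r, neg_div_neg_eq, div_eq_mul_inv]
    rw [this]
    have h2 : 0 < r ^ n := by positivity
    have h3 : 0 < (1 - r)⁻¹ := inv_pos.mpr (by linarith)
    nlinarith
  have h2 : h * r ≤ 2 * (1 - r) := by
    have h3 : h / 2 + 1 ≤ Real.exp (h / 2) := Real.add_one_le_exp _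
    have h4 : Real.exp (h / 2) * r = 1 := by rw [hr, ← Real.exp_add]; ring_nf; simp
    nlinarith
  calc h * (r * ∑ j ∈ Finset.range n, r ^ j) ≤ h * (r * (1 - r)⁻¹) := by gcongr
    _ = (h * r) * (1 - r)⁻¹ := by ring
    _ ≤ (2 * (1 - r)) * (1 - r)⁻¹ := by
        apply mul_le_mul_of_nonneg_right h2 (inv_nonneg.mpr (by linarith))
    _ = 2 := by rw [mul_assoc, mul_inv_cancel₀ (by linarith), mul_one]

/-- bounded approximately convex functions are approximately decreasing -/
lemma approx_mono {A N : ℝ} (hA : 0 ≤ A) (hN : 0 ≤ N) {p : ℝ → ℝ} (h0 : ∀ t, 0 ≤ p t)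
    (h1 : ∀ t, p t ≤ N) {t h : ℝ} (ht : 0 ≤ t) (hh : 0 < h)
    (hi : ∀ s, 0 ≤ s → p (s + h) ≤ (p (s + 2 * h) + p s) / 2 + A * N * h * Real.exp (-(s + h) / 2)) :
    p (t + h) ≤ p t + 4 * A * N * Real.exp (-t / 2) := by
  set D : ℕ → ℝ := fun j => p (t + (j + 1 : ℕ) * h) - p (t + (j : ℕ) * h) with hD
  have hstep : ∀ j : ℕ, D j ≤ D (j + 1) + 2 * A * N * Real.exp (-t / 2) *
      (h * Real.exp (-((j + 1 : ℕ) * h) / 2)) := by
    intro j
    have h2 := hi (t + j * h) (by positivity)
    have e1 : t + (j : ℝ) * h + h = t + ((j + 1 : ℕ) : ℝ) * h := by push_cast; ring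
    have e2 : t + (j : ℝ) * h + 2 * h = t + ((j + 1 + 1 : ℕ) : ℝ) * h := by push_cast; ring
    rw [e1, e2] at h2
    have e3 : Real.exp (-(t + ((j + 1 : ℕ) : ℝ) * h) / 2) =
        Real.exp (-t / 2) * Real.exp (-((j + 1 : ℕ) * h) / 2) := by
      rw [← Real.exp_add]; congr 1; ring
    rw [e3] at h2
    simp only [hD]
    linarith
  have hsum : ∀ n : ℕ, D 0 ≤ D n + 2 * A * N * Real.exp (-t / 2) *
      (h * ∑ j ∈ Finset.range n, Real.exp (-((j + 1 : ℕ) * h) / 2)) := by
    intro n
    induction n with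
    | zero => simp
    | succ n ih =>
      rw [Finset.sum_range_succ]
      have := hstep n
      linarith
  set E := 4 * A * N * Real.exp (-t / 2) with hE
  have hDn : ∀ n : ℕ, D 0 ≤ D n + E := by
    intro n
    refine (hsum n).trans ?_
    have h3 := geom_exp_le hh n
    have h4 : 0 ≤ 2 * A * N * Real.exp (-t / 2) := by positivity
    have h5 := mul_le_mul_of_nonneg_left h3 h4
    rw [hE]
    linarith
  have htel : ∀ M : ℕ, ∑ n ∈ Finset.range M, D n = p (t + (M : ℕ) * h) - p t := by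
    intro M
    induction M with
    | zero => simp
    | succ M ih =>
      rw [Finset.sum_range_succ, ih]
      simp only [hD]
      ring
  have hM : ∀ M : ℕ, (M : ℝ) * (D 0 - E) ≤ N := by
    intro M
    have h3 : ∑ n ∈ Finset.range M, (D 0 - E) ≤ ∑ n ∈ Finset.range M, D n :=
      Finset.sum_le_sum fun n _ => by linarith [hDn n]
    rw [htel, Finset.sum_const, Finset.card_range, nsmul_eq_mul] at h3
    linarith [h1 (t + (M : ℕ) * h), h0 t]
  have hfin : D 0 - E ≤ 0 := by
    by_contra hneg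
    push Not at hneg
    obtain ⟨M, hM'⟩ := exists_nat_gt (N / (D 0 - E))
    rw [div_lt_iff₀ hneg] at hM'
    linarith [hM M]
  have : D 0 = p (t + h) - p t := by simp [hD]
  rw [this] at hfin
  linarith

/-- the decay lemma -/
lemma decay_lemma (A b δ : ℝ) (hA : 0 ≤ A) (hb : 0 < b) (hδ : 0 < δ) (hδ1 : δ ≤ 1) :
    ∃ κ C : ℝ, 0 < κ ∧ κ ≤ 1 / 2 ∧ 0 ≤ C ∧ ∀ (p : ℝ → ℝ) (N : ℝ), 0 ≤ N → (∀ t, 0 ≤ p t) →
      (∀ t, p t ≤ N) →
      (∀ t h, 0 ≤ t → 0 < h → h ≤ 2 * b →
        p (t + h) ≤ (p (t + 2 * h) + p t) / 2 + A * N * h * Real.exp (-(t + h) / 2)) →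
      (∀ t, 0 ≤ t → ∃ t', |t' - t| ≤ b ∧ 0 ≤ t' ∧ p t' ≤ (1 - δ) * p t + A * N * Real.exp (-t / 2)) →
      ∀ t, 0 ≤ t → p t ≤ C * N * Real.exp (-κ * t) := by
  set A' := A * (1 + 4 * Real.exp (b / 2)) with hA'
  have hA'0 : 0 ≤ A' := by positivity
  have hlog : 0 < Real.log (1 + δ / 2) := Real.log_pos (by linarith)
  set κ := min (1 / 2) (Real.log (1 + δ / 2) / b) with hκ
  have hκ0 : 0 < κ := lt_min (by norm_num) (div_pos hlog hb)
  have hκ2 : κ ≤ 1 / 2 := min_le_left _ _
  have hκb : Real.exp (κ * b) ≤ 1 + δ / 2 := by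
    rw [← Real.exp_log (show 0 < 1 + δ / 2 by linarith)]
    apply Real.exp_le_exp.mpr
    have : κ ≤ Real.log (1 + δ / 2) / b := min_le_right _ _
    rwa [le_div_iff₀ hb] at this
  set C := 2 + 4 * A' / δ with hC
  have hC0 : 0 ≤ C := by positivity
  refine ⟨κ, C, hκ0, hκ2, hC0, ?_⟩
  intro p N hN h0 h1 hi hii
  -- step 2
  have step2 : ∀ t, 0 ≤ t → p (t + b) ≤ (1 - δ) * p t + A' * N * Real.exp (-t / 2) := by
    intro t ht
    obtain ⟨t', ht'1, ht'0, ht'2⟩ := hii t ht
    rw [abs_le] at ht'1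
    have h3 : p (t + b) ≤ p t' + 4 * A * N * Real.exp (-t' / 2) := by
      rcases eq_or_lt_of_le (show t' ≤ t + b by linarith [ht'1.2]) with h | h
      · rw [h]
        have : 0 ≤ 4 * A * N * Real.exp (-(t + b) / 2) := by positivity
        linarith
      · have h4 := approx_mono hA hN h0 h1 (t := t') (h := t + b - t') ht'0 (by linarith)
          (fun s hs => hi s _ hs (by linarith) (by linarith [ht'1.1]))
        rwa [show t' + (t + b - t') = t + b by ring] at h4
    have h5 : Real.exp (-t' / 2) ≤ Real.exp (b / 2) * Real.exp (-t / 2) := by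
      rw [← Real.exp_add]
      apply Real.exp_le_exp.mpr
      linarith [ht'1.1]
    have h6 : 4 * A * N * Real.exp (-t' / 2) ≤ 4 * A * N * (Real.exp (b / 2) * Real.exp (-t / 2)) := by
      gcongr
    calc p (t + b) ≤ p t' + 4 * A * N * Real.exp (-t' / 2) := h3
      _ ≤ ((1 - δ) * p t + A * N * Real.exp (-t / 2)) +
            4 * A * N * (Real.exp (b / 2) * Real.exp (-t / 2)) := by linarith
      _ = _ := by rw [hA']; ring
  -- step 3
  have step3 : ∀ n : ℕ, ∀ t, 0 ≤ t → t ≤ (n + 1 : ℕ) * b → p t ≤ C * N * Real.exp (-κ * t) := by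
    intro n
    induction n with
    | zero =>
      intro t ht htb
      have h2 : (1 : ℝ) ≤ C * Real.exp (-κ * t) := by
        have h3 : Real.exp (κ * t) ≤ 2 := by
          calc Real.exp (κ * t) ≤ Real.exp (κ * b) := by
                apply Real.exp_le_exp.mpr
                simp only [zero_add, Nat.cast_one, one_mul] at htb
                nlinarith
            _ ≤ 1 + δ / 2 := hκb
            _ ≤ 2 := by linarith
        have h4 : Real.exp (κ * t) * Real.exp (-κ * t) = 1 := by rw [← Real.exp_add]; simp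
        have h5 : 0 < Real.exp (-κ * t) := Real.exp_pos _
        have h6 : 2 ≤ C := by rw [hC]; have : 0 ≤ 4 * A' / δ := by positivity
                              linarith
        nlinarith
      calc p t ≤ N := h1 t
        _ = N * 1 := (mul_one N).symm
        _ ≤ N * (C * Real.exp (-κ * t)) := by gcongr
        _ = _ := by ring
    | succ n ih =>
      intro t ht htb
      rcases le_or_gt t ((n + 1 : ℕ) * b) with h | h
      · exact ih t ht h
      · have hbt : 0 ≤ t - b := by
          have : b ≤ ((n + 1 : ℕ) : ℝ) * b := by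
            have : (1 : ℝ) ≤ ((n + 1 : ℕ) : ℝ) := by push_cast; linarith [Nat.cast_nonneg (α := ℝ) n]
            nlinarith
          linarith
        have htb' : t - b ≤ ((n + 1 : ℕ) : ℝ) * b := by
          have : ((n + 1 + 1 : ℕ) : ℝ) * b = ((n + 1 : ℕ) : ℝ) * b + b := by push_cast; ring
          linarith
        have h2 := ih (t - b) hbt htb'
        have h3 := step2 (t - b) hbt
        rw [sub_add_cancel] at h3
        have h4 : Real.exp (-(t - b) / 2) ≤ Real.exp (-κ * (t - b)) := by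
          apply Real.exp_le_exp.mpr
          nlinarith
        have h5 : Real.exp (-κ * (t - b)) = Real.exp (κ * b) * Real.exp (-κ * t) := by
          rw [← Real.exp_add]; congr 1; ring
        have h6 : Real.exp (κ * b) * ((1 - δ) * C + A') ≤ C := by
          have h7 : 0 ≤ (1 - δ) * C + A' := by
            have := mul_nonneg (show 0 ≤ 1 - δ by linarith) hC0
            linarith
          have h8 : Real.exp (κ * b) * ((1 - δ) * C + A') ≤ (1 + δ / 2) * ((1 - δ) * C + A') :=
            mul_le_mul_of_nonneg_right hκb h7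
          have h9 : δ * C = 2 * δ + 4 * A' := by rw [hC]; field_simp
          nlinarith
        have hp : 0 ≤ 1 - δ := by linarith
        calc p t ≤ (1 - δ) * p (t - b) + A' * N * Real.exp (-(t - b) / 2) := h3
          _ ≤ (1 - δ) * (C * N * Real.exp (-κ * (t - b))) + A' * N * Real.exp (-κ * (t - b)) := by
              gcongr
          _ = N * Real.exp (-κ * t) * (Real.exp (κ * b) * ((1 - δ) * C + A')) := by rw [h5]; ring
          _ ≤ N * Real.exp (-κ * t) * C := by gcongr
          _ = _ := by ring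
  intro t ht
  obtain ⟨n, hn⟩ := exists_nat_gt (t / b)
  rw [div_lt_iff₀ hb] at hn
  refine step3 n t ht ?_
  have : ((n + 1 : ℕ) : ℝ) * b = (n : ℝ) * b + b := by push_cast; ring
  linarith

end Pool.Agent.Helper37.Ball
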