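import Mathlib
import Pool.Agent.Helper37.Ball.Corr2
import Pool.Agent.Helper37.Ball.DecayLemma
set_option autoImplicit false
set_option linter.unusedSectionVars false
open MeasureTheory Filter Topology
open scoped ENNReal NNReal
namespace Pool.Agent.Helper37.Ball

variable [MeasurableSpace G2] [BorelSpace G2] {X : Type} [MeasurableSpace X] [MulAction G2 X]
  [MeasurableSMul₂ G2 X]
variable (μ : Measure X) [IsProbabilityMeasure μ] [SMulInvariantMeasure G2 X μ]

omit [MeasurableSpace G2] [BorelSpace G2] [MeasurableSMul₂ G2 X] [IsProbabilityMeasure μ]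
  [SMulInvariantMeasure G2 X μ] in
/-- the spectral gap hypothesis -/
def SpecGap : Prop :=
  ∃ Q : Set G2, IsCompact Q ∧ ∃ ε : ℝ, 0 < ε ∧
    ∀ f : X → ℝ, MemLp f 2 μ → ∫ y, f y ∂μ = 0 → eLpNorm f 2 μ = 1 →
      ∃ g ∈ Q, ENNReal.ofReal ε ≤ eLpNorm (fun y => f (g • y) - f y) 2 μ

lemma memLp_bd {F : X → ℝ} (hF : Measurable F) (hb : Bd F) : MemLp F 2 μ := by
  obtain ⟨b, hb⟩ := hb
  exact MemLp.of_bound hF.aestronglyMeasurable b (ae_of_all _ fun x => by
    rw [Real.norm_eq_abs]; exact hb x)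

lemma eLpNorm_bd {F : X → ℝ} (hF : Measurable F) (hb : Bd F) :
    eLpNorm F 2 μ = ENNReal.ofReal (√(∫ x, F x ^ 2 ∂μ)) := by
  rw [MemLp.eLpNorm_eq_integral_rpow_norm (by norm_num) (by norm_num) (memLp_bd μ hF hb)]
  congr 1
  rw [Real.sqrt_eq_rpow]
  simp only [ENNReal.toReal_ofNat, one_div]
  congr 1
  apply integral_congr_ae
  filter_upwards with x
  rw [show (2 : ℝ) = ((2 : ℕ) : ℝ) by norm_num, Real.rpow_natCast, Real.norm_eq_abs, sq_abs]

/-- the quantitative spectral gap for bounded functions -/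
lemma gap_bd (hgap : SpecGap μ) : ∃ c ε : ℝ, 1 ≤ c ∧ 0 < ε ∧ ε ≤ 1 ∧
    ∀ F : X → ℝ, Measurable F → Bd F → ∫ x, F x ∂μ = 0 →
      ∃ g : G2, u g ≤ c ∧ ε * ∫ x, F x ^ 2 ∂μ ≤ ∫ x, (F (g • x) - F x) ^ 2 ∂μ := by
  obtain ⟨Q, hQ, ε, hε, h⟩ := hgap
  obtain ⟨c, hc⟩ := exists_u_bound hQ
  refine ⟨max c 1, min (ε ^ 2) 1, le_max_right _ _, lt_min (by positivity) one_pos,
    min_le_right _ _, ?_⟩
  intro F hF hb hint
  set n := ∫ x, F x ^ 2 ∂μ with hn
  have hn0 : 0 ≤ n := integral_nonneg fun _ => sq_nonneg _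
  rcases hn0.eq_or_lt with h0 | h0
  · refine ⟨1, by rw [u_one]; exact le_max_right _ _, ?_⟩
    rw [← h0, mul_zero]
    exact integral_nonneg fun _ => sq_nonneg _
  · have hs : 0 < √n := Real.sqrt_pos.mpr h0
    set f : X → ℝ := fun x => (√n)⁻¹ * F x with hf
    have hfm : Measurable f := hF.const_mul _
    have hfb : Bd f := Bd.mul ⟨|(√n)⁻¹|, fun _ => le_rfl⟩ hb
    have hf2 : ∫ x, f x ^ 2 ∂μ = 1 := by
      simp only [hf, mul_pow, integral_const_mul]
      rw [inv_pow, Real.sq_sqrt hn0, ← hn, inv_mul_cancel₀ h0.ne']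
    have hf0 : ∫ x, f x ∂μ = 0 := by
      simp only [hf, integral_const_mul, hint, mul_zero]
    have hfn : eLpNorm f 2 μ = 1 := by
      rw [eLpNorm_bd μ hfm hfb, hf2, Real.sqrt_one, ENNReal.ofReal_one]
    obtain ⟨g, hg, hge⟩ := h f (memLp_bd μ hfm hfb) hf0 hfn
    refine ⟨g, (hc g hg).trans (le_max_left _ _), ?_⟩
    rw [eLpNorm_bd μ (msubR (meas_act'' hfm g) hfm) ((hfb.comp _).sub hfb)] at hge
    have h1 : ε ≤ √(∫ x, (f (g • x) - f x) ^ 2 ∂μ) :=
      (ENNReal.ofReal_le_ofReal_iff (Real.sqrt_nonneg _)).mp hge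
    have h2 : ε ^ 2 ≤ ∫ x, (f (g • x) - f x) ^ 2 ∂μ := by
      rw [← Real.sq_sqrt (integral_nonneg fun x => sq_nonneg (f (g • x) - f x))]
      exact pow_le_pow_left₀ hε.le h1 2
    have h3 : ∫ x, (f (g • x) - f x) ^ 2 ∂μ = n⁻¹ * ∫ x, (F (g • x) - F x) ^ 2 ∂μ := by
      rw [← integral_const_mul]
      congr 1
      funext x
      simp only [hf]
      rw [← mul_sub, mul_pow, inv_pow, Real.sq_sqrt hn0]
    rw [h3] at h2
    calc min (ε ^ 2) 1 * n ≤ ε ^ 2 * n := by gcongr; exact min_le_left _ _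
      _ ≤ (n⁻¹ * ∫ x, (F (g • x) - F x) ^ 2 ∂μ) * n := by gcongr
      _ = _ := by field_simp

variable {μ}
variable {H : X → ℝ} {N L : ℝ}

lemma SM.integral_ee (hS : SM μ H N L) (h : G2) : ∫ x, ee H h x ∂μ = ∫ x, H x ∂μ := by
  have hk : Measurable kr := continuous_kr.measurable
  have hH := hS.meas
  unfold ee
  rw [integral_integral_swap (f := fun x (θ : UnitAddCircle) => H ((h * kr θ) • x))]
  · simp_rw [integral_smul_eq μ _ hH]
    simp
  · apply integrable_bd
    · exact hH.comp ((measurable_const.mul (hk.comp measurable_snd)).smul measurable_fst)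
    · exact hS.bd.comp _

lemma triple_swap {α β γ : Type*} [MeasurableSpace α] [MeasurableSpace β] [MeasurableSpace γ]
    {μa : Measure α} {μb : Measure β} {μc : Measure γ} [IsFiniteMeasure μa] [IsFiniteMeasure μb]
    [IsFiniteMeasure μc] (K : α → β → γ → ℝ)
    (hK : Measurable fun p : (α × β) × γ => K p.1.1 p.1.2 p.2)
    (hb : ∃ M, ∀ a b c, |K a b c| ≤ M) :
    ∫ θ, ∫ x, ∫ φ, K φ θ x ∂μa ∂μc ∂μb = ∫ φ, ∫ x, ∫ θ, K φ θ x ∂μb ∂μc ∂μa := by
  obtain ⟨M, hM⟩ := hb
  -- swap `θ` and `x`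
  rw [integral_integral_swap (f := fun θ x => ∫ φ, K φ θ x ∂μa)]
  swap
  · apply integrable_bd
    · have h1 : Measurable fun q : (β × γ) × α => ((q.2, q.1.1), q.1.2) :=
        (measurable_snd.prodMk (measurable_fst.comp measurable_fst)).prodMk
          (measurable_snd.comp measurable_fst)
      have h2 : Measurable fun q : (β × γ) × α => K q.2 q.1.1 q.1.2 := hK.comp h1
      exact (h2.stronglyMeasurable.integral_prod_right').measurable
    · refine ⟨M * μa.real Set.univ, fun q => ?_⟩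
      have := norm_integral_le_of_norm_le_const (μ := μa)
        (f := fun φ => K φ q.1 q.2) (C := M) (ae_of_all _ fun φ => hM φ q.1 q.2)
      exact this
  -- swap `θ` and `φ`
  have e4 : ∀ x, ∫ θ, ∫ φ, K φ θ x ∂μa ∂μb = ∫ φ, ∫ θ, K φ θ x ∂μb ∂μa := by
    intro x
    refine integral_integral_swap (f := fun θ φ => K φ θ x) ?_
    apply integrable_bd
    · have h1 : Measurable fun q : β × α => ((q.2, q.1), x) :=
        (measurable_snd.prodMk measurable_fst).prodMk measurable_const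
      exact hK.comp h1
    · exact ⟨M, fun q => hM q.2 q.1 x⟩
  simp_rw [e4]
  refine integral_integral_swap (f := fun x φ => ∫ θ, K φ θ x ∂μb) ?_
  apply integrable_bd
  · have h1 : Measurable fun q : (γ × α) × β => ((q.1.2, q.2), q.1.1) :=
      ((measurable_snd.comp measurable_fst).prodMk measurable_snd).prodMk
        (measurable_fst.comp measurable_fst)
    have h2 : Measurable fun q : (γ × α) × β => K q.1.2 q.2 q.1.1 := hK.comp h1
    exact (h2.stronglyMeasurable.integral_prod_right').measurable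
  · refine ⟨M * μb.real Set.univ, fun q => ?_⟩
    have := norm_integral_le_of_norm_le_const (μ := μb)
      (f := fun θ => K q.2 θ q.1) (C := M) (ae_of_all _ fun θ => hM q.2 θ q.1)
    exact this

/-- averaging over rotations of the displaced spherical average -/
lemma SM.gap_avg (hS : SM μ H N L) (t : ℝ) (g : G2) :
    ∫ x, ee H (dg t) (g • x) * ee H (dg t) x ∂μ =
      ∫ φ : UnitAddCircle, Ip μ H (dg t * kr φ * g) (dg t) := by
  have hk : Measurable kr := continuous_kr.measurable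
  have hH := hS.meas
  set E := ee H (dg t) with hE
  have hEm : Measurable E := measurable_ee hH _
  have hEb : Bd E := Bd_ee hS.bd _
  obtain ⟨b, hb⟩ := hS.bd
  obtain ⟨c, hc⟩ := hEb
  have e1 : ∀ θ : UnitAddCircle, ∫ x, E (g • x) * E x ∂μ = ∫ x, E (g • kr θ • x) * E x ∂μ := by
    intro θ
    have hm : Measurable fun x => E (g • x) * E x := mmulR (meas_act'' hEm g) hEm
    rw [← integral_smul_eq μ (kr θ) hm]
    congr 1
    funext x
    rw [hE, ee_K H (dg t) θ x]
  have e2 : ∫ x, E (g • x) * E x ∂μ = ∫ θ : UnitAddCircle, ∫ x, E (g • kr θ • x) * E x ∂μ := by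
    simp_rw [← e1]
    simp
  have e3 : ∀ (θ : UnitAddCircle) (x : X), E (g • kr θ • x) * E x =
      ∫ φ : UnitAddCircle, H ((dg t * kr φ * g * kr θ) • x) * E x := by
    intro θ x
    rw [integral_mul_const]
    congr 1
    rw [hE]
    unfold ee
    congr 1
    funext φ
    rw [smul_smul, smul_smul]
  -- joint measurability
  have hj : Measurable fun p : (UnitAddCircle × UnitAddCircle) × X =>
      H ((dg t * kr p.1.1 * g * kr p.1.2) • p.2) * E p.2 := by
    have h1 : Measurable fun p : (UnitAddCircle × UnitAddCircle) × X => kr p.1.1 :=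
      hk.comp (measurable_fst.comp measurable_fst)
    have h2 : Measurable fun p : (UnitAddCircle × UnitAddCircle) × X => kr p.1.2 :=
      hk.comp (measurable_snd.comp measurable_fst)
    exact (hH.comp ((((measurable_const.mul h1).mul measurable_const).mul h2).smul
      measurable_snd)).mul (hEm.comp measurable_snd)
  have hbd : ∀ (φ θ : UnitAddCircle) (x : X),
      |H ((dg t * kr φ * g * kr θ) • x) * E x| ≤ b * c := by
    intro φ θ x
    rw [abs_mul]
    exact mul_le_mul (hb _) (hc _) (abs_nonneg _) ((abs_nonneg _).trans (hb x))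
  rw [e2]
  simp_rw [e3]
  rw [triple_swap (μa := (volume : Measure UnitAddCircle)) (μb := (volume : Measure UnitAddCircle))
    (μc := μ) (fun φ θ x => H ((dg t * kr φ * g * kr θ) • x) * E x) hj ⟨b * c, hbd⟩]
  congr 1
  funext φ
  unfold Ip
  congr 1
  funext x
  rw [integral_mul_const]
  rfl

lemma exp_le_two_cosh (t : ℝ) : Real.exp t ≤ 2 * Real.cosh t := by
  rw [Real.cosh_eq]; linarith [Real.exp_pos (-t)]

lemma cosh_le_exp {t : ℝ} (ht : 0 ≤ t) : Real.cosh t ≤ Real.exp t := by
  rw [← Real.cosh_add_sinh]; linarith [Real.sinh_nonneg_iff.mpr ht]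

lemma tt_close {t : ℝ} (ht : 0 ≤ t) {c : ℝ} (hc : 1 ≤ c) {g : G2} (hg : u g ≤ c) (φ : UnitAddCircle) :
    |tt (dg t * kr φ * g) - t| ≤ Real.log (4 * c) := by
  set t' := tt (dg t * kr φ * g) with ht'
  have h0 : 0 ≤ t' := tt_nonneg _
  have h1 : Real.cosh t' = u (dg t * kr φ * g) := cosh_tt _
  have hgpos := u_pos g
  have h2 : Real.cosh t' ≤ 2 * Real.cosh t * c := by
    rw [h1]
    refine (u_mul_le _ _).trans ?_
    rw [u_mul_kr, u_dg]
    have := Real.cosh_pos t
    gcongr
  have h3 : Real.cosh t ≤ 2 * Real.cosh t' * c := by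
    have h4 := u_mul_le (dg t * kr φ * g) g⁻¹
    rw [mul_inv_cancel_right, u_mul_kr, u_dg, u_inv, ← h1] at h4
    refine h4.trans ?_
    have := Real.cosh_pos t'
    gcongr
  have hc0 : 0 < 4 * c := by linarith
  have e1 : Real.exp t' ≤ Real.exp (t + Real.log (4 * c)) := by
    rw [Real.exp_add, Real.exp_log hc0]
    have := exp_le_two_cosh t'
    have := cosh_le_exp ht
    nlinarith
  have e2 : Real.exp t ≤ Real.exp (t' + Real.log (4 * c)) := by
    rw [Real.exp_add, Real.exp_log hc0]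
    have := exp_le_two_cosh t
    have := cosh_le_exp h0
    nlinarith
  rw [Real.exp_le_exp] at e1 e2
  rw [abs_le]
  constructor <;> linarith

/-- consequence of the spectral gap for spherical averages -/
lemma SM.gap_step (hS : SM μ H N L) (hH0 : ∫ x, H x ∂μ = 0) {c ε : ℝ} (hc : 1 ≤ c)
    (hgap : ∀ F : X → ℝ, Measurable F → Bd F → ∫ x, F x ∂μ = 0 →
      ∃ g : G2, u g ≤ c ∧ ε * ∫ x, F x ^ 2 ∂μ ≤ ∫ x, (F (g • x) - F x) ^ 2 ∂μ) {t : ℝ} (ht : 0 ≤ t) :
    ∃ t', 0 ≤ t' ∧ |t' - t| ≤ Real.log (4 * c) ∧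
      Ip μ H (dg t') (dg t) ≤ (1 - ε / 2) * Ip μ H (dg t) (dg t) := by
  set E := ee H (dg t) with hE
  have hEm : Measurable E := measurable_ee hS.meas _
  have hEb : Bd E := Bd_ee hS.bd _
  have hE0 : ∫ x, E x ∂μ = 0 := by rw [hE, hS.integral_ee, hH0]
  obtain ⟨g, hg, hge⟩ := hgap E hEm hEb hE0
  have hEg := meas_act'' hEm g
  have i1 : Integrable (fun x => E (g • x) ^ 2) μ := integrable_bd (hEg.pow_const 2) (hEb.comp _).sq
  have i2 : Integrable (fun x => E (g • x) * E x) μ := integrable_bd (mmulR hEg hEm) ((hEb.comp _).mul hEb)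
  have i3 : Integrable (fun x => E x ^ 2) μ := integrable_bd (hEm.pow_const 2) hEb.sq
  have e1 : ∫ x, (E (g • x) - E x) ^ 2 ∂μ =
      2 * (∫ x, E x ^ 2 ∂μ) - 2 * ∫ x, E (g • x) * E x ∂μ := by
    have e : ∀ x, (E (g • x) - E x) ^ 2 = (E (g • x) ^ 2 - 2 * (E (g • x) * E x)) + E x ^ 2 :=
      fun x => by ring
    simp_rw [e]
    have i4 : Integrable (fun x => E (g • x) ^ 2 - 2 * (E (g • x) * E x)) μ := i1.sub (i2.const_mul 2)
    rw [integral_add i4 i3, integral_sub i1 (i2.const_mul 2), integral_const_mul,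
      integral_smul_eq μ g (F := fun x => E x ^ 2) (hEm.pow_const 2)]
    ring
  have e2 : ∫ x, E x ^ 2 ∂μ = Ip μ H (dg t) (dg t) := by
    unfold Ip
    congr 1
    funext x
    rw [pow_two]
  rw [e1, e2, hE, hS.gap_avg t g] at hge
  have hc' := hS.measurable_cor
  have hk : Measurable kr := continuous_kr.measurable
  have hint : Integrable (fun φ : UnitAddCircle => Ip μ H (dg t * kr φ * g) (dg t)) volume := by
    obtain ⟨b, hb⟩ := hS.bd
    apply integrable_bd
    · have h1 : Measurable fun p : UnitAddCircle × X =>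
          (fun q : G2 × X => ee H q.1 q.2) (dg t * kr p.1 * g, p.2) :=
        (measurable_ee_joint hS.meas).comp
          (((measurable_const.mul (hk.comp measurable_fst)).mul measurable_const).prodMk measurable_snd)
      have h2 : Measurable fun p : UnitAddCircle × X =>
          ee H (dg t * kr p.1 * g) p.2 * ee H (dg t) p.2 :=
        mmulR h1 ((measurable_ee hS.meas _).comp measurable_snd)
      exact (h2.stronglyMeasurable.integral_prod_right').measurable
    · refine ⟨b * b, fun φ => ?_⟩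
      have := norm_integral_le_of_norm_le_const (μ := μ)
        (f := fun x => ee H (dg t * kr φ * g) x * ee H (dg t) x) (C := b * b)
        (ae_of_all _ fun x => by
          rw [Real.norm_eq_abs, abs_mul]
          exact mul_le_mul (ee_abs_le hb _ _) (ee_abs_le hb _ _) (abs_nonneg _)
            ((abs_nonneg _).trans (hb x)))
      simpa [Ip, Measure.real] using this
  obtain ⟨φ, hφ⟩ := exists_le_integral hint
  refine ⟨tt (dg t * kr φ * g), tt_nonneg _, tt_close ht hc hg φ, ?_⟩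
  have e3 : Ip μ H (dg (tt (dg t * kr φ * g))) (dg t) = Ip μ H (dg t * kr φ * g) (dg t) := by
    unfold Ip
    congr 1
    funext x
    rw [← hS.ee_tt]
  rw [e3]
  linarith

lemma Ip_comm (h h' : G2) : Ip μ H h h' = Ip μ H h' h := by
  unfold Ip
  congr 1
  funext x
  ring

lemma sinh_le_mul_exp {h : ℝ} (hh : 0 ≤ h) : Real.sinh h ≤ h * Real.exp h := by
  have h1 : 1 - Real.exp (-(2 * h)) ≤ 2 * h := by
    have := Real.add_one_le_exp (-(2 * h))
    linarith
  have h2 : Real.exp (-h) = Real.exp h * Real.exp (-(2 * h)) := by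
    rw [← Real.exp_add]; ring_nf
  rw [Real.sinh_eq, h2]
  nlinarith [Real.exp_pos h]

/-- **Decay of spherical averages.** -/
theorem sphere_decay (L c ε : ℝ) (hL : 1 ≤ L) (hc : 1 ≤ c) (hε : 0 < ε) (hε1 : ε ≤ 1) :
    ∃ κ C : ℝ, 0 < κ ∧ κ ≤ 1 / 2 ∧ 0 ≤ C ∧
      ∀ (H : X → ℝ) (N : ℝ), SM μ H N L → ∫ x, H x ∂μ = 0 →
      (∀ F : X → ℝ, Measurable F → Bd F → ∫ x, F x ∂μ = 0 →
        ∃ g : G2, u g ≤ c ∧ ε * ∫ x, F x ^ 2 ∂μ ≤ ∫ x, (F (g • x) - F x) ^ 2 ∂μ) →
      ∀ t, 0 ≤ t → Ip μ H (dg t) (dg t) ≤ C * N * Real.exp (-κ * t) := by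
  set b := Real.log (4 * c) with hb
  have hb0 : 0 < b := Real.log_pos (by linarith)
  set A := 12 * L * Real.exp (2 * b) * (1 + b) with hA
  have hL0 : 0 ≤ L := by linarith
  have hA0 : 0 ≤ A := by positivity
  obtain ⟨κ, C, hκ, hκ2, hC, hmain⟩ := decay_lemma A b (ε / 2) hA0 hb0 (by linarith) (by linarith)
  refine ⟨κ, C, hκ, hκ2, hC, ?_⟩
  intro H N hS hH0 hgap
  have hN := hS.N0
  apply hmain (fun t => Ip μ H (dg t) (dg t)) N hN
  · exact fun t => SM.Ip_self_nonneg _
  · exact fun t => hS.Ip_self_le _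
  · intro t h ht hh hhb
    have h1 := hS.convex (t + h) h hh.le
    rw [show t + h + h = t + 2 * h by ring, show t + h - h = t by ring] at h1
    have h2 : 12 * L * N * Real.sinh h * Real.exp (-(t + h) / 2) ≤
        A * N * h * Real.exp (-(t + h) / 2) := by
      apply mul_le_mul_of_nonneg_right _ (Real.exp_pos _).le
      have h3 : Real.sinh h ≤ h * Real.exp (2 * b) := by
        refine (sinh_le_mul_exp hh.le).trans ?_
        have : Real.exp h ≤ Real.exp (2 * b) := Real.exp_le_exp.mpr hhb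
        gcongr
      calc 12 * L * N * Real.sinh h ≤ 12 * L * N * (h * Real.exp (2 * b)) := by gcongr
        _ = (12 * L * N * h * Real.exp (2 * b)) * 1 := by ring
        _ ≤ (12 * L * N * h * Real.exp (2 * b)) * (1 + b) := by
            apply mul_le_mul_of_nonneg_left _ (by positivity)
            linarith
        _ = A * N * h := by rw [hA]; ring
    linarith
  · intro t ht
    obtain ⟨t₁, ht₁, hclose, hle⟩ := hS.gap_step hH0 hc hgap ht
    rw [abs_le] at hclose
    set h := |t₁ - t| / 2 with hh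
    have hh0 : 0 ≤ h := by positivity
    have hhb : h ≤ b := by
      rw [hh]
      have : |t₁ - t| ≤ b := abs_le.mpr hclose
      linarith
    have h1 := hS.midpoint ((t + t₁) / 2) h hh0
    have h2 : Ip μ H (dg ((t + t₁) / 2 + h)) (dg ((t + t₁) / 2 - h)) = Ip μ H (dg t₁) (dg t) := by
      rcases le_total t t₁ with hle' | hle'
      · rw [hh, abs_of_nonneg (by linarith), show (t + t₁) / 2 + (t₁ - t) / 2 = t₁ by ring,
          show (t + t₁) / 2 - (t₁ - t) / 2 = t by ring]
      · rw [hh, abs_of_nonpos (by linarith), show (t + t₁) / 2 + -(t₁ - t) / 2 = t by ring,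
          show (t + t₁) / 2 - -(t₁ - t) / 2 = t₁ by ring, Ip_comm]
    rw [h2] at h1
    have h3 := neg_le_of_abs_le h1
    refine ⟨(t + t₁) / 2, ?_, by linarith, ?_⟩
    · rw [abs_le]; constructor <;> linarith
    · have h4 : 12 * L * N * Real.sinh h * Real.exp (-((t + t₁) / 2) / 2) ≤
          A * N * Real.exp (-t / 2) := by
        have h5 : Real.sinh h ≤ b * Real.exp b := by
          refine (sinh_le_mul_exp hh0).trans ?_
          have : Real.exp h ≤ Real.exp b := Real.exp_le_exp.mpr hhb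
          gcongr
        have h6 : Real.exp (-((t + t₁) / 2) / 2) ≤ Real.exp b * Real.exp (-t / 2) := by
          rw [← Real.exp_add]
          apply Real.exp_le_exp.mpr
          linarith
        calc 12 * L * N * Real.sinh h * Real.exp (-((t + t₁) / 2) / 2)
            ≤ 12 * L * N * (b * Real.exp b) * (Real.exp b * Real.exp (-t / 2)) := by
              gcongr
          _ = 12 * L * (Real.exp b * Real.exp b) * b * N * Real.exp (-t / 2) := by ring
          _ = 12 * L * Real.exp (2 * b) * b * N * Real.exp (-t / 2) := by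
              rw [← Real.exp_add]; ring_nf
          _ ≤ 12 * L * Real.exp (2 * b) * (1 + b) * N * Real.exp (-t / 2) := by
              gcongr
              linarith
          _ = A * N * Real.exp (-t / 2) := by rw [hA]
      linarith

end Pool.Agent.Helper37.Ball
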