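import Mathlib
import Pool.Agent.Helper37.Ball.Gap
set_option autoImplicit false
set_option linter.unusedSectionVars false
open MeasureTheory Filter Topology
open scoped ENNReal NNReal
namespace Pool.Agent.Helper37.Ball

variable [MeasurableSpace G2] [BorelSpace G2] {X : Type} [MeasurableSpace X] [MulAction G2 X]
  [MeasurableSMul₂ G2 X]
variable {m : Measure G2} [SFinite m] [m.IsMulRightInvariant] [m.IsInvInvariant]
variable {μ : Measure X} [IsProbabilityMeasure μ] [SMulInvariantMeasure G2 X μ]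

/-- ball averages are averages of spherical averages -/
lemma setInt_ee (hV : Vol m 1) {z : ℝ} {H : X → ℝ} (hH : Measurable H) (hb : Bd H) (x : X) :
    ∫ g in B z, H (g • x) ∂m = ∫ g in B z, ee H g x ∂m := by
  have hfin := finB hV z
  have hk : Measurable kr := continuous_kr.measurable
  have e1 : ∀ θ : UnitAddCircle, ∫ g in B z, H ((g * kr θ) • x) ∂m = ∫ g in B z, H (g • x) ∂m :=
    fun θ => setInt_rot (m := m) z θ (fun g => H (g • x))
  have e2 : ∫ g in B z, H (g • x) ∂m = ∫ θ : UnitAddCircle, ∫ g in B z, H ((g * kr θ) • x) ∂m := by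
    simp_rw [e1]
    simp
  rw [e2]
  unfold ee
  refine integral_integral_swap (f := fun (θ : UnitAddCircle) (g : G2) => H ((g * kr θ) • x)) ?_
  apply integrable_bd
  · have h1 : Measurable fun p : UnitAddCircle × G2 => (p.2 * kr p.1) • x :=
      (measurable_snd.mul (hk.comp measurable_fst)).smul measurable_const
    exact hH.comp h1
  · exact hb.comp _

lemma AA_sq_le_ee (hV : Vol m 1) {z : ℝ} (hz : 1 < z) {H : X → ℝ} (hH : Measurable H) (hb : Bd H)
    (x : X) : (AA m z H x) ^ 2 ≤ (z - 1)⁻¹ * ∫ g in B z, (ee H g x) ^ 2 ∂m := by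
  have hfin := finB hV z
  have hz1 : 0 < z - 1 := by linarith
  have hm : Measurable fun g : G2 => ee H g x :=
    (measurable_ee_joint hH).comp (measurable_id.prodMk measurable_const)
  have hb' : Bd fun g : G2 => ee H g x := by
    obtain ⟨b, hb⟩ := hb
    exact ⟨b, fun g => ee_abs_le hb g x⟩
  have h := sq_integral_le (ν := m.restrict (B z)) hm hb'
  rw [realB hV hz.le] at h
  unfold AA
  rw [setInt_ee hV hH hb, mul_pow]
  calc ((z - 1)⁻¹) ^ 2 * (∫ g in B z, ee H g x ∂m) ^ 2
      ≤ ((z - 1)⁻¹) ^ 2 * ((z - 1) * ∫ g in B z, ee H g x ^ 2 ∂m) := by gcongr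
    _ = (z - 1)⁻¹ * ∫ g in B z, ee H g x ^ 2 ∂m := by field_simp

lemma integral_AA_sq_le_Ip (hV : Vol m 1) {z : ℝ} (hz : 1 < z) {H : X → ℝ} (hH : Measurable H)
    (hb : Bd H) :
    ∫ x, (AA m z H x) ^ 2 ∂μ ≤ (z - 1)⁻¹ * ∫ g in B z, Ip μ H g g ∂m := by
  have hfin := finB hV z
  have hm : Measurable fun p : X × G2 => (ee H p.2 p.1) ^ 2 :=
    ((measurable_ee_joint hH).comp (measurable_snd.prodMk measurable_fst)).pow_const 2
  have hb' : Bd fun p : X × G2 => (ee H p.2 p.1) ^ 2 := by
    obtain ⟨b, hb⟩ := hb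
    exact Bd.sq ⟨b, fun p => ee_abs_le hb p.2 p.1⟩
  have hint : Integrable (fun p : X × G2 => (ee H p.2 p.1) ^ 2) (μ.prod (m.restrict (B z))) :=
    integrable_bd hm hb'
  calc ∫ x, (AA m z H x) ^ 2 ∂μ ≤ ∫ x, (z - 1)⁻¹ * ∫ g in B z, (ee H g x) ^ 2 ∂m ∂μ := by
        apply integral_mono
        · exact integrable_bd ((measurable_AA m z hH).pow_const 2) (Bd_AA hV hz hb).sq
        · exact Integrable.const_mul hint.integral_prod_left _
        · exact fun x => AA_sq_le_ee hV hz hH hb x
    _ = (z - 1)⁻¹ * ∫ g in B z, Ip μ H g g ∂m := by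
        rw [integral_const_mul, integral_integral_swap (f := fun x (g : G2) => (ee H g x) ^ 2) hint]
        congr 1
        congr 1
        funext g
        unfold Ip
        congr 1
        funext x
        rw [pow_two]

lemma sm_AA (hV : Vol m 1) {η : ℝ} (hη : 1 < η) {F : X → ℝ} (hF : Measurable F) (hb : Bd F) :
    SM μ (AA m η F) (∫ x, F x ^ 2 ∂μ) (2 * η / (η - 1)) where
  meas := measurable_AA m η hF
  bd := Bd_AA hV hη hb
  K := AA_K η F
  N0 := integral_nonneg fun _ => sq_nonneg _
  L1 := by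
    rw [le_div_iff₀ (by linarith)]
    linarith
  sq := integral_AA_sq_le μ hV hη hF hb
  lip := fun δ hδ => AA_diff μ hV hη hδ hF hb

/-- **Decay of ball averages in `L²`.** -/
theorem l2_decay (hV : Vol m 1) (hgap : SpecGap μ) {η : ℝ} (hη : 1 < η) :
    ∃ κ C : ℝ, 0 < κ ∧ 0 ≤ C ∧ ∀ F : X → ℝ, Measurable F → Bd F → ∫ x, F x ∂μ = 0 →
      ∀ z : ℝ, 1 < z → ∫ x, (AA m z (AA m η F) x) ^ 2 ∂μ ≤
        C * (∫ x, F x ^ 2 ∂μ) * Real.exp (-κ * Real.log z) := by
  obtain ⟨c, ε, hc, hε, hε1, hg⟩ := gap_bd μ hgap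
  set L := 2 * η / (η - 1) with hL
  have hL1 : 1 ≤ L := by
    rw [hL, le_div_iff₀ (by linarith)]
    linarith
  obtain ⟨κ, C, hκ, hκ2, hC, hmain⟩ := sphere_decay (μ := μ) L c ε hL1 hc hε hε1
  refine ⟨κ / 2, 2 * C, by linarith, by linarith, ?_⟩
  intro F hF hb hF0 z hz
  set N := ∫ x, F x ^ 2 ∂μ with hN
  have hN0 : 0 ≤ N := integral_nonneg fun _ => sq_nonneg _
  have hS : SM μ (AA m η F) N L := sm_AA hV hη hF hb
  have hH0 : ∫ x, AA m η F x ∂μ = 0 := by rw [integral_AA μ hV hη hF hb, hF0]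
  have hdec := hmain (AA m η F) N hS hH0 hg
  have hfin := finB hV z
  have hz1 : 0 < z - 1 := by linarith
  have hz0 : 0 < z := by linarith
  have hlogz : 0 ≤ Real.log z := Real.log_nonneg hz.le
  set q := Real.exp (-(κ / 2) * Real.log z) with hq
  have hq0 : 0 < q := Real.exp_pos _
  have hsz : 1 < √z := by rw [Real.lt_sqrt (by norm_num)]; linarith
  have hszz : √z * √z = z := Real.mul_self_sqrt hz0.le
  -- pointwise bound
  have hpt : ∀ g : G2, Ip μ (AA m η F) g g ≤ C * N * ((B (√z)).indicator 1 g + q) := by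
    intro g
    rw [hS.Ip_tt]
    refine (hdec (tt g) (tt_nonneg g)).trans ?_
    apply mul_le_mul_of_nonneg_left _ (by positivity)
    by_cases hgB : g ∈ B (√z)
    · rw [Set.indicator_of_mem hgB, Pi.one_apply]
      have : Real.exp (-κ * tt g) ≤ 1 := by
        rw [Real.exp_le_one_iff]
        have := tt_nonneg g
        nlinarith
      linarith
    · rw [Set.indicator_of_notMem hgB, zero_add]
      have h1 : √z ≤ u g := not_lt.mp hgB
      have h2 : √z ≤ Real.exp (tt g) := by
        calc √z ≤ u g := h1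
          _ = Real.cosh (tt g) := (cosh_tt g).symm
          _ ≤ Real.exp (tt g) := cosh_le_exp (tt_nonneg g)
      have h3 : Real.log z / 2 ≤ tt g := by
        have h4 := Real.log_le_log (by linarith) h2
        rwa [Real.log_exp, Real.log_sqrt hz0.le] at h4
      rw [hq]
      apply Real.exp_le_exp.mpr
      nlinarith
  have hsub : B (√z) ⊆ B z := by
    intro g hg
    have h1 : u g < √z := hg
    show u g < z
    nlinarith
  have hIm : Measurable fun g : G2 => Ip μ (AA m η F) g g := by
    have h1 : Measurable fun p : G2 × X => ee (AA m η F) p.1 p.2 := measurable_ee_joint hS.meas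
    have h2 : Measurable fun p : G2 × X => ee (AA m η F) p.1 p.2 * ee (AA m η F) p.1 p.2 := mmulR h1 h1
    exact (h2.stronglyMeasurable.integral_prod_right').measurable
  have hIb : Bd fun g : G2 => Ip μ (AA m η F) g g :=
    ⟨N, fun g => by rw [abs_of_nonneg (SM.Ip_self_nonneg g)]; exact hS.Ip_self_le g⟩
  have hindi : Integrable ((B (√z)).indicator (1 : G2 → ℝ)) (m.restrict (B z)) :=
    (integrable_const (1 : ℝ)).indicator (measurableSet_B _)
  have hset : ∫ g in B z, Ip μ (AA m η F) g g ∂m ≤ C * N * ((√z - 1) + q * (z - 1)) := by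
    calc ∫ g in B z, Ip μ (AA m η F) g g ∂m
        ≤ ∫ g in B z, C * N * ((B (√z)).indicator 1 g + q) ∂m := by
          apply integral_mono (integrable_bd hIm hIb)
          · exact (hindi.add (integrable_const _)).const_mul _
          · exact hpt
      _ = C * N * ((√z - 1) + q * (z - 1)) := by
          rw [integral_const_mul, integral_add hindi (integrable_const _), integral_const,
            realB hV hz.le, smul_eq_mul, integral_indicator_one (measurableSet_B _)]
          congr 2
          · rw [measureReal_restrict_apply (measurableSet_B _), Set.inter_eq_left.mpr hsub,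
              Measure.real, hV, one_mul, ENNReal.toReal_ofReal (by linarith)]
          · ring
  have hfinal : (z - 1)⁻¹ * ((√z - 1) + q * (z - 1)) ≤ 2 * q := by
    have h1 : (z - 1)⁻¹ * (√z - 1) ≤ q := by
      have h2 : z - 1 = (√z - 1) * (√z + 1) := by nlinarith
      have h3 : (z - 1)⁻¹ * (√z - 1) = (√z + 1)⁻¹ := by
        rw [h2, mul_inv]
        have : √z - 1 ≠ 0 := by linarith
        field_simp
      have h4 : (√z)⁻¹ = Real.exp (-(1 / 2) * Real.log z) := by
        rw [show -(1 / 2) * Real.log z = -(Real.log z / 2) by ring, ← Real.log_sqrt hz0.le,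
          Real.exp_neg, Real.exp_log (by linarith)]
      calc (z - 1)⁻¹ * (√z - 1) = (√z + 1)⁻¹ := h3
        _ ≤ (√z)⁻¹ := inv_anti₀ (by linarith) (by linarith)
        _ = Real.exp (-(1 / 2) * Real.log z) := h4
        _ ≤ q := by
            rw [hq]
            apply Real.exp_le_exp.mpr
            nlinarith
    have h5 : (z - 1)⁻¹ * (q * (z - 1)) = q := by field_simp
    rw [mul_add, h5]
    linarith
  calc ∫ x, (AA m z (AA m η F) x) ^ 2 ∂μ
      ≤ (z - 1)⁻¹ * ∫ g in B z, Ip μ (AA m η F) g g ∂m := integral_AA_sq_le_Ip hV hz hS.meas hS.bd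
    _ ≤ (z - 1)⁻¹ * (C * N * ((√z - 1) + q * (z - 1))) := by
        apply mul_le_mul_of_nonneg_left hset (by positivity)
    _ = C * N * ((z - 1)⁻¹ * ((√z - 1) + q * (z - 1))) := by ring
    _ ≤ C * N * (2 * q) := by
        apply mul_le_mul_of_nonneg_left hfinal (by positivity)
    _ = _ := by ring

end Pool.Agent.Helper37.Ball
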