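import Mathlib
import Pool.Agent.Helper37.Ball.L2
set_option autoImplicit false
set_option linter.unusedSectionVars false
open MeasureTheory Filter Topology
open scoped ENNReal NNReal
namespace Pool.Agent.Helper37.Ball

variable [MeasurableSpace G2] [BorelSpace G2] {X : Type} [MeasurableSpace X] [MulAction G2 X]
  [MeasurableSMul₂ G2 X]
variable {m : Measure G2} [SFinite m] [m.IsMulRightInvariant] [m.IsInvInvariant]
  [m.IsMulLeftInvariant]
variable {μ : Measure X} [IsProbabilityMeasure μ] [SMulInvariantMeasure G2 X μ]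

/-- iterated ball averages as an integral over the outer variable -/
lemma ML_ML (z η : ℝ) {Ψ : X → ℝ≥0∞} (hΨ : Measurable Ψ) (x : X) :
    ML m z (ML m η Ψ) x = ∫⁻ h in B η, ∫⁻ g, (B z).indicator 1 (h⁻¹ * g) * Ψ (g • x) ∂m ∂m := by
  have h1 : ML m z (ML m η Ψ) x = ∫⁻ h in B η, ∫⁻ g in B z, Ψ (h • g • x) ∂m ∂m := by
    unfold ML
    have hm : Measurable fun p : G2 × G2 => Ψ (p.2 • p.1 • x) :=
      hΨ.comp (measurable_snd.smul (measurable_fst.smul measurable_const))
    exact lintegral_lintegral_swap (f := fun (g h : G2) => Ψ (h • g • x)) hm.aemeasurable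
  rw [h1]
  apply lintegral_congr
  intro h
  rw [← lintegral_indicator (measurableSet_B z)]
  refine Eq.trans ?_ (lintegral_mul_left_eq_self (μ := m)
    (fun g => (B z).indicator 1 (h⁻¹ * g) * Ψ (g • x)) h)
  apply lintegral_congr
  intro g
  rw [inv_mul_cancel_left]
  by_cases hg : g ∈ B z
  · rw [Set.indicator_of_mem hg, Set.indicator_of_mem hg, Pi.one_apply, one_mul, mul_smul]
  · rw [Set.indicator_of_notMem hg, Set.indicator_of_notMem hg, zero_mul]

/-- lower sandwich -/
lemma ML_le_ML_ML {z η w : ℝ} (hw : ∀ h g : G2, u h < η → u g < z → u (h⁻¹ * g) < w)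
    {Ψ : X → ℝ≥0∞} (hΨ : Measurable Ψ) (x : X) :
    m (B η) * ML m z Ψ x ≤ ML m w (ML m η Ψ) x := by
  rw [ML_ML _ _ hΨ, mul_comm, ← setLIntegral_const]
  refine setLIntegral_mono' (measurableSet_B η) fun h hh => ?_
  rw [ML_eq]
  apply lintegral_mono
  intro g
  dsimp only
  gcongr
  by_cases hg : g ∈ B z
  · have : h⁻¹ * g ∈ B w := hw h g hh hg
    rw [Set.indicator_of_mem hg, Set.indicator_of_mem this]
    exact le_rfl
  · rw [Set.indicator_of_notMem hg]
    exact bot_le

/-- upper sandwich -/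
lemma ML_ML_le {z η w : ℝ} (hw : ∀ h g : G2, u h < η → u (h⁻¹ * g) < w → u g < z)
    {Ψ : X → ℝ≥0∞} (hΨ : Measurable Ψ) (x : X) :
    ML m w (ML m η Ψ) x ≤ m (B η) * ML m z Ψ x := by
  rw [ML_ML _ _ hΨ, mul_comm, ← setLIntegral_const]
  refine setLIntegral_mono' (measurableSet_B η) fun h hh => ?_
  rw [ML_eq]
  apply lintegral_mono
  intro g
  dsimp only
  gcongr
  by_cases hg : h⁻¹ * g ∈ B w
  · have : g ∈ B z := hw h g hh hg
    rw [Set.indicator_of_mem hg, Set.indicator_of_mem this]
    exact le_rfl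
  · rw [Set.indicator_of_notMem hg]
    exact bot_le

lemma ML_ofReal (hV : Vol m 1) {z : ℝ} (hz : 1 < z) {G : X → ℝ} (hG : Measurable G) (hb : Bd G)
    (h0 : ∀ x, 0 ≤ G x) (x : X) :
    ML m z (fun y => ENNReal.ofReal (G y)) x = ENNReal.ofReal ((z - 1) * AA m z G x) := by
  have hfin := finB hV z
  have hz1 : 0 < z - 1 := by linarith
  unfold ML AA
  rw [← mul_assoc, mul_inv_cancel₀ hz1.ne', one_mul,
    ofReal_integral_eq_lintegral_ofReal (integrable_bd (meas_act' hG x) (hb.comp _))
      (ae_of_all _ fun g => h0 _)]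

lemma AA_nonneg {z : ℝ} (hz : 1 < z) {G : X → ℝ} (h0 : ∀ x, 0 ≤ G x) (x : X) : 0 ≤ AA m z G x := by
  unfold AA
  exact mul_nonneg (inv_nonneg.mpr (by linarith)) (integral_nonneg fun g => h0 _)

lemma AA_sub_const (hV : Vol m 1) {z : ℝ} (hz : 1 < z) {G : X → ℝ} (hG : Measurable G) (hb : Bd G)
    (c : ℝ) (x : X) : AA m z (fun y => G y - c) x = AA m z G x - c := by
  have hfin := finB hV z
  have hz1 : 0 < z - 1 := by linarith
  unfold AA
  rw [integral_sub (integrable_bd (meas_act' hG x) (hb.comp _)) (integrable_const _), integral_const,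
    realB hV hz.le, smul_eq_mul, mul_sub]
  congr 1
  field_simp

/-- **Decay of correlations of sets** -/
theorem decay_sets (hV : Vol m 1) (hgap : SpecGap μ) :
    ∃ C q : ℝ≥0∞, C ≠ ∞ ∧ q < 1 ∧ Decay m μ C q := by
  obtain ⟨κ, C₀, hκ, hC₀, hmain⟩ := l2_decay (m := m) hV hgap (η := 2) (by norm_num)
  set r := Real.exp (-(κ / 2) * Real.log 2) with hr
  have hr0 : 0 < r := Real.exp_pos _
  have hr1 : r < 1 := by
    rw [hr, Real.exp_lt_one_iff]
    have := Real.log_pos (show (1 : ℝ) < 2 by norm_num)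
    nlinarith
  refine ⟨ENNReal.ofReal (24 * (1 + √C₀)), ENNReal.ofReal r, ENNReal.ofReal_ne_top, ?_, ?_⟩
  · rw [ENNReal.ofReal_lt_one]; exact hr1
  intro s Z Z' hZ hZ'
  set T : ℝ := 2 ^ s with hT
  have hT1 : 1 ≤ T := one_le_pow₀ (by norm_num)
  have hT0 : 0 < T := by linarith
  set w : ℝ := 24 * T with hw
  have hw1 : 1 < w := by linarith
  set G : X → ℝ := Z'.indicator 1 with hG
  have hGm : Measurable G := measurable_one.indicator hZ'
  have hG0 : ∀ x, 0 ≤ G x := fun x => Set.indicator_nonneg (fun _ _ => zero_le_one) x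
  have hG1 : ∀ x, G x ≤ 1 := fun x => Set.indicator_le_self' (fun _ _ => zero_le_one) x
  have hGb : Bd G := ⟨1, fun x => by rw [abs_of_nonneg (hG0 x)]; exact hG1 x⟩
  set F : X → ℝ := Z.indicator 1 with hF
  have hFm : Measurable F := measurable_one.indicator hZ
  have hF0 : ∀ x, 0 ≤ F x := fun x => Set.indicator_nonneg (fun _ _ => zero_le_one) x
  have hF1 : ∀ x, F x ≤ 1 := fun x => Set.indicator_le_self' (fun _ _ => zero_le_one) x
  have hFb : Bd F := ⟨1, fun x => by rw [abs_of_nonneg (hF0 x)]; exact hF1 x⟩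
  set a := (μ Z).toReal with ha
  set b := (μ Z').toReal with hb
  have ha0 : 0 ≤ a := ENNReal.toReal_nonneg
  have hb0 : 0 ≤ b := ENNReal.toReal_nonneg
  have haE : μ Z = ENNReal.ofReal a := (ENNReal.ofReal_toReal (measure_ne_top μ Z)).symm
  have hbE : μ Z' = ENNReal.ofReal b := (ENNReal.ofReal_toReal (measure_ne_top μ Z')).symm
  have hGi : ∫ x, G x ∂μ = b := by rw [hG, integral_indicator_one hZ']; rfl
  have hFi : ∫ x, F x ∂μ = a := by rw [hF, integral_indicator_one hZ]; rfl
  have hFF : ∫ x, F x ^ 2 ∂μ = a := by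
    rw [← hFi]
    congr 1
    funext x
    by_cases hx : x ∈ Z
    · rw [hF, Set.indicator_of_mem hx]; simp
    · rw [hF, Set.indicator_of_notMem hx]; simp
  have hGG : ∫ x, G x ^ 2 ∂μ = b := by
    rw [← hGi]
    congr 1
    funext x
    by_cases hx : x ∈ Z'
    · rw [hG, Set.indicator_of_mem hx]; simp
    · rw [hG, Set.indicator_of_notMem hx]; simp
  -- the mean zero part
  set D : X → ℝ := fun x => G x - b with hD
  have hDm : Measurable D := hGm.sub_const b
  have hDb : Bd D := hGb.sub ⟨|b|, fun _ => le_rfl⟩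
  have hDi : ∫ x, D x ∂μ = 0 := by
    rw [hD, integral_sub (integrable_bd hGm hGb) (integrable_const _), hGi]
    simp
  have hDD : ∫ x, D x ^ 2 ∂μ ≤ b := by
    have e : ∀ x, D x ^ 2 = (G x ^ 2 - 2 * b * G x) + b ^ 2 := fun x => by rw [hD]; ring
    simp_rw [e]
    have i1 : Integrable (fun x => G x ^ 2) μ := integrable_bd (hGm.pow_const 2) hGb.sq
    have i2 : Integrable (fun x => 2 * b * G x) μ := (integrable_bd hGm hGb).const_mul _
    have i3 : Integrable (fun x => G x ^ 2 - 2 * b * G x) μ := i1.sub i2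
    rw [integral_add i3 (integrable_const _), integral_sub i1 i2, integral_const_mul, hGG, hGi]
    simp
    nlinarith [sq_nonneg b]
  have hl2 := hmain D hDm hDb hDi w hw1
  have hlogw : s * Real.log 2 ≤ Real.log w := by
    rw [← Real.log_pow]
    apply Real.log_le_log (by positivity)
    rw [hw, hT]
    have : (0 : ℝ) < 2 ^ s := by positivity
    linarith
  have hexp : Real.exp (-κ * Real.log w) ≤ (r ^ s) ^ 2 := by
    rw [hr, ← Real.exp_nat_mul, ← Real.exp_nat_mul]
    apply Real.exp_le_exp.mpr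
    push_cast
    nlinarith
  have hAD : Bd (AA m w (AA m 2 D)) := Bd_AA hV hw1 (Bd_AA hV (by norm_num) hDb)
  have hADm : Measurable (AA m w (AA m 2 D)) := measurable_AA m w (measurable_AA m 2 hDm)
  have hcs : ∫ x, F x * AA m w (AA m 2 D) x ∂μ ≤ √C₀ * r ^ s * (a + b) := by
    have h1 := integral_mul_sq_le (ν := μ) hFm hFb hADm hAD
    rw [hFF] at h1
    have h2 : (∫ x, F x * AA m w (AA m 2 D) x ∂μ) ^ 2 ≤ (√C₀ * r ^ s * (a + b)) ^ 2 := by
      calc (∫ x, F x * AA m w (AA m 2 D) x ∂μ) ^ 2 ≤ a * ∫ x, AA m w (AA m 2 D) x ^ 2 ∂μ := h1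
        _ ≤ a * (C₀ * (∫ x, D x ^ 2 ∂μ) * Real.exp (-κ * Real.log w)) := by gcongr
        _ ≤ a * (C₀ * b * (r ^ s) ^ 2) := by
            gcongr
        _ = C₀ * (r ^ s) ^ 2 * (a * b) := by ring
        _ ≤ C₀ * (r ^ s) ^ 2 * (a + b) ^ 2 := by
            apply mul_le_mul_of_nonneg_left _ (by positivity)
            nlinarith [mul_nonneg ha0 hb0]
        _ = (√C₀ * r ^ s * (a + b)) ^ 2 := by
            rw [mul_pow, mul_pow, Real.sq_sqrt hC₀]
    exact le_of_sq_le_sq h2 (by positivity)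
  have hsplit : ∫ x, F x * AA m w (AA m 2 G) x ∂μ ≤ a * b + √C₀ * r ^ s * (a + b) := by
    have e : ∀ x, F x * AA m w (AA m 2 G) x = b * F x + F x * AA m w (AA m 2 D) x := by
      intro x
      have e1 : AA m 2 D = fun y => AA m 2 G y - b := by
        funext y
        exact AA_sub_const hV (by norm_num) hGm hGb b y
      rw [e1, AA_sub_const hV hw1 (measurable_AA m 2 hGm) (Bd_AA hV (by norm_num) hGb) b x]
      ring
    simp_rw [e]
    rw [integral_add ((integrable_bd hFm hFb).const_mul _)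
      (integrable_bd (mmulR hFm hADm) (hFb.mul hAD)), integral_const_mul, hFi]
    linarith
  -- conversion
  have c1 : ∀ x, Mn m s (Z'.indicator 1) x ≤ ENNReal.ofReal (24 * AA m w (AA m 2 G) x) := by
    intro x
    have hind : (Z'.indicator 1 : X → ℝ≥0∞) = fun y => ENNReal.ofReal (G y) := by
      funext y
      by_cases hy : y ∈ Z'
      · rw [hG, Set.indicator_of_mem hy, Set.indicator_of_mem hy]; simp
      · rw [hG, Set.indicator_of_notMem hy, Set.indicator_of_notMem hy]; simp
    have h1 : ML m (6 * T) (Z'.indicator 1) x ≤ ML m w (ML m 2 (Z'.indicator 1)) x := by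
      have h2 := ML_le_ML_ML (m := m) (z := 6 * T) (η := 2) (w := w) (by
        intro h g hh hg
        have h3 := u_mul_le h⁻¹ g
        rw [u_inv] at h3
        have h4 := u_pos g
        have h5 := u_pos h
        rw [hw]
        nlinarith) (measurable_ind1 hZ') x
      rwa [hV, show (2 : ℝ) - 1 = 1 by norm_num, ENNReal.ofReal_one, one_mul, one_mul] at h2
    have h2 : ML m 2 (Z'.indicator 1) = fun y => ENNReal.ofReal (AA m 2 G y) := by
      funext y
      rw [hind, ML_ofReal hV (by norm_num) hGm hGb hG0]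
      norm_num
    rw [h2, ML_ofReal hV hw1 (measurable_AA m 2 hGm) (Bd_AA hV (by norm_num) hGb)
      (AA_nonneg (by norm_num) hG0)] at h1
    unfold Mn
    calc ENNReal.ofReal (1 / T) * ML m (6 * T) (Z'.indicator 1) x
        ≤ ENNReal.ofReal (1 / T) * ENNReal.ofReal ((w - 1) * AA m w (AA m 2 G) x) := by gcongr
      _ = ENNReal.ofReal (1 / T * ((w - 1) * AA m w (AA m 2 G) x)) := by
          rw [← ENNReal.ofReal_mul (by positivity)]
      _ ≤ ENNReal.ofReal (24 * AA m w (AA m 2 G) x) := by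
          apply ENNReal.ofReal_le_ofReal
          have h3 : 0 ≤ AA m w (AA m 2 G) x := AA_nonneg hw1 (AA_nonneg (by norm_num) hG0) x
          have h4 : 1 / T * (w - 1) ≤ 24 := by
            rw [div_mul_eq_mul_div, one_mul, div_le_iff₀ hT0]
            linarith
          rw [← mul_assoc]
          gcongr
  have hAGm : Measurable (AA m w (AA m 2 G)) := measurable_AA m w (measurable_AA m 2 hGm)
  have hAGb : Bd (AA m w (AA m 2 G)) := Bd_AA hV hw1 (Bd_AA hV (by norm_num) hGb)
  calc ∫⁻ x, Z.indicator 1 x * Mn m s (Z'.indicator 1) x ∂μ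
      ≤ ∫⁻ x, ENNReal.ofReal (24 * (F x * AA m w (AA m 2 G) x)) ∂μ := by
        apply lintegral_mono
        intro x
        by_cases hx : x ∈ Z
        · simp only [hF, Set.indicator_of_mem hx, Pi.one_apply, one_mul]
          exact c1 x
        · simp only [Set.indicator_of_notMem hx, zero_mul]
          exact bot_le
    _ = ENNReal.ofReal (∫ x, 24 * (F x * AA m w (AA m 2 G) x) ∂μ) := by
        rw [ofReal_integral_eq_lintegral_ofReal]
        · exact (integrable_bd (mmulR hFm hAGm) (hFb.mul hAGb)).const_mul _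
        · exact ae_of_all _ fun x => by
            have h3 : 0 ≤ AA m w (AA m 2 G) x := AA_nonneg hw1 (AA_nonneg (by norm_num) hG0) x
            have := hF0 x
            positivity
    _ ≤ ENNReal.ofReal (24 * (1 + √C₀) * (a * b + r ^ s * (a + b))) := by
        apply ENNReal.ofReal_le_ofReal
        rw [integral_const_mul]
        have h1 : 0 ≤ √C₀ := Real.sqrt_nonneg _
        have h2 : 0 ≤ √C₀ * (a * b) := by positivity
        have h3 : 0 ≤ r ^ s * (a + b) := by positivity
        nlinarith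
    _ = ENNReal.ofReal (24 * (1 + √C₀)) * (μ Z * μ Z' + ENNReal.ofReal r ^ s * (μ Z + μ Z')) := by
        rw [haE, hbE, ENNReal.ofReal_mul (p := 24 * (1 + √C₀)) (by positivity),
          ENNReal.ofReal_add (by positivity) (by positivity),
          ENNReal.ofReal_mul ha0, ENNReal.ofReal_mul (p := r ^ s) (by positivity),
          ENNReal.ofReal_add ha0 hb0, ENNReal.ofReal_pow hr0.le]

end Pool.Agent.Helper37.Ball
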