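import Mathlib
import Pool.Agent.Helper37.Ball.DecayC
set_option autoImplicit false
set_option linter.unusedSectionVars false
open MeasureTheory Filter Topology
open scoped ENNReal NNReal
namespace Pool.Agent.Helper37.Ball

lemma one_lt_om {η : ℝ} (hη : 1 < η) : 1 < om η := by
  unfold om
  have := Real.sqrt_nonneg (η ^ 2 - 1)
  linarith

lemma u_lt_om_mul {η z : ℝ} {h g : G2} (hh : u h < η) (hg : u g < z) : u (h * g) < om η * z := by
  have h1 := u_mul_le_om' g h
  have h2 : om (u h) ≤ om η := om_mono (one_le_u h) hh.le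
  have h3 : 1 ≤ om (u h) := one_le_om (one_le_u h)
  have h4 := u_pos g
  calc u (h * g) ≤ om (u h) * u g := h1
    _ < om (u h) * z := by nlinarith
    _ ≤ om η * z := by nlinarith

variable [MeasurableSpace G2] [BorelSpace G2] {X : Type} [MeasurableSpace X] [MulAction G2 X]
  [MeasurableSMul₂ G2 X]
variable {m : Measure G2} [SFinite m] [m.IsMulRightInvariant] [m.IsInvInvariant]
  [m.IsMulLeftInvariant]
variable {μ : Measure X} [IsProbabilityMeasure μ] [SMulInvariantMeasure G2 X μ]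

lemma ML_AA (hV : Vol m 1) {η : ℝ} (hη : 1 < η) {G : X → ℝ} (hG : Measurable G) (hb : Bd G)
    (h0 : ∀ x, 0 ≤ G x) {z : ℝ} (hz : 1 < z) (x : X) :
    ML m z (ML m η (fun y => ENNReal.ofReal (G y))) x =
      ENNReal.ofReal ((η - 1) * ((z - 1) * AA m z (AA m η G) x)) := by
  have h1 : ML m η (fun y => ENNReal.ofReal (G y)) = fun y => ENNReal.ofReal ((η - 1) * AA m η G y) := by
    funext y
    exact ML_ofReal hV hη hG hb h0 y
  have hη1 : 0 < η - 1 := by linarith
  rw [h1, ML_ofReal (G := fun y => (η - 1) * AA m η G y) hV hz ((measurable_AA m η hG).const_mul _)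
    (Bd.mul ⟨|η - 1|, fun _ => le_rfl⟩ (Bd_AA hV hη hb))
    (fun y => mul_nonneg hη1.le (AA_nonneg hη h0 y))]
  congr 1
  unfold AA
  rw [integral_const_mul]
  ring

/-- upper comparison -/
lemma AA_upper (hV : Vol m 1) {η : ℝ} (hη : 1 < η) {G : X → ℝ} (hG : Measurable G) (hb : Bd G)
    (h0 : ∀ x, 0 ≤ G x) {z : ℝ} (hz : 1 < z) (x : X) :
    (z - 1) * AA m z G x ≤ (om η * z - 1) * AA m (om η * z) (AA m η G) x := by
  have hη1 : 0 < η - 1 := by linarith
  have hω := one_lt_om hη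
  have hωz : 1 < om η * z := by nlinarith
  have h := ML_le_ML_ML (m := m) (z := z) (η := η) (w := om η * z)
    (Ψ := fun y => ENNReal.ofReal (G y)) (by
      intro h g hh hg
      exact u_lt_om_mul (by rw [u_inv]; exact hh) hg) hG.ennreal_ofReal x
  rw [ML_AA hV hη hG hb h0 hωz, ML_ofReal hV hz hG hb h0, hV, one_mul,
    ← ENNReal.ofReal_mul hη1.le] at h
  have hA : 0 ≤ AA m (om η * z) (AA m η G) x := AA_nonneg hωz (AA_nonneg hη h0) x
  rw [ENNReal.ofReal_le_ofReal_iff (mul_nonneg hη1.le (mul_nonneg (by linarith) hA))] at h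
  exact le_of_mul_le_mul_left h hη1

/-- lower comparison -/
lemma AA_lower (hV : Vol m 1) {η : ℝ} (hη : 1 < η) {G : X → ℝ} (hG : Measurable G) (hb : Bd G)
    (h0 : ∀ x, 0 ≤ G x) {z : ℝ} (hz : 1 < z) (x : X) :
    (z - 1) * AA m z (AA m η G) x ≤ (om η * z - 1) * AA m (om η * z) G x := by
  have hη1 : 0 < η - 1 := by linarith
  have hω := one_lt_om hη
  have hωz : 1 < om η * z := by nlinarith
  have h := ML_ML_le (m := m) (z := om η * z) (η := η) (w := z)
    (Ψ := fun y => ENNReal.ofReal (G y)) (by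
      intro h g hh hg
      have := u_lt_om_mul hh hg
      rwa [mul_inv_cancel_left] at this) hG.ennreal_ofReal x
  rw [ML_AA hV hη hG hb h0 hz, ML_ofReal hV hωz hG hb h0, hV, one_mul,
    ← ENNReal.ofReal_mul hη1.le] at h
  have hA : 0 ≤ AA m (om η * z) G x := AA_nonneg hωz h0 x
  rw [ENNReal.ofReal_le_ofReal_iff (mul_nonneg hη1.le (mul_nonneg (by linarith) hA))] at h
  exact le_of_mul_le_mul_left h hη1

/-- monotonicity of unnormalised averages -/
lemma AA_mono_z (hV : Vol m 1) {G : X → ℝ} (hG : Measurable G) (hb : Bd G)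
    (h0 : ∀ x, 0 ≤ G x) {z w : ℝ} (hz : 1 < z) (hzw : z ≤ w) (x : X) :
    (z - 1) * AA m z G x ≤ (w - 1) * AA m w G x := by
  have hw : 1 < w := by linarith
  have h := ML_mono_z m hzw (fun y => ENNReal.ofReal (G y)) x
  rw [ML_ofReal hV hz hG hb h0, ML_ofReal hV hw hG hb h0,
    ENNReal.ofReal_le_ofReal_iff (mul_nonneg (by linarith) (AA_nonneg hw h0 x))] at h
  exact h

/-- summable second moments give almost sure convergence -/
lemma ae_tendsto_zero {f : ℕ → X → ℝ} (hf : ∀ n, Measurable (f n)) (hb : ∀ n, Bd (f n))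
    {a : ℕ → ℝ} (ha : ∀ n, ∫ x, f n x ^ 2 ∂μ ≤ a n) (ha0 : ∀ n, 0 ≤ a n) (hs : Summable a) :
    ∀ᵐ x ∂μ, Tendsto (fun n => f n x) atTop (𝓝 0) := by
  have h1 : ∑' n, ∫⁻ x, ENNReal.ofReal (f n x ^ 2) ∂μ ≠ ∞ := by
    have h2 : ∀ n, ∫⁻ x, ENNReal.ofReal (f n x ^ 2) ∂μ ≤ ENNReal.ofReal (a n) := by
      intro n
      rw [← ofReal_integral_eq_lintegral_ofReal (integrable_bd ((hf n).pow_const 2) (hb n).sq)
        (ae_of_all _ fun x => sq_nonneg _)]
      exact ENNReal.ofReal_le_ofReal (ha n)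
    refine ne_top_of_le_ne_top ?_ (ENNReal.tsum_le_tsum h2)
    rw [← ENNReal.ofReal_tsum_of_nonneg ha0 hs]
    exact ENNReal.ofReal_ne_top
  have hm : ∀ n, Measurable fun x => ENNReal.ofReal (f n x ^ 2) := fun n =>
    ((hf n).pow_const 2).ennreal_ofReal
  rw [← lintegral_tsum fun n => (hm n).aemeasurable] at h1
  have h3 := ae_lt_top (Measurable.tsum hm) h1
  filter_upwards [h3] with x hx
  have h4 := ENNReal.tendsto_atTop_zero_of_tsum_ne_top hx.ne
  have h5 : Tendsto (fun n => f n x ^ 2) atTop (𝓝 0) := by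
    have := (ENNReal.tendsto_toReal ENNReal.zero_ne_top).comp h4
    simp only [ENNReal.toReal_zero] at this
    refine this.congr fun n => ?_
    simp only [Function.comp]
    rw [ENNReal.toReal_ofReal (sq_nonneg _)]
  have h6 : Tendsto (fun n => |f n x|) atTop (𝓝 0) := by
    have := h5.sqrt
    simp only [Real.sqrt_zero] at this
    refine this.congr fun n => ?_
    rw [Real.sqrt_sq_eq_abs]
  exact (tendsto_zero_iff_abs_tendsto_zero _).mpr h6

/-- convergence of the smoothed averages along a geometric sequence -/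
lemma smooth_conv (hV : Vol m 1) (hgap : SpecGap μ) {η : ℝ} (hη : 1 < η) {G : X → ℝ}
    (hG : Measurable G) (hb : Bd G) {ω : ℝ} (hω : 1 < ω) :
    ∀ᵐ x ∂μ, Tendsto (fun j : ℕ => AA m (ω ^ (j + 1)) (AA m η G) x) atTop (𝓝 (∫ y, G y ∂μ)) := by
  obtain ⟨κ, C, hκ, hC, hmain⟩ := l2_decay (m := m) hV hgap hη
  set I := ∫ y, G y ∂μ with hI
  set D : X → ℝ := fun x => G x - I with hD
  have hDm : Measurable D := hG.sub_const I
  have hDb : Bd D := hb.sub ⟨|I|, fun _ => le_rfl⟩
  have hDi : ∫ x, D x ∂μ = 0 := by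
    rw [hD, integral_sub (integrable_bd hG hb) (integrable_const _)]
    simp [hI]
  have hpow : ∀ j : ℕ, 1 < ω ^ (j + 1) := fun j => one_lt_pow₀ hω (Nat.succ_ne_zero j)
  set N := ∫ x, D x ^ 2 ∂μ with hN
  have hN0 : 0 ≤ N := integral_nonneg fun _ => sq_nonneg _
  have hlog : 0 < Real.log ω := Real.log_pos hω
  set q := Real.exp (-κ * Real.log ω) with hq
  have hq0 : 0 < q := Real.exp_pos _
  have hq1 : q < 1 := by rw [hq, Real.exp_lt_one_iff]; nlinarith
  have hbound : ∀ j : ℕ, ∫ x, (AA m (ω ^ (j + 1)) (AA m η D) x) ^ 2 ∂μ ≤ C * N * q ^ (j + 1) := by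
    intro j
    refine (hmain D hDm hDb hDi _ (hpow j)).trans (le_of_eq ?_)
    congr 1
    rw [hq, ← Real.exp_nat_mul, Real.log_pow]
    congr 1
    push_cast
    ring
  have hsum : Summable fun j : ℕ => C * N * q ^ (j + 1) := by
    have h1 := (summable_geometric_of_lt_one hq0.le hq1).mul_left (C * N * q)
    refine h1.congr fun j => ?_
    rw [pow_succ]
    ring
  have h := ae_tendsto_zero (μ := μ) (f := fun j => AA m (ω ^ (j + 1)) (AA m η D))
    (fun j => measurable_AA m _ (measurable_AA m η hDm))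
    (fun j => Bd_AA hV (hpow j) (Bd_AA hV hη hDb)) hbound (fun j => by positivity) hsum
  filter_upwards [h] with x hx
  have e : ∀ j : ℕ, AA m (ω ^ (j + 1)) (AA m η D) x = AA m (ω ^ (j + 1)) (AA m η G) x - I := by
    intro j
    have e1 : AA m η D = fun y => AA m η G y - I := by
      funext y
      exact AA_sub_const hV hη hG hb I y
    rw [e1, AA_sub_const hV (hpow j) (measurable_AA m η hG) (Bd_AA hV hη hb) I x]
  simp_rw [e] at hx
  have := hx.add_const I
  simpa using this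

end Pool.Agent.Helper37.Ball
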