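import Mathlib
import Pool.Agent.Helper37.Ball.Conv1
set_option autoImplicit false
set_option linter.unusedSectionVars false
open MeasureTheory Filter Topology
open scoped ENNReal NNReal
namespace Pool.Agent.Helper37.Ball

lemma ratio_tendsto {ω : ℝ} (hω : 1 < ω) :
    Tendsto (fun i : ℕ => (ω ^ (i + 2) - 1) / (ω ^ i - 1)) atTop (𝓝 (ω ^ 2)) := by
  have h1 : Tendsto (fun i : ℕ => ω ^ i - 1) atTop atTop :=
    tendsto_atTop_add_const_right _ _ (tendsto_pow_atTop_atTop_of_one_lt hω)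
  have h2 : Tendsto (fun i : ℕ => ω ^ 2 + (ω ^ 2 - 1) / (ω ^ i - 1)) atTop (𝓝 (ω ^ 2 + 0)) :=
    tendsto_const_nhds.add (Tendsto.div_atTop tendsto_const_nhds h1)
  rw [add_zero] at h2
  refine h2.congr' ?_
  filter_upwards [eventually_ge_atTop 1] with i hi
  have h3 : 1 < ω ^ i := one_lt_pow₀ hω (by omega)
  have h4 : ω ^ i - 1 ≠ 0 := by linarith
  field_simp
  ring

/-- deterministic comparison argument -/
lemma bracket {ω I : ℝ} (hω : 1 < ω) {φ ψ : ℝ → ℝ}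
    (hU : ∀ z, 1 < z → (z - 1) * φ z ≤ (ω * z - 1) * ψ (ω * z))
    (hL : ∀ z, 1 < z → (z - 1) * ψ z ≤ (ω * z - 1) * φ (ω * z))
    (hM : ∀ z w, 1 < z → z ≤ w → (z - 1) * φ z ≤ (w - 1) * φ w)
    (hφ : ∀ z, 1 < z → 0 ≤ φ z)
    (hlim : Tendsto (fun j : ℕ => ψ (ω ^ (j + 1))) atTop (𝓝 I)) {ε : ℝ} (hε : 0 < ε) :
    ∀ᶠ z in atTop, φ z < ω ^ 2 * I + ε ∧ (ω ^ 2)⁻¹ * I - ε < φ z := by
  have hlog : 0 < Real.log ω := Real.log_pos hω
  have hlim' : Tendsto (fun j : ℕ => ψ (ω ^ j)) atTop (𝓝 I) :=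
    (tendsto_add_atTop_iff_nat 1).mp hlim
  have hlim2 : Tendsto (fun j : ℕ => ψ (ω ^ (j + 2))) atTop (𝓝 I) :=
    (tendsto_add_atTop_iff_nat 2).mpr hlim'
  have hR : Tendsto (fun i : ℕ => (ω ^ (i + 2) - 1) / (ω ^ i - 1) * ψ (ω ^ (i + 2))) atTop
      (𝓝 (ω ^ 2 * I)) := (ratio_tendsto hω).mul hlim2
  have hQ : Tendsto (fun i : ℕ => ((ω ^ (i + 2) - 1) / (ω ^ i - 1))⁻¹ * ψ (ω ^ i)) atTop
      (𝓝 ((ω ^ 2)⁻¹ * I)) := ((ratio_tendsto hω).inv₀ (by positivity)).mul hlim'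
  set jj : ℝ → ℕ := fun z => ⌊Real.log z / Real.log ω⌋₊ with hjj
  have hj : Tendsto jj atTop atTop :=
    tendsto_nat_floor_atTop.comp (Real.tendsto_log_atTop.atTop_div_const hlog)
  have hj1 : Tendsto (fun z => jj z - 1) atTop atTop := (tendsto_sub_atTop_nat 1).comp hj
  have e1 := (hR.comp hj).eventually_lt_const (show ω ^ 2 * I < ω ^ 2 * I + ε by linarith)
  have e2 := (hQ.comp hj1).eventually_const_lt (show (ω ^ 2)⁻¹ * I - ε < (ω ^ 2)⁻¹ * I by linarith)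
  filter_upwards [e1, e2, hj.eventually_ge_atTop 2, eventually_gt_atTop 1] with z h1 h2 h3 hz
  have hz0 : 0 < z := by linarith
  have hlz : 0 ≤ Real.log z / Real.log ω := div_nonneg (Real.log_nonneg hz.le) hlog.le
  have hjle : ω ^ jj z ≤ z := by
    have h4 : (jj z : ℝ) ≤ Real.log z / Real.log ω := Nat.floor_le hlz
    rw [le_div_iff₀ hlog] at h4
    calc ω ^ jj z = Real.exp ((jj z : ℝ) * Real.log ω) := by
          rw [Real.exp_nat_mul, Real.exp_log (by linarith)]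
      _ ≤ Real.exp (Real.log z) := Real.exp_le_exp.mpr h4
      _ = z := Real.exp_log hz0
  have hjlt : z ≤ ω ^ (jj z + 1) := by
    have h4 : Real.log z / Real.log ω < (jj z : ℝ) + 1 := Nat.lt_floor_add_one _
    rw [div_lt_iff₀ hlog] at h4
    calc z = Real.exp (Real.log z) := (Real.exp_log hz0).symm
      _ ≤ Real.exp (((jj z + 1 : ℕ) : ℝ) * Real.log ω) := by
          apply Real.exp_le_exp.mpr
          push_cast
          exact h4.le
      _ = ω ^ (jj z + 1) := by rw [Real.exp_nat_mul, Real.exp_log (by linarith)]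
  have hpow : ∀ i : ℕ, i ≠ 0 → 1 < ω ^ i := fun i hi => one_lt_pow₀ hω hi
  have hz1 : 0 < z - 1 := by linarith
  have hφz := hφ z hz
  constructor
  · refine lt_of_le_of_lt ?_ h1
    show φ z ≤ (ω ^ (jj z + 2) - 1) / (ω ^ jj z - 1) * ψ (ω ^ (jj z + 2))
    have hjpos : 0 < ω ^ jj z - 1 := by linarith [hpow (jj z) (by omega)]
    have a1 := hM z (ω ^ (jj z + 1)) hz hjlt
    have a2 := hU (ω ^ (jj z + 1)) (hpow _ (by omega))
    rw [show ω * ω ^ (jj z + 1) = ω ^ (jj z + 2) by ring] at a2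
    rw [div_mul_eq_mul_div, le_div_iff₀ hjpos]
    calc φ z * (ω ^ jj z - 1) ≤ φ z * (z - 1) := by
          apply mul_le_mul_of_nonneg_left _ hφz
          linarith
      _ = (z - 1) * φ z := by ring
      _ ≤ _ := a1.trans a2
  · refine lt_of_lt_of_le h2 ?_
    show ((ω ^ (jj z - 1 + 2) - 1) / (ω ^ (jj z - 1) - 1))⁻¹ * ψ (ω ^ (jj z - 1)) ≤ φ z
    have e3 : jj z - 1 + 2 = jj z + 1 := by omega
    have e4 : ω * ω ^ (jj z - 1) = ω ^ jj z := by
      rw [← pow_succ']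
      congr 1
      omega
    rw [e3, inv_div, div_mul_eq_mul_div]
    have hpos2 : 0 < ω ^ (jj z + 1) - 1 := by linarith [hpow (jj z + 1) (by omega)]
    rw [div_le_iff₀ hpos2]
    have a1 := hL (ω ^ (jj z - 1)) (hpow _ (by omega))
    rw [e4] at a1
    have a2 := hM (ω ^ jj z) z (hpow _ (by omega)) hjle
    calc (ω ^ (jj z - 1) - 1) * ψ (ω ^ (jj z - 1)) ≤ (z - 1) * φ z := a1.trans a2
      _ = φ z * (z - 1) := by ring
      _ ≤ φ z * (ω ^ (jj z + 1) - 1) := by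
          apply mul_le_mul_of_nonneg_left _ hφz
          linarith

lemma tendsto_om_one : Tendsto (fun n : ℕ => om (1 + 1 / ((n : ℝ) + 1))) atTop (𝓝 1) := by
  have hc : Continuous om := by unfold om; fun_prop
  have h1 : Tendsto (fun n : ℕ => 1 + 1 / ((n : ℝ) + 1)) atTop (𝓝 (1 + 0)) :=
    tendsto_const_nhds.add tendsto_one_div_add_atTop_nhds_zero_nat
  have h2 := (hc.tendsto (1 + 0)).comp h1
  have h3 : om (1 + 0) = 1 := by unfold om; norm_num
  rw [h3] at h2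
  exact h2

variable [MeasurableSpace G2] [BorelSpace G2] {X : Type} [MeasurableSpace X] [MulAction G2 X]
  [MeasurableSMul₂ G2 X]
variable {m : Measure G2} [SFinite m] [m.IsMulRightInvariant] [m.IsInvInvariant]
  [m.IsMulLeftInvariant]
variable {μ : Measure X} [IsProbabilityMeasure μ] [SMulInvariantMeasure G2 X μ]

/-- pointwise convergence for bounded nonnegative functions -/
theorem conv_bdd_nonneg (hV : Vol m 1) (hgap : SpecGap μ) {G : X → ℝ} (hG : Measurable G)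
    (hb : Bd G) (h0 : ∀ x, 0 ≤ G x) :
    ∀ᵐ x ∂μ, Tendsto (fun z : ℝ => AA m z G x) atTop (𝓝 (∫ y, G y ∂μ)) := by
  set I := ∫ y, G y ∂μ with hI
  set η : ℕ → ℝ := fun n => 1 + 1 / ((n : ℝ) + 1) with hη
  have hη1 : ∀ n, 1 < η n := fun n => by
    have : 0 < 1 / ((n : ℝ) + 1) := by positivity
    simp only [hη]
    linarith
  have hall : ∀ᵐ x ∂μ, ∀ n : ℕ,
      Tendsto (fun j : ℕ => AA m (om (η n) ^ (j + 1)) (AA m (η n) G) x) atTop (𝓝 I) := by
    rw [ae_all_iff]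
    exact fun n => smooth_conv hV hgap (hη1 n) hG hb (one_lt_om (hη1 n))
  filter_upwards [hall] with x hx
  rw [Metric.tendsto_nhds]
  intro ε hε
  have hom : Tendsto (fun n : ℕ => om (η n)) atTop (𝓝 1) := tendsto_om_one
  have t1 : Tendsto (fun n : ℕ => om (η n) ^ 2 * I) atTop (𝓝 (1 ^ 2 * I)) :=
    (hom.pow 2).mul_const I
  have t2 : Tendsto (fun n : ℕ => (om (η n) ^ 2)⁻¹ * I) atTop (𝓝 ((1 ^ 2)⁻¹ * I)) :=
    ((hom.pow 2).inv₀ (by norm_num)).mul_const I
  rw [one_pow, one_mul] at t1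
  rw [one_pow, inv_one, one_mul] at t2
  have ev1 := t1.eventually_lt_const (show I < I + ε / 2 by linarith)
  have ev2 := t2.eventually_const_lt (show I - ε / 2 < I by linarith)
  obtain ⟨n, hn1, hn2⟩ := (ev1.and ev2).exists
  have hω := one_lt_om (hη1 n)
  have hbr := bracket (φ := fun z => AA m z G x) (ψ := fun z => AA m z (AA m (η n) G) x) (I := I) hω
    (fun z hz => AA_upper hV (hη1 n) hG hb h0 hz x)
    (fun z hz => AA_lower hV (hη1 n) hG hb h0 hz x)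
    (fun z w hz hzw => AA_mono_z hV hG hb h0 hz hzw x)
    (fun z hz => AA_nonneg hz h0 x) (hx n) (half_pos hε)
  filter_upwards [hbr] with z hz
  rw [Real.dist_eq, abs_lt]
  constructor
  · linarith [hz.2]
  · linarith [hz.1]

/-- pointwise convergence for bounded functions -/
theorem conv_bdd (hV : Vol m 1) (hgap : SpecGap μ) {G : X → ℝ} (hG : Measurable G)
    (hb : Bd G) :
    ∀ᵐ x ∂μ, Tendsto (fun z : ℝ => AA m z G x) atTop (𝓝 (∫ y, G y ∂μ)) := by
  obtain ⟨b, hb'⟩ := hb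
  have h1 := conv_bdd_nonneg (μ := μ) hV hgap (G := fun x => G x - (-b)) (hG.sub_const _)
    (Bd.sub ⟨b, hb'⟩ ⟨|(-b)|, fun _ => le_rfl⟩) (fun x => by
      have := neg_abs_le (G x)
      linarith [hb' x])
  filter_upwards [h1] with x hx
  have e1 : ∫ y, (G y - (-b)) ∂μ = ∫ y, G y ∂μ - (-b) := by
    rw [integral_sub (integrable_bd hG ⟨b, hb'⟩) (integrable_const _)]
    simp
  rw [e1] at hx
  have h2 := hx.add_const (-b)
  rw [sub_add_cancel] at h2
  refine h2.congr' ?_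
  filter_upwards [eventually_gt_atTop 1] with z hz
  rw [AA_sub_const hV hz hG ⟨b, hb'⟩, sub_add_cancel]

end Pool.Agent.Helper37.Ball
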