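import Mathlib
import Pool.Agent.Helper37.Ball.Conv2
set_option autoImplicit false
set_option linter.unusedSectionVars false
open MeasureTheory Filter Topology
open scoped ENNReal NNReal
namespace Pool.Agent.Helper37.Ball

variable [MeasurableSpace G2] [BorelSpace G2] {X : Type} [MeasurableSpace X] [MulAction G2 X]
  [MeasurableSMul₂ G2 X]
variable {m : Measure G2} [SFinite m] [m.IsMulRightInvariant] [m.IsInvInvariant]
  [m.IsMulLeftInvariant]
variable {μ : Measure X} [IsProbabilityMeasure μ] [SMulInvariantMeasure G2 X μ]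

/-- almost every orbit is locally integrable -/
lemma good_ae (hV : Vol m 1) {f : X → ℝ} (hfm : Measurable f) (hf : Integrable f μ) :
    ∀ᵐ x ∂μ, ∀ z : ℝ, IntegrableOn (fun g : G2 => f (g • x)) (B z) m := by
  have hm : Measurable fun x => ‖f x‖ₑ := hfm.enorm
  have h1 : ∀ᵐ x ∂μ, ∀ n : ℕ, ML m n (fun x => ‖f x‖ₑ) x < ∞ := by
    rw [ae_all_iff]
    intro n
    apply ae_lt_top (measurable_ML m n hm)
    rw [lintegral_ML m μ _ hm, hV, one_mul]
    exact ENNReal.mul_ne_top ENNReal.ofReal_ne_top hf.2.ne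
  filter_upwards [h1] with x hx z
  obtain ⟨n, hn⟩ := exists_nat_ge z
  refine ⟨(meas_act' hfm x).aestronglyMeasurable, ?_⟩
  have h2 : ML m z (fun x => ‖f x‖ₑ) x ≤ ML m n (fun x => ‖f x‖ₑ) x := ML_mono_z m hn _ _
  exact lt_of_le_of_lt h2 (hx n)

/-- comparison of averages at arbitrary scale with the dyadic scales -/
lemma avg_le_of_Mn_le {h : X → ℝ≥0∞} {l : ℝ} (hl : 0 ≤ l) {x : X}
    (hx : ∀ r, Mn m r h x ≤ ENNReal.ofReal l) {z : ℝ} (hz : 3 ≤ z) :
    ML m z h x ≤ ENNReal.ofReal ((z - 1) * l) := by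
  obtain ⟨r, hr1, hr2⟩ : ∃ r : ℕ, 3 * 2 ^ r ≤ z ∧ z < 6 * 2 ^ r := by
    obtain ⟨r, hr1, hr2⟩ := exists_nat_pow_near (x := z / 3) (y := 2) (by linarith) (by norm_num)
    refine ⟨r, by linarith, ?_⟩
    rw [pow_succ] at hr2
    linarith
  have hT : (0 : ℝ) < 2 ^ r := by positivity
  have h1 : ML m z h x ≤ ML m (6 * 2 ^ r) h x := ML_mono_z m hr2.le _ _
  have h2 : ML m (6 * 2 ^ r) h x = ENNReal.ofReal (2 ^ r) * Mn m r h x := by
    unfold Mn
    rw [← mul_assoc, ← ENNReal.ofReal_mul hT.le, mul_one_div_cancel hT.ne', ENNReal.ofReal_one, one_mul]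
  calc ML m z h x ≤ ENNReal.ofReal (2 ^ r) * Mn m r h x := h1.trans h2.le
    _ ≤ ENNReal.ofReal (2 ^ r) * ENNReal.ofReal l := by gcongr; exact hx r
    _ = ENNReal.ofReal (2 ^ r * l) := by rw [← ENNReal.ofReal_mul hT.le]
    _ ≤ ENNReal.ofReal ((z - 1) * l) := by
        apply ENNReal.ofReal_le_ofReal
        have : (1 : ℝ) ≤ 2 ^ r := one_le_pow₀ (by norm_num)
        have h3 : (2 : ℝ) ^ r ≤ z - 1 := by linarith
        gcongr

/-- **Pointwise convergence for integrable functions.** -/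
theorem conv_L1_meas (hV : Vol m 1) (hgap : SpecGap μ) {f : X → ℝ} (hfm : Measurable f)
    (hf : Integrable f μ) :
    ∀ᵐ x ∂μ, Tendsto (fun z : ℝ => AA m z f x) atTop (𝓝 (∫ y, f y ∂μ)) := by
  obtain ⟨C, q, hC, hq, hdec⟩ := decay_sets (m := m) (μ := μ) hV hgap
  set K : ℝ≥0∞ := m (B 6) + 2 * (256 * (1073741824 * C * (1 + 2 * (1 - q)⁻¹))) with hK
  have hKt : K ≠ ∞ := by
    have h1 : (1 - q)⁻¹ ≠ ∞ := by
      rw [ENNReal.inv_ne_top]
      exact (tsub_pos_of_lt hq).ne'
    have h2 : m (B 6) ≠ ∞ := by rw [hV, one_mul]; exact ENNReal.ofReal_ne_top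
    refine ENNReal.add_ne_top.mpr ⟨h2, ?_⟩
    refine ENNReal.mul_ne_top (by norm_num) (ENNReal.mul_ne_top (by norm_num) ?_)
    refine ENNReal.mul_ne_top (ENNReal.mul_ne_top (by norm_num) hC) ?_
    exact ENNReal.add_ne_top.mpr ⟨by norm_num, ENNReal.mul_ne_top (by norm_num) h1⟩
  have hweak : ∀ {h : X → ℝ≥0∞}, Measurable h → ∀ {l : ℝ≥0∞}, l ≠ 0 → l ≠ ∞ →
      l * μ {x | ∃ r, l < Mn m r h x} ≤ K * ∫⁻ x, h x ∂μ := by
    intro h hh l hl hlt
    have := weak_type m μ hdec hq.le hV (by norm_num) hh hl hlt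
    exact this
  -- the exceptional sets
  have hbad : ∀ l : ℝ, 0 < l →
      μ {x | ¬ ∀ᶠ z : ℝ in atTop, |AA m z f x - ∫ y, f y ∂μ| ≤ 3 * l} = 0 := by
    intro l hl
    have hlE : ENNReal.ofReal l ≠ 0 := by simpa using hl
    -- it suffices to bound by `K δ / l` for all small `δ`
    have hstep : ∀ δ : ℝ, 0 < δ → δ ≤ l →
        ENNReal.ofReal l * μ {x | ¬ ∀ᶠ z : ℝ in atTop, |AA m z f x - ∫ y, f y ∂μ| ≤ 3 * l} ≤
          K * ENNReal.ofReal δ := by
      intro δ hδ hδl
      have hδE : ENNReal.ofReal δ ≠ 0 := by simpa using hδ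
      obtain ⟨g, hg1, hg2⟩ := (memLp_one_iff_integrable.mpr hf).exists_simpleFunc_eLpNorm_sub_lt
        (by norm_num) hδE
      have hgm : Measurable g := g.measurable
      have hgb : Bd (g : X → ℝ) := by
        obtain ⟨b, hb⟩ := g.exists_forall_norm_le
        exact ⟨b, hb⟩
      have hgi : Integrable g μ := integrable_bd hgm hgb
      set h : X → ℝ≥0∞ := fun x => ‖f x - g x‖ₑ with hh
      have hhm : Measurable h := (hfm.sub hgm).enorm
      have hhi : ∫⁻ x, h x ∂μ ≤ ENNReal.ofReal δ := by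
        rw [eLpNorm_one_eq_lintegral_enorm] at hg1
        exact hg1.le
      have hW := hweak hhm hlE ENNReal.ofReal_ne_top
      have hgf : |∫ y, g y ∂μ - ∫ y, f y ∂μ| ≤ l := by
        rw [← integral_sub hgi hf]
        have h1 : |∫ y, (g y - f y) ∂μ| ≤ (∫⁻ x, h x ∂μ).toReal := by
          rw [← Real.norm_eq_abs]
          refine (norm_integral_le_lintegral_norm _).trans ?_
          apply le_of_eq
          congr 1
          apply lintegral_congr
          intro x
          rw [hh, ofReal_norm]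
          dsimp only
          rw [← enorm_neg, neg_sub]
        refine h1.trans ?_
        have h2 : (∫⁻ x, h x ∂μ).toReal ≤ δ := ENNReal.toReal_le_of_le_ofReal hδ.le hhi
        linarith
      have hae : ∀ᵐ x ∂μ, x ∉ {x | ∃ r, ENNReal.ofReal l < Mn m r h x} →
          ∀ᶠ z : ℝ in atTop, |AA m z f x - ∫ y, f y ∂μ| ≤ 3 * l := by
        filter_upwards [good_ae (m := m) hV hfm hf, conv_bdd (m := m) (μ := μ) hV hgap hgm hgb]
          with x hx1 hx2 hx3
        have hx3' : ∀ r, Mn m r h x ≤ ENNReal.ofReal l := by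
          intro r
          by_contra hcon
          push Not at hcon
          exact hx3 ⟨r, hcon⟩
        have ev : ∀ᶠ z : ℝ in atTop, |AA m z g x - ∫ y, g y ∂μ| ≤ l := by
          rw [Metric.tendsto_nhds] at hx2
          filter_upwards [hx2 l hl] with z hz
          rw [Real.dist_eq] at hz
          exact hz.le
        filter_upwards [ev, eventually_ge_atTop 3] with z hz1 hz3
        have hz1' : 0 < z - 1 := by linarith
        have hfin := finB hV z
        have hgint : Integrable (fun a : G2 => g (a • x)) (m.restrict (B z)) :=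
          integrable_bd (meas_act' hgm x) (hgb.comp _)
        have hdiff : |AA m z f x - AA m z g x| ≤ l := by
          have e1 : AA m z f x - AA m z g x = (z - 1)⁻¹ * ∫ a in B z, (f (a • x) - g (a • x)) ∂m := by
            unfold AA
            rw [← mul_sub, integral_sub (hx1 z) hgint]
          rw [e1, abs_mul, abs_of_pos (inv_pos.mpr hz1')]
          have e2 : |∫ a in B z, (f (a • x) - g (a • x)) ∂m| ≤ (z - 1) * l := by
            rw [← Real.norm_eq_abs]
            refine (norm_integral_le_lintegral_norm _).trans ?_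
            apply ENNReal.toReal_le_of_le_ofReal (by positivity)
            refine le_trans (le_of_eq ?_) (avg_le_of_Mn_le (m := m) hl.le hx3' hz3)
            unfold ML
            apply lintegral_congr
            intro a
            rw [hh, ofReal_norm]
          calc (z - 1)⁻¹ * |∫ a in B z, (f (a • x) - g (a • x)) ∂m| ≤ (z - 1)⁻¹ * ((z - 1) * l) := by
                gcongr
            _ = l := by field_simp
        calc |AA m z f x - ∫ y, f y ∂μ|
            = |(AA m z f x - AA m z g x) + (AA m z g x - ∫ y, g y ∂μ) +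
                (∫ y, g y ∂μ - ∫ y, f y ∂μ)| := by congr 1; ring
          _ ≤ |AA m z f x - AA m z g x| + |AA m z g x - ∫ y, g y ∂μ| +
                |∫ y, g y ∂μ - ∫ y, f y ∂μ| := abs_add_three _ _ _
          _ ≤ 3 * l := by linarith
      have hsubm : μ {x | ¬ ∀ᶠ z : ℝ in atTop, |AA m z f x - ∫ y, f y ∂μ| ≤ 3 * l} ≤
          μ {x | ∃ r, ENNReal.ofReal l < Mn m r h x} := by
        apply measure_mono_ae
        filter_upwards [hae] with x hx hx'
        by_contra hcon
        exact hx' (hx hcon)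
      calc ENNReal.ofReal l * μ {x | ¬ ∀ᶠ z : ℝ in atTop, |AA m z f x - ∫ y, f y ∂μ| ≤ 3 * l}
          ≤ ENNReal.ofReal l * μ {x | ∃ r, ENNReal.ofReal l < Mn m r h x} := by gcongr
        _ ≤ K * ∫⁻ x, h x ∂μ := hW
        _ ≤ K * ENNReal.ofReal δ := by gcongr
    have hzero : ENNReal.ofReal l *
        μ {x | ¬ ∀ᶠ z : ℝ in atTop, |AA m z f x - ∫ y, f y ∂μ| ≤ 3 * l} = 0 := by
      have hlim : Tendsto (fun n : ℕ => K * ENNReal.ofReal (l * (1 / ((n : ℝ) + 1)))) atTop (𝓝 0) := by
        have h1 : Tendsto (fun n : ℕ => l * (1 / ((n : ℝ) + 1))) atTop (𝓝 (l * 0)) :=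
          tendsto_one_div_add_atTop_nhds_zero_nat.const_mul l
        rw [mul_zero] at h1
        have h2 := ENNReal.tendsto_ofReal h1
        rw [ENNReal.ofReal_zero] at h2
        have h3 := ENNReal.Tendsto.const_mul (a := K) h2 (Or.inr hKt)
        rwa [mul_zero] at h3
      apply le_antisymm _ bot_le
      refine ge_of_tendsto' hlim fun n => ?_
      have hn : 0 < (n : ℝ) + 1 := by positivity
      apply hstep _ (by positivity)
      rw [mul_one_div, div_le_iff₀ hn]
      have : (0 : ℝ) ≤ n := Nat.cast_nonneg n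
      nlinarith
    rcases mul_eq_zero.mp hzero with h | h
    · exact absurd h hlE
    · exact h
  have hall : ∀ᵐ x ∂μ, ∀ n : ℕ, ∀ᶠ z : ℝ in atTop,
      |AA m z f x - ∫ y, f y ∂μ| ≤ 3 * (1 / ((n : ℝ) + 1)) := by
    rw [ae_all_iff]
    intro n
    exact hbad (1 / ((n : ℝ) + 1)) (by positivity)
  filter_upwards [hall] with x hx
  rw [Metric.tendsto_nhds]
  intro ε hε
  obtain ⟨n, hn⟩ := exists_nat_one_div_lt (show (0 : ℝ) < ε / 3 by linarith)
  filter_upwards [hx n] with z hz
  rw [Real.dist_eq]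
  linarith

/-- **Pointwise convergence for integrable functions**, arbitrary representatives. -/
theorem conv_L1 (hV : Vol m 1) (hgap : SpecGap μ) {f : X → ℝ} (hf : Integrable f μ) :
    ∀ᵐ x ∂μ, Tendsto (fun z : ℝ => AA m z f x) atTop (𝓝 (∫ y, f y ∂μ)) := by
  set f' := hf.1.mk f with hf'
  have hfm' : Measurable f' := hf.1.stronglyMeasurable_mk.measurable
  have hae : f =ᵐ[μ] f' := hf.1.ae_eq_mk
  have hfi' : Integrable f' μ := hf.congr hae
  have h1 := conv_L1_meas (m := m) (μ := μ) hV hgap hfm' hfi'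
  rw [← integral_congr_ae hae] at h1
  -- null set
  set N := toMeasurable μ {x | ¬ f x = f' x} with hN
  have hNm : MeasurableSet N := measurableSet_toMeasurable _ _
  have hN0 : μ N = 0 := by rw [hN, measure_toMeasurable]; exact hae
  have h2 : ∫⁻ x, ∫⁻ g, N.indicator 1 (g • x) ∂m ∂μ = 0 := by
    have hm : Measurable fun p : X × G2 => N.indicator (1 : X → ℝ≥0∞) (p.2 • p.1) :=
      measurable_smul_swap (measurable_ind1 hNm)
    rw [lintegral_lintegral_swap (f := fun x (g : G2) => N.indicator (1 : X → ℝ≥0∞) (g • x))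
      hm.aemeasurable]
    have : ∀ g : G2, ∫⁻ x, N.indicator (1 : X → ℝ≥0∞) (g • x) ∂μ = 0 := by
      intro g
      rw [lintegral_smul_eq μ g (measurable_ind1 hNm), lintegral_indicator_one hNm, hN0]
    simp_rw [this]
    simp
  have hm2 : Measurable fun x => ∫⁻ g, N.indicator (1 : X → ℝ≥0∞) (g • x) ∂m :=
    Measurable.lintegral_prod_right' (measurable_smul_swap (measurable_ind1 hNm))
  rw [lintegral_eq_zero_iff hm2] at h2
  filter_upwards [h1, h2] with x hx1 hx2
  have hx3 : ∀ᵐ g ∂m, f (g • x) = f' (g • x) := by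
    have hx4 : ∫⁻ g, N.indicator (1 : X → ℝ≥0∞) (g • x) ∂m = 0 := hx2
    rw [lintegral_eq_zero_iff (measurable_smul_left (measurable_ind1 hNm) x)] at hx4
    filter_upwards [hx4] with g hg
    by_contra hcon
    have hmem : g • x ∈ N := subset_toMeasurable _ _ hcon
    have : N.indicator (1 : X → ℝ≥0∞) (g • x) = 0 := hg
    rw [Set.indicator_of_mem hmem] at this
    simp at this
  refine hx1.congr fun z => ?_
  unfold AA
  congr 1
  apply integral_congr_ae
  filter_upwards [ae_restrict_of_ae hx3] with g hg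
  exact hg.symm

end Pool.Agent.Helper37.Ball
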