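import Mathlib
import Pool.Agent.Helper37.Ball.Conv3
set_option autoImplicit false
set_option linter.unusedSectionVars false
open MeasureTheory Filter Topology
open scoped ENNReal NNReal
namespace Pool.Agent.Helper37.Ball

variable [MeasurableSpace G2] [BorelSpace G2]

lemma setOf_eq_B (R : ℝ) :
    {g : Matrix.SpecialLinearGroup (Fin 2) ℝ |
      ∑ i, ∑ j, ((g : Matrix (Fin 2) (Fin 2) ℝ) i j) ^ 2 < R} = B (R / 2) := by
  ext g
  show ∑ i, ∑ j, ((g : Matrix (Fin 2) (Fin 2) ℝ) i j) ^ 2 < R ↔ u g < R / 2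
  rw [sum_sq_eq, lt_div_iff₀ (by norm_num), mul_comm]

lemma setInt_inv (m : Measure G2) [m.IsInvInvariant] (z : ℝ) (φ : G2 → ℝ) :
    ∫ g in B z, φ g⁻¹ ∂m = ∫ g in B z, φ g ∂m := by
  rw [← integral_indicator (measurableSet_B z), ← integral_indicator (measurableSet_B z),
    ← integral_inv_eq_self]
  congr 1
  funext g
  have h : g⁻¹ ∈ B z ↔ g ∈ B z := by
    show u g⁻¹ < z ↔ u g < z
    rw [u_inv]
  by_cases hg : g ∈ B z
  · rw [Set.indicator_of_mem hg, Set.indicator_of_mem (h.mpr hg), inv_inv]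
  · rw [Set.indicator_of_notMem hg, Set.indicator_of_notMem (fun h' => hg (h.mp h'))]

theorem final_assembly (m : Measure G2) (hm : m.IsHaarMeasure) (X : Type) [MeasurableSpace X]
    (μ : Measure X) (hμ : IsProbabilityMeasure μ) [MulAction G2 X]
    (hjm : Measurable (fun p : G2 × X => p.1 • p.2))
    (hmp : ∀ g : G2, MeasurePreserving (fun x : X => g • x) μ μ)
    (hgap : ∃ Q : Set G2, IsCompact Q ∧
          ∃ ε : ℝ, 0 < ε ∧
            ∀ f : X → ℝ, MemLp f 2 μ → ∫ y, f y ∂μ = 0 → eLpNorm f 2 μ = 1 →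
              ∃ g ∈ Q, ENNReal.ofReal ε ≤ eLpNorm (fun y => f (g • y) - f y) 2 μ)
    (f : X → ℝ) (hf : Integrable f μ) :
    ∀ᵐ x ∂μ, Tendsto
            (fun R : ℝ =>
              (m {g : Matrix.SpecialLinearGroup (Fin 2) ℝ |
                  ∑ i, ∑ j, ((g : Matrix (Fin 2) (Fin 2) ℝ) i j) ^ 2 < R}).toReal⁻¹ *
                ∫ g in {g : Matrix.SpecialLinearGroup (Fin 2) ℝ |
                  ∑ i, ∑ j, ((g : Matrix (Fin 2) (Fin 2) ℝ) i j) ^ 2 < R},
                  f (g⁻¹ • x) ∂m)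
            atTop (𝓝 (∫ y, f y ∂μ)) := by
  have inst1 : MeasurableSMul₂ G2 X := ⟨hjm⟩
  have inst2 : SMulInvariantMeasure G2 X μ := ⟨fun g s hs => (hmp g).measure_preimage hs.nullMeasurableSet⟩
  obtain ⟨hright, hinv, c, hc0, hct, hvol⟩ := haar_facts m hm
  have hcinv0 : c⁻¹ ≠ 0 := ENNReal.inv_ne_zero.mpr hct
  have hcinvt : c⁻¹ ≠ ∞ := ENNReal.inv_ne_top.mpr hc0
  set m₁ : Measure G2 := c⁻¹ • m with hm₁
  have hm1eq : m = c • m₁ := by
    rw [hm₁, smul_smul, ENNReal.mul_inv_cancel hc0 hct, one_smul]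
  have i1 : SFinite m₁ := by rw [hm₁]; infer_instance
  have i2 : m₁.IsMulRightInvariant := by rw [hm₁]; infer_instance
  have i3 : m₁.IsMulLeftInvariant := by rw [hm₁]; infer_instance
  have i4 : m₁.IsInvInvariant := by
    refine ⟨?_⟩
    rw [hm₁, Measure.inv, Measure.map_smul]
    congr 1
    exact hinv.inv_eq_self
  have hV : Vol m₁ 1 := by
    intro z
    rw [hm₁, Measure.smul_apply, hvol, smul_eq_mul, ← mul_assoc, ENNReal.inv_mul_cancel hc0 hct]
  have hmain := conv_L1 (m := m₁) (μ := μ) hV hgap hf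
  filter_upwards [hmain] with x hx
  have hhalf : Tendsto (fun R : ℝ => R / 2) atTop atTop := tendsto_id.atTop_div_const (by norm_num)
  refine (hx.comp hhalf).congr' ?_
  filter_upwards [eventually_gt_atTop 2] with R hR
  have hz : 1 < R / 2 := by linarith
  rw [setOf_eq_B]
  simp only [Function.comp]
  have hcr : 0 < c.toReal := ENNReal.toReal_pos hc0 hct
  have e1 : (m (B (R / 2))).toReal = c.toReal * (R / 2 - 1) := by
    rw [hvol, ENNReal.toReal_mul, ENNReal.toReal_ofReal (by linarith)]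
  have e2 : ∫ g in B (R / 2), f (g⁻¹ • x) ∂m = c.toReal * ∫ g in B (R / 2), f (g • x) ∂m₁ := by
    conv_lhs => rw [hm1eq]
    rw [Measure.restrict_smul, integral_smul_measure, smul_eq_mul,
      setInt_inv m₁ (R / 2) (fun g => f (g • x))]
  rw [e1, e2]
  unfold AA
  field_simp

end Pool.Agent.Helper37.Ball
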